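import Mathlib
import Pool.Agent.SWT80.Mg
import Pool.Agent.SWT93.Plug

/-!
# From the functionals on based graphs to a homomorphism on the space of Jacobi diagrams

A Jacobi diagram with a chosen vertex of the circle is a based graph: the circle is cut before the
vertex and removed, the legs are numbered in the order of the circle. A family of functionals on
based graphs which satisfies AS, IHX, STU and is invariant under the rotation of the legs gives a
homomorphism on the integral space of Jacobi diagrams on the circle.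
-/

set_option autoImplicit false

namespace Pool.Agent.SWT84

open Equiv Pool.Agent.Jac70 Pool.Agent.SWT49 Pool.Agent.SWT80 Pool.Agent.SWT93

variable {H : Type} [DecidableEq H]

/-! ### The half-edges outside the circle -/

theorem onC_e (D : JD H) (h : H) : D.onC (D.e h) ↔ D.onC h := by
  unfold JD.onC
  rw [D.e2]
  exact or_comm

theorem onC_mem {D : JD H} {u : H} (hu : u ∈ D.K) : D.onC u := Or.inl hu

theorem onC_r {D : JD H} {u : H} (hu : u ∈ D.K) : D.onC (D.r u) := Or.inr (D.out u hu)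

theorem not_onC_rr {D : JD H} {u : H} (hu : u ∈ D.K) : ¬ D.onC (D.r (D.r u)) := by
  rintro (h | h)
  · exact (D.leg u hu).1 h
  · exact (D.leg u hu).2 h

/-- Outside the circle there are the ends of the legs and the inner half-edges. -/
theorem inner_of_not {D : JD H} {h : H} (h1 : ¬ D.onC h) (h2 : D.r h ∉ D.K) : D.inner h := by
  by_contra hc
  obtain ⟨u, hu, h3 | h3 | h3⟩ := D.not_inner_iff.1 hc
  · exact h1 (h3 ▸ onC_mem hu)
  · exact h1 (h3 ▸ onC_r hu)
  · apply h2
    rw [h3, D.r3]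
    exact hu

theorem inner_r_notMem {D : JD H} {h : H} (hh : D.inner h) : D.r h ∉ D.K := fun h1 =>
  hh.2.1 (Or.inl h1)

/-- The cyclic orders of the graph: the ends of the legs are fixed. -/
def rh (D : JD H) (h : H) : H := if D.r h ∈ D.K then h else D.r h

theorem rh_slot {D : JD H} {h : H} (hh : D.r h ∈ D.K) : rh D h = h := if_pos hh

theorem rh_o {D : JD H} {h : H} (hh : D.r h ∉ D.K) : rh D h = D.r h := if_neg hh

theorem rh_inner {D : JD H} {h : H} (hh : D.inner h) : rh D h = D.r h := rh_o (inner_r_notMem hh)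

theorem rh_not {D : JD H} {h : H} (hh : ¬ D.onC h) : ¬ D.onC (rh D h) := by
  by_cases h1 : D.r h ∈ D.K
  · rw [rh_slot h1]
    exact hh
  · rw [rh_o h1]
    exact (inner_of_not hh h1).2.1

theorem rh3 {D : JD H} {h : H} (hh : ¬ D.onC h) : rh D (rh D (rh D h)) = h := by
  by_cases h1 : D.r h ∈ D.K
  · rw [rh_slot h1, rh_slot h1, rh_slot h1]
  · have h2 := inner_of_not hh h1
    rw [rh_inner h2, rh_inner (D.inner_r h2), rh_inner (D.inner_r (D.inner_r h2)), D.r3]

theorem card_le [Fintype H] (D : JD H) : 3 * D.K.card ≤ Fintype.card H := by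
  have hinj : Function.Injective fun p : Fin 3 × D.K => (D.r ^ (p.1 : ℕ)) (p.2 : H) := by
    have key : ∀ (u v : D.K), (u : H) ≠ D.r v ∧ (u : H) ≠ D.r (D.r v) ∧
        D.r u ≠ D.r (D.r (v : H)) := fun u v => by
      refine ⟨fun h => ?_, fun h => ?_, fun h => ?_⟩
      · exact D.out_notMem v.2 (h ▸ u.2)
      · exact (D.leg v v.2).1 (h ▸ u.2)
      · exact D.out_notMem v.2 (D.r_inj h ▸ u.2)
    rintro ⟨i, u⟩ ⟨j, v⟩ h
    have h0 : ∀ w : H, (D.r ^ 0) w = w := fun w => rfl
    have h1 : ∀ w : H, (D.r ^ 1) w = D.r w := fun w => rfl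
    have h2 : ∀ w : H, (D.r ^ 2) w = D.r (D.r w) := fun w => rfl
    obtain ⟨a1, a2, a3⟩ := key u v
    obtain ⟨b1, b2, b3⟩ := key v u
    have h' : (D.r ^ (i : ℕ)) (u : H) = (D.r ^ (j : ℕ)) (v : H) := h
    fin_cases i <;> fin_cases j
    · have : (u : H) = v := h'
      rw [Subtype.ext this]
    · exact absurd (h' : (u : H) = D.r v) a1
    · exact absurd (h' : (u : H) = D.r (D.r v)) a2
    · exact absurd (h' : D.r u = (v : H)).symm b1
    · have : D.r (u : H) = D.r v := h'
      rw [Subtype.ext (D.r_inj this)]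
    · exact absurd (h' : D.r u = D.r (D.r v)) a3
    · exact absurd (h' : D.r (D.r u) = (v : H)).symm b2
    · exact absurd (h' : D.r (D.r u) = D.r (v : H)).symm b3
    · have : D.r (D.r (u : H)) = D.r (D.r v) := h'
      rw [Subtype.ext (D.r_inj (D.r_inj this))]
  have h := Fintype.card_le_of_injective _ hinj
  rw [Fintype.card_prod, Fintype.card_fin, Fintype.card_coe] at h
  exact h

/-! ### The based graph -/

/-- The based graph of the diagram `D` with the vertex of `u ∈ D.K`; `P` is a predicate which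
describes the half-edges outside the circle, and `n` is the number of the legs. -/
def gr (D : JD H) (P : H → Prop) (hP : ∀ h, P h ↔ ¬ D.onC h) (u : H) (hu : u ∈ D.K) (n : ℕ)
    (hn : D.K.card = n) : Gr {h // P h} n where
  e := ⟨fun v => ⟨D.e v, by rw [hP, onC_e, ← hP]; exact v.2⟩,
    fun v => ⟨D.e v, by rw [hP, onC_e, ← hP]; exact v.2⟩, fun v => Subtype.ext (D.e2 v),
    fun v => Subtype.ext (D.e2 v)⟩
  r := Gr.perm3 (fun v => ⟨rh D v, (hP _).2 (rh_not ((hP _).1 v.2))⟩)
    fun v => Subtype.ext (rh3 ((hP _).1 v.2))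
  leg i := ⟨D.r (D.r ((nx D)^[i] u)), (hP _).2 (not_onC_rr (nx_iter_mem hu i))⟩
  e2 v := Subtype.ext (D.e2 v)
  e1 v h := D.e1 v (congrArg Subtype.val h)
  r3 v := Subtype.ext (rh3 ((hP _).1 v.2))
  inj i j h := by
    have h1 := D.r_inj (D.r_inj (congrArg Subtype.val h))
    exact Fin.ext (nx_iter_inj hu (hn ▸ i.2) (hn ▸ j.2) h1)
  fix v := by
    constructor
    · intro h
      have h1 : rh D v = v := congrArg Subtype.val h
      have h2 : D.r (v : H) ∈ D.K := by
        by_contra h3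
        rw [rh_o h3] at h1
        exact D.r1 _ h1
      obtain ⟨i, hi, h3⟩ := exists_nx_iter hu h2
      refine ⟨⟨i, hn ▸ hi⟩, Subtype.ext ?_⟩
      show D.r (D.r ((nx D)^[i] u)) = v
      rw [h3, D.r3]
    · rintro ⟨i, rfl⟩
      refine Subtype.ext (rh_slot ?_)
      show D.r (D.r (D.r ((nx D)^[i] u))) ∈ D.K
      rw [D.r3]
      exact nx_iter_mem hu i

section

variable (D : JD H) (P : H → Prop) (hP : ∀ h, P h ↔ ¬ D.onC h) (u : H) (hu : u ∈ D.K) (n : ℕ)
  (hn : D.K.card = n)

theorem gr_e (v : {h // P h}) : ((gr D P hP u hu n hn).e v : H) = D.e v := rfl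

theorem gr_r (v : {h // P h}) : ((gr D P hP u hu n hn).r v : H) = rh D v := rfl

theorem gr_r_inner (v : {h // P h}) (hv : D.inner v) :
    ((gr D P hP u hu n hn).r v : H) = D.r v := by
  rw [gr_r, rh_inner hv]

theorem gr_leg (i : Fin n) : ((gr D P hP u hu n hn).leg i : H) = D.r (D.r ((nx D)^[i] u)) := rfl

end

/-- The based graph of the diagram `D` with the vertex of `u ∈ D.K`: the half-edges are those
outside the circle, the legs end at the half-edges `r (r u)`, `r (r (nx u))`, ... -/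
def toGr (D : JD H) (u : H) (hu : u ∈ D.K) : Gr {h // ¬ D.onC h} D.K.card :=
  gr D (fun h => ¬ D.onC h) (fun _ => Iff.rfl) u hu D.K.card rfl

/-! ### The values of the functionals -/

section

variable {M : Type} [AddCommGroup M] (F : (n : ℕ) → (V : Type) → Gr V n → M)

/-- The value on a based diagram. -/
def val (D : JD H) (u : H) (hu : u ∈ D.K) : M := F D.K.card {h // ¬ D.onC h} (toGr D u hu)

variable {F}

theorem gr_map (D : JD H) (P Q : H → Prop) (hP : ∀ h, P h ↔ ¬ D.onC h)
    (hQ : ∀ h, Q h ↔ ¬ D.onC h) (u : H) (hu : u ∈ D.K) (n : ℕ) (hn : D.K.card = n) :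
    (gr D P hP u hu n hn).map (Equiv.subtypeEquivRight fun h => (hP h).trans (hQ h).symm) =
      gr D Q hQ u hu n hn :=
  Gr.map_eq (fun _ => rfl) (fun _ => rfl) fun _ => rfl

theorem val_eq [Fintype H] {D : JD H} (hF : Rel (F D.K.card)) (P : H → Prop)
    (hP : ∀ h, P h ↔ ¬ D.onC h) (u : H) (hu : u ∈ D.K) (n : ℕ) (hn : D.K.card = n) :
    val F D u hu = F n {h // P h} (gr D P hP u hu n hn) := by
  subst hn
  rw [← gr_map D (fun h => ¬ D.onC h) P (fun _ => Iff.rfl) hP u hu _ rfl]
  exact (hF.iso _ _ _ _).symm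

/-! ### The change of the base point -/

theorem gr_rot (D : JD H) (P : H → Prop) (hP : ∀ h, P h ↔ ¬ D.onC h) (u : H) (hu : u ∈ D.K)
    (n : ℕ) (hn : D.K.card = n + 1) :
    (finRotate (n + 1) : Perm (Fin (n + 1))) • gr D P hP (nx D u) (nx_mem hu) (n + 1) hn =
      gr D P hP u hu (n + 1) hn := by
  refine Gr.ext rfl rfl (funext fun i => Subtype.ext ?_)
  obtain ⟨j, rfl⟩ := (finRotate (n + 1)).surjective i
  rw [Gr.smul_leg]
  have h1 : (finRotate (n + 1) : Perm (Fin (n + 1)))⁻¹ (finRotate (n + 1) j) = j :=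
    (finRotate (n + 1)).symm_apply_apply j
  rw [h1, gr_leg, gr_leg, ← Function.iterate_succ_apply]
  congr 2
  by_cases hj : j = Fin.last n
  · subst hj
    rw [finRotate_last, Fin.val_last, Fin.val_zero]
    show (nx D)^[n + 1] u = u
    rw [← hn]
    exact nx_iter_card hu
  · have h2 : (j : ℕ) < n := by
      have := j.2
      have h3 : (j : ℕ) ≠ n := fun h => hj (Fin.ext h)
      omega
    rw [coe_finRotate_of_ne_last hj]

/-- The functional of level `n` is invariant under the rotation of the legs. -/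
def Rot {n : ℕ} (F : (V : Type) → Gr V (n + 1) → M) : Prop :=
  ∀ (V : Type) [Finite V] (G : Gr V (n + 1)),
    F V ((finRotate (n + 1) : Perm (Fin (n + 1))) • G) = F V G

theorem val_nx [Fintype H] {D : JD H} {n : ℕ} (hn : D.K.card = n + 1) (hF : Rel (F (n + 1)))
    (hR : Rot (F (n + 1))) (u : H) (hu : u ∈ D.K) :
    val F D (nx D u) (nx_mem hu) = val F D u hu := by
  have hF' : Rel (F D.K.card) := by rw [hn]; exact hF
  rw [val_eq hF' (fun h => ¬ D.onC h) (fun _ => Iff.rfl) u hu (n + 1) hn,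
    val_eq hF' (fun h => ¬ D.onC h) (fun _ => Iff.rfl) (nx D u) (nx_mem hu) (n + 1) hn,
    ← gr_rot D (fun h => ¬ D.onC h) (fun _ => Iff.rfl) u hu n hn, hR]

theorem val_const [Fintype H] {D : JD H} {n : ℕ} (hn : D.K.card = n + 1) (hF : Rel (F (n + 1)))
    (hR : Rot (F (n + 1))) {u v : H} (hu : u ∈ D.K) (hv : v ∈ D.K) :
    val F D v hv = val F D u hu := by
  have h := walk (D := D) {w | ∀ hw : w ∈ D.K, val F D w hw = val F D u hu} hu
    (fun _ => rfl) (by
      intro w hw hs hw'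
      have h1 : val F D (D.e (D.r w)) hw' = val F D (nx D w) (nx_mem hw) := rfl
      rw [h1, val_nx hn hF hR w hw]
      exact hs hw)
  exact h v hv hv

/-! ### Isomorphic diagrams -/

theorem onC_iso {D D' : JD H} {g : Perm H} (he : ∀ h, D'.e (g h) = g (D.e h))
    (hK : ∀ h, g h ∈ D'.K ↔ h ∈ D.K) (h : H) : D'.onC (g h) ↔ D.onC h := by
  unfold JD.onC
  rw [he, hK, hK]

theorem rh_iso {D D' : JD H} {g : Perm H} (hr : ∀ h, D'.r (g h) = g (D.r h))
    (hK : ∀ h, g h ∈ D'.K ↔ h ∈ D.K) (h : H) : rh D' (g h) = g (rh D h) := by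
  by_cases h1 : D.r h ∈ D.K
  · rw [rh_slot h1, rh_slot (by rw [hr, hK]; exact h1)]
  · rw [rh_o h1, rh_o (by rw [hr, hK]; exact h1), hr]

theorem nx_iso {D D' : JD H} {g : Perm H} (he : ∀ h, D'.e (g h) = g (D.e h))
    (hr : ∀ h, D'.r (g h) = g (D.r h)) (u : H) (i : ℕ) :
    (nx D')^[i] (g u) = g ((nx D)^[i] u) := by
  induction i with
  | zero => rfl
  | succ i ih =>
    rw [Function.iterate_succ_apply', Function.iterate_succ_apply', ih]
    show D'.e (D'.r (g ((nx D)^[i] u))) = g (D.e (D.r ((nx D)^[i] u)))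
    rw [hr, he]

theorem card_iso {D D' : JD H} {g : Perm H} (hK : ∀ h, g h ∈ D'.K ↔ h ∈ D.K) :
    D'.K.card = D.K.card := by
  have h1 : D'.K = D.K.map g.toEmbedding := by
    ext h
    rw [Finset.mem_map]
    constructor
    · intro hh
      refine ⟨g.symm h, ?_, g.apply_symm_apply h⟩
      rw [← hK, g.apply_symm_apply]
      exact hh
    · rintro ⟨h', hh', rfl⟩
      exact (hK h').2 hh'
  rw [h1, Finset.card_map]

theorem val_iso [Fintype H] {D D' : JD H} {g : Perm H} (he : ∀ h, D'.e (g h) = g (D.e h))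
    (hr : ∀ h, D'.r (g h) = g (D.r h)) (hK : ∀ h, g h ∈ D'.K ↔ h ∈ D.K)
    (hF : Rel (F D.K.card)) {u : H} (hu : u ∈ D.K) :
    val F D' (g u) ((hK u).2 hu) = val F D u hu := by
  have hc := card_iso hK
  have hF' : Rel (F D'.K.card) := by rw [hc]; exact hF
  rw [val_eq hF' (fun h => ¬ D'.onC h) (fun _ => Iff.rfl) (g u) ((hK u).2 hu) D.K.card hc]
  have h1 : (gr D (fun h => ¬ D.onC h) (fun _ => Iff.rfl) u hu D.K.card rfl).map
      (Equiv.subtypeEquiv g fun h => not_congr (onC_iso he hK h).symm) =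
      gr D' (fun h => ¬ D'.onC h) (fun _ => Iff.rfl) (g u) ((hK u).2 hu) D.K.card hc := by
    refine Gr.map_eq (fun v => Subtype.ext ?_) (fun v => Subtype.ext ?_)
      (fun i => Subtype.ext ?_)
    · exact he v
    · exact rh_iso hr hK v
    · show D'.r (D'.r ((nx D')^[i] (g u))) = g (D.r (D.r ((nx D)^[i] u)))
      rw [nx_iso he hr, hr, hr]
  rw [← h1]
  exact hF.iso _ _ _ _

/-! ### The reversal of a vertex -/

theorem val_AS [Fintype H] {D D' : JD H} {x : H} (hx : D.inner x) (he : D'.e = D.e)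
    (hK : D'.K = D.K)
    (hr : ∀ h, D'.r h = if h = x ∨ h = D.r x ∨ h = D.r (D.r x) then D.r (D.r h) else D.r h)
    (hF : Rel (F D.K.card)) {u : H} (hu : u ∈ D.K) (hu' : u ∈ D'.K) :
    val F D' u hu' = - val F D u hu := by
  have hc : D'.K.card = D.K.card := by rw [hK]
  have hF' : Rel (F D'.K.card) := by rw [hc]; exact hF
  have honC : ∀ h, D'.onC h ↔ D.onC h := fun h => by
    unfold JD.onC
    rw [he, hK]
  have hP' : ∀ h, ¬ D.onC h ↔ ¬ D'.onC h := fun h => not_congr (honC h).symm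
  rw [val_eq hF' (fun h => ¬ D.onC h) hP' u hu' D.K.card hc]
  set G := gr D (fun h => ¬ D.onC h) (fun _ => Iff.rfl) u hu D.K.card rfl with hG
  have hval : val F D u hu = F D.K.card _ G := rfl
  rw [hval]
  let x' : {h // ¬ D.onC h} := ⟨x, hx.1⟩
  have hvt : ∀ v : {h // ¬ D.onC h}, G.vt x' v ↔ D.vt x v := by
    intro v
    have e1 : (G.r x' : H) = D.r x := gr_r_inner D _ _ u hu _ rfl x' hx
    have e2 : (G.r (G.r x') : H) = D.r (D.r x) := by
      rw [hG, gr_r_inner D _ _ u hu _ rfl _ (by rw [← hG, e1]; exact D.inner_r hx), ← hG, e1]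
    unfold Gr.vt JD.vt
    rw [Subtype.ext_iff, Subtype.ext_iff, Subtype.ext_iff, e1, e2]
  have hvt' : ∀ h, D.vt x h → D.inner h := fun h => D.inner_of_vt hx
  have hr1 : ∀ h, D.vt x h → D'.r h = D.r (D.r h) := fun h hh => by
    rw [hr]
    exact if_pos hh
  have hr2 : ∀ h, ¬ D.vt x h → D'.r h = D.r h := fun h hh => by
    rw [hr]
    exact if_neg hh
  have hmem : ∀ h ∈ D.K, D'.r h = D.r h ∧ D'.r (D.r h) = D.r (D.r h) := fun h hh => by
    have h1 : ¬ D.vt x h := D.not_vt_of_mem hx hh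
    exact ⟨hr2 h h1, hr2 _ fun h2 => h1 (D.vt_r.1 h2)⟩
  have hnx : ∀ i : ℕ, (nx D')^[i] u = (nx D)^[i] u := fun i => by
    induction i with
    | zero => rfl
    | succ i ih =>
      rw [Function.iterate_succ_apply', Function.iterate_succ_apply', ih]
      show D'.e (D'.r ((nx D)^[i] u)) = D.e (D.r ((nx D)^[i] u))
      rw [(hmem _ (nx_iter_mem hu i)).1, he]
  have key : gr D' (fun h => ¬ D.onC h) hP' u hu' D.K.card hc = G.flip x' := by
    refine Gr.ext (Equiv.ext fun v => Subtype.ext ?_) (Equiv.ext fun v => Subtype.ext ?_)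
      (funext fun i => Subtype.ext ?_)
    · show D'.e v = D.e v
      rw [he]
    · rw [Gr.flip_r, gr_r]
      by_cases hv : G.vt x' v
      · rw [Gr.fr_pos hv]
        have h1 : D.vt x v := (hvt v).1 hv
        have h2 : D.inner v := hvt' _ h1
        have e1 : (G.r v : H) = D.r v := gr_r_inner D _ _ u hu _ rfl v h2
        have e2 : (G.r (G.r v) : H) = D.r (D.r v) := by
          rw [hG, gr_r_inner D _ _ u hu _ rfl _ (by rw [← hG, e1]; exact D.inner_r h2), ← hG, e1]
        rw [e2, rh_o, hr1 _ h1]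
        rw [hr1 _ h1, hK]
        exact inner_r_notMem (D.inner_r h2)
      · rw [Gr.fr_neg hv]
        have h1 : ¬ D.vt x v := fun h => hv ((hvt v).2 h)
        show rh D' v = rh D v
        unfold rh
        rw [hr2 _ h1, hK]
    · show D'.r (D'.r ((nx D')^[i] u)) = D.r (D.r ((nx D)^[i] u))
      rw [hnx, (hmem _ (nx_iter_mem hu i)).1, (hmem _ (nx_iter_mem hu i)).2]
  rw [key]
  refine hF.as _ G x' fun h => ?_
  have e1 : (G.r x' : H) = D.r x := gr_r_inner D _ _ u hu _ rfl x' hx
  rw [h] at e1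
  exact D.r1 x e1.symm

/-! ### IHX -/

theorem val_IHX [Fintype H] {I J X : JD H} (h : IHX I J X) (hF : Rel (F I.K.card)) {u : H}
    (hu : u ∈ I.K) (huJ : u ∈ J.K) (huX : u ∈ X.K) :
    val F I u hu = val F J u huJ - val F X u huX := by
  obtain ⟨x, a, b, y, c, d, hL, hy, hJ, hX⟩ := h
  obtain ⟨exy, inn, nya, nyb, ⟨i1, i2, i3, i4, i5, i6⟩, ⟨j1, j2, j3, j4, j5, j6⟩,
    ⟨x1, x2, x3, x4, x5, x6⟩, oth, eJ, eX⟩ := hL
  have hcJ : J.K.card = I.K.card := by rw [hJ]
  have hcX : X.K.card = I.K.card := by rw [hX]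
  have hFJ : Rel (F J.K.card) := by rw [hcJ]; exact hF
  have hFX : Rel (F X.K.card) := by rw [hcX]; exact hF
  have hPJ : ∀ h, ¬ I.onC h ↔ ¬ J.onC h := fun h => by
    unfold JD.onC
    rw [hJ, eJ]
  have hPX : ∀ h, ¬ I.onC h ↔ ¬ X.onC h := fun h => by
    unfold JD.onC
    rw [hX, eX]
  rw [val_eq hFJ (fun h => ¬ I.onC h) hPJ u huJ I.K.card hcJ,
    val_eq hFX (fun h => ¬ I.onC h) hPX u huX I.K.card hcX]
  -- the half-edges of the two vertices are inner
  have ia : I.inner a := i1 ▸ I.inner_r inn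
  have ib : I.inner b := i2 ▸ I.inner_r ia
  have ic : I.inner c := i4 ▸ I.inner_r hy
  have id' : I.inner d := i5 ▸ I.inner_r ic
  have nK : ∀ {h : H}, I.inner h → h ∉ I.K := fun hh h1 => hh.1 (Or.inl h1)
  have nx' := nK inn
  have na := nK ia
  have nb := nK ib
  have ny := nK hy
  have nc := nK ic
  have nd := nK id'
  have I1 : rh I x = a := by rw [rh_o (by rw [i1]; exact na), i1]
  have I2 : rh I a = b := by rw [rh_o (by rw [i2]; exact nb), i2]
  have I3 : rh I b = x := by rw [rh_o (by rw [i3]; exact nx'), i3]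
  have I4 : rh I y = c := by rw [rh_o (by rw [i4]; exact nc), i4]
  have I5 : rh I c = d := by rw [rh_o (by rw [i5]; exact nd), i5]
  have I6 : rh I d = y := by rw [rh_o (by rw [i6]; exact ny), i6]
  have J1 : rh J x = b := by rw [rh_o (by rw [j1, hJ]; exact nb), j1]
  have J2 : rh J b = c := by rw [rh_o (by rw [j2, hJ]; exact nc), j2]
  have J3 : rh J c = x := by rw [rh_o (by rw [j3, hJ]; exact nx'), j3]
  have J4 : rh J y = d := by rw [rh_o (by rw [j4, hJ]; exact nd), j4]
  have J5 : rh J d = a := by rw [rh_o (by rw [j5, hJ]; exact na), j5]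
  have J6 : rh J a = y := by rw [rh_o (by rw [j6, hJ]; exact ny), j6]
  have X1 : rh X x = a := by rw [rh_o (by rw [x1, hX]; exact na), x1]
  have X2 : rh X a = c := by rw [rh_o (by rw [x2, hX]; exact nc), x2]
  have X3 : rh X c = x := by rw [rh_o (by rw [x3, hX]; exact nx'), x3]
  have X4 : rh X y = d := by rw [rh_o (by rw [x4, hX]; exact nd), x4]
  have X5 : rh X d = b := by rw [rh_o (by rw [x5, hX]; exact nb), x5]
  have X6 : rh X b = y := by rw [rh_o (by rw [x6, hX]; exact ny), x6]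
  -- the circle is the same
  have hne : ∀ h, ¬ I.inner h → h ≠ x ∧ h ≠ a ∧ h ≠ b ∧ h ≠ y ∧ h ≠ c ∧ h ≠ d := fun h hh =>
    ⟨fun h1 => hh (h1 ▸ inn), fun h1 => hh (h1 ▸ ia), fun h1 => hh (h1 ▸ ib),
      fun h1 => hh (h1 ▸ hy), fun h1 => hh (h1 ▸ ic), fun h1 => hh (h1 ▸ id')⟩
  have hoth : ∀ h, ¬ I.inner h → J.r h = I.r h ∧ X.r h = I.r h := fun h hh => by
    obtain ⟨h1, h2, h3, h4, h5, h6⟩ := hne h hh
    exact oth h h1 h2 h3 h4 h5 h6
  have hmem : ∀ h ∈ I.K, (J.r h = I.r h ∧ X.r h = I.r h) ∧ J.r (I.r h) = I.r (I.r h) ∧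
      X.r (I.r h) = I.r (I.r h) := fun h hh =>
    ⟨hoth h (fun h1 => h1.1 (onC_mem hh)), hoth _ fun h1 => h1.1 (onC_r hh)⟩
  have hnx : ∀ i : ℕ, (nx J)^[i] u = (nx I)^[i] u ∧ (nx X)^[i] u = (nx I)^[i] u := fun i => by
    induction i with
    | zero => exact ⟨rfl, rfl⟩
    | succ i ih =>
      rw [Function.iterate_succ_apply', Function.iterate_succ_apply',
        Function.iterate_succ_apply', ih.1, ih.2]
      constructor
      · show J.e (J.r ((nx I)^[i] u)) = I.e (I.r ((nx I)^[i] u))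
        rw [(hmem _ (nx_iter_mem hu i)).1.1, eJ]
      · show X.e (X.r ((nx I)^[i] u)) = I.e (I.r ((nx I)^[i] u))
        rw [(hmem _ (nx_iter_mem hu i)).1.2, eX]
  refine hF.ihx _ (gr I (fun h => ¬ I.onC h) (fun _ => Iff.rfl) u hu I.K.card rfl)
    (gr J (fun h => ¬ I.onC h) hPJ u huJ I.K.card hcJ)
    (gr X (fun h => ¬ I.onC h) hPX u huX I.K.card hcX) ⟨x, inn.1⟩ ?_
  refine ⟨⟨?_, ?_, ?_, ?_⟩, ?_, ?_, ?_, ?_, ?_, ?_, ?_, ?_, ?_, ?_, ?_, ?_, ?_, ?_, ?_, ?_, ?_⟩
  · intro h1
    have h2 : rh I x = x := congrArg Subtype.val h1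
    rw [rh_inner inn] at h2
    exact I.r1 x h2
  · intro h1
    have h2 : rh I (I.e x) = I.e x := congrArg Subtype.val h1
    rw [exy, rh_inner hy] at h2
    exact I.r1 y h2
  · intro h1
    have h2 : I.e x = rh I x := congrArg Subtype.val h1
    rw [exy, I1] at h2
    exact nya h2
  · intro h1
    have h2 : I.e x = rh I (rh I x) := congrArg Subtype.val h1
    rw [exy, I1, I2] at h2
    exact nyb h2
  · refine Subtype.ext ?_
    show rh J x = rh I (rh I x)
    rw [J1, I1, I2]
  · refine Subtype.ext ?_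
    show rh J (rh I (rh I x)) = rh I (I.e x)
    rw [I1, I2, J2, exy, I4]
  · refine Subtype.ext ?_
    show rh J (rh I (I.e x)) = x
    rw [exy, I4, J3]
  · refine Subtype.ext ?_
    show rh J (I.e x) = rh I (rh I (I.e x))
    rw [exy, J4, I4, I5]
  · refine Subtype.ext ?_
    show rh J (rh I (rh I (I.e x))) = rh I x
    rw [exy, I4, I5, J5, I1]
  · refine Subtype.ext ?_
    show rh J (rh I x) = I.e x
    rw [I1, J6, exy]
  · refine Subtype.ext ?_
    show rh X x = rh I x
    rw [X1, I1]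
  · refine Subtype.ext ?_
    show rh X (rh I x) = rh I (I.e x)
    rw [I1, X2, exy, I4]
  · refine Subtype.ext ?_
    show rh X (rh I (I.e x)) = x
    rw [exy, I4, X3]
  · refine Subtype.ext ?_
    show rh X (I.e x) = rh I (rh I (I.e x))
    rw [exy, X4, I4, I5]
  · refine Subtype.ext ?_
    show rh X (rh I (rh I (I.e x))) = rh I (rh I x)
    rw [exy, I4, I5, X5, I1, I2]
  · refine Subtype.ext ?_
    show rh X (rh I (rh I x)) = I.e x
    rw [I1, I2, X6, exy]
  · intro v h1 h2
    have hv : (v : H) ≠ x ∧ (v : H) ≠ a ∧ (v : H) ≠ b ∧ (v : H) ≠ y ∧ (v : H) ≠ c ∧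
        (v : H) ≠ d := by
      refine ⟨fun h3 => h1 (Or.inl (Subtype.ext h3)), fun h3 => h1 (Or.inr (Or.inl ?_)),
        fun h3 => h1 (Or.inr (Or.inr ?_)), fun h3 => h2 (Or.inl ?_),
        fun h3 => h2 (Or.inr (Or.inl ?_)), fun h3 => h2 (Or.inr (Or.inr ?_))⟩
      · refine Subtype.ext ?_
        show (v : H) = rh I x
        rw [I1, h3]
      · refine Subtype.ext ?_
        show (v : H) = rh I (rh I x)
        rw [I1, I2, h3]
      · refine Subtype.ext ?_
        show (v : H) = I.e x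
        rw [exy, h3]
      · refine Subtype.ext ?_
        show (v : H) = rh I (I.e x)
        rw [exy, I4, h3]
      · refine Subtype.ext ?_
        show (v : H) = rh I (rh I (I.e x))
        rw [exy, I4, I5, h3]
    obtain ⟨h3, h4⟩ := oth v hv.1 hv.2.1 hv.2.2.1 hv.2.2.2.1 hv.2.2.2.2.1 hv.2.2.2.2.2
    refine ⟨Subtype.ext ?_, Subtype.ext ?_⟩
    · show rh J v = rh I v
      unfold rh
      rw [h3, hJ]
    · show rh X v = rh I v
      unfold rh
      rw [h4, hX]
  · refine Equiv.ext fun v => Subtype.ext ?_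
    show J.e v = I.e v
    rw [eJ]
  · refine Equiv.ext fun v => Subtype.ext ?_
    show X.e v = I.e v
    rw [eX]
  · refine funext fun i => Subtype.ext ?_
    show J.r (J.r ((nx J)^[i] u)) = I.r (I.r ((nx I)^[i] u))
    rw [(hnx i).1, (hmem _ (nx_iter_mem hu i)).1.1, (hmem _ (nx_iter_mem hu i)).2.1]
  · refine funext fun i => Subtype.ext ?_
    show X.r (X.r ((nx X)^[i] u)) = I.r (I.r ((nx I)^[i] u))
    rw [(hnx i).2, (hmem _ (nx_iter_mem hu i)).1.2, (hmem _ (nx_iter_mem hu i)).2.2]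

/-! ### STU -/

/-- The circle of the second and of the third diagram of STU. -/
theorem stu_walk {S W : JD H} {x a b y c d : H} (exy : S.e x = y) (inn : S.inner x)
    (i1 : S.r x = a) (i2 : S.r a = b) (i5 : S.r c = d) (hc : c ∈ S.K)
    (eW : W.e = S.e) (w1 : W.r c = x) (w2 : W.r y = d)
    (oth : ∀ h, h ≠ x → h ≠ a → h ≠ b → h ≠ y → h ≠ c → h ≠ d → W.r h = S.r h)
    {n : ℕ} (hn : S.K.card = n + 1) :
    (∀ w ∈ S.K, w ≠ c → W.r w = S.r w ∧ W.r (S.r w) = S.r (S.r w)) ∧
      ∀ i : ℕ, i < n → (nx W)^[i + 2] c = (nx S)^[i + 1] c := by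
  have ia : S.inner a := i1 ▸ S.inner_r inn
  have ib : S.inner b := i2 ▸ S.inner_r ia
  have hy : ¬ S.onC y := by
    rw [← exy, onC_e]
    exact inn.1
  have key : ∀ w ∈ S.K, w ≠ c → W.r w = S.r w ∧ W.r (S.r w) = S.r (S.r w) := by
    intro w hw hwc
    have h1 := onC_mem hw
    have h2 := onC_r hw
    have h3 : ∀ h, S.onC h → h ≠ c → h ≠ d → W.r h = S.r h := fun h hh h4 h5 =>
      oth h (fun h' => inn.1 (h' ▸ hh)) (fun h' => ia.1 (h' ▸ hh)) (fun h' => ib.1 (h' ▸ hh))
        (fun h' => hy (h' ▸ hh)) h4 h5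
    refine ⟨h3 w h1 hwc fun h' => ?_, h3 _ h2 (fun h' => ?_) fun h' => ?_⟩
    · rw [h', ← i5] at hw
      exact S.out_notMem hc hw
    · exact S.out_notMem hw (h' ▸ hc)
    · rw [← i5] at h'
      exact hwc (S.r_inj h')
  refine ⟨key, fun i => ?_⟩
  induction i with
  | zero =>
    intro _
    show W.e (W.r (W.e (W.r c))) = S.e (S.r c)
    rw [w1, eW, exy, w2, i5]
  | succ i ih =>
    intro hi
    rw [Function.iterate_succ_apply', ih (by omega), Function.iterate_succ_apply' _ (i + 1)]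
    have h1 : (nx S)^[i + 1] c ≠ c := by
      intro h2
      have h3 := nx_iter_inj hc (i := i + 1) (j := 0) (by omega) (by omega) h2
      omega
    show W.e (W.r ((nx S)^[i + 1] c)) = S.e (S.r ((nx S)^[i + 1] c))
    rw [(key _ (nx_iter_mem hc _) h1).1, eW]

theorem val_STU [Fintype H] {S T U : JD H} {x a b y c d : H} (hL : Loc S T U x a b y c d)
    (hc : c ∈ S.K) (hT : T.K = insert y S.K) (hU : U.K = insert y S.K) {n : ℕ}
    (hn : S.K.card = n + 1) (hF : Rel (F (n + 2))) (hF' : Rel (F (n + 1)))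
    (hS : Stu (F (n + 2)) (F (n + 1))) (hcT : c ∈ T.K) (hcU : c ∈ U.K) :
    val F S c hc = val F T c hcT - val F U c hcU := by
  obtain ⟨exy, inn, nya, nyb, ⟨i1, i2, i3, i4, i5, i6⟩, ⟨t1, t2, t3, t4, t5, t6⟩,
    ⟨u1, u2, u3, u4, u5, u6⟩, oth, eT, eU⟩ := hL
  have ia : S.inner a := i1 ▸ S.inner_r inn
  have ib : S.inner b := i2 ▸ S.inner_r ia
  have eyx : S.e y = x := by rw [← exy, S.e2]
  have hy : ¬ S.onC y := by
    rw [← exy, onC_e]
    exact inn.1
  have hyK : y ∉ S.K := fun h => hy (onC_mem h)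
  have hcard : (insert y S.K).card = n + 2 := by rw [Finset.card_insert_of_notMem hyK, hn]
  have hTn : T.K.card = n + 2 := by rw [hT, hcard]
  have hUn : U.K.card = n + 2 := by rw [hU, hcard]
  obtain ⟨kT, wT⟩ := stu_walk exy inn i1 i2 i5 hc eT t3 t4
    (fun h h1 h2 h3 h4 h5 h6 => (oth h h1 h2 h3 h4 h5 h6).1) hn
  obtain ⟨kU, wU⟩ := stu_walk exy inn i1 i2 i5 hc eU u3 u4
    (fun h h1 h2 h3 h4 h5 h6 => (oth h h1 h2 h3 h4 h5 h6).2) hn
  -- the half-edges outside the circle
  have hon : ∀ h, ¬ T.onC h ↔ ¬ S.onC h ∧ h ≠ x ∧ h ≠ y := by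
    intro h
    have h1 : S.e h = y ↔ h = x := by
      rw [← exy]
      exact S.e.injective.eq_iff
    unfold JD.onC
    rw [hT, eT, Finset.mem_insert, Finset.mem_insert, h1]
    tauto
  have honU : ∀ h, ¬ T.onC h ↔ ¬ U.onC h := fun h => by
    unfold JD.onC
    rw [hT, hU, eT, eU]
  set P : H → Prop := fun h => ¬ T.onC h with hP
  have dy : S.r d ∉ S.K := by rw [i6]; exact hyK
  have aT : ¬ T.onC a := (hon a).2 ⟨ia.1, by rw [← i1]; exact S.r1 x, nya.symm⟩
  have bT : ¬ T.onC b := (hon b).2 ⟨ib.1, by rw [← i2, ← i1]; exact S.r2 x, nyb.symm⟩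
  have cT : T.onC c := onC_mem hcT
  have dT : T.onC d := by
    have := onC_r (D := T) (u := y) (by rw [hT]; exact Finset.mem_insert_self _ _)
    rwa [t4] at this
  have hyT : y ∈ T.K := by rw [hT]; exact Finset.mem_insert_self _ _
  have hyU : y ∈ U.K := by rw [hU]; exact Finset.mem_insert_self _ _
  -- the rest of the graph
  have rest : ∀ v, ¬ T.onC v → v ≠ a → v ≠ b → T.r v = S.r v ∧ U.r v = S.r v ∧ S.r v ≠ y := by
    intro v hv va vb
    obtain ⟨h1, h2, h3⟩ := (hon v).1 hv
    have h4 : v ≠ c := fun h => hv (h ▸ cT)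
    have h5 : v ≠ d := fun h => hv (h ▸ dT)
    obtain ⟨h6, h7⟩ := oth v h2 va vb h3 h4 h5
    refine ⟨h6, h7, fun h => h5 ?_⟩
    rw [← i6] at h
    exact S.r_inj h
  set G := gr T P (fun _ => Iff.rfl) c hcT (n + 2) hTn with hG
  have l0 : ((G.leg 0 : {h // P h}) : H) = b := by
    show T.r (T.r c) = b
    rw [t3, t1]
  have l1 : ((G.leg 1 : {h // P h}) : H) = a := by
    show T.r (T.r (T.e (T.r c))) = a
    rw [t3, eT, exy, t4, t5]
  have lT : ∀ (k : Fin (n + 2)) (i : ℕ), (k : ℕ) = i + 2 →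
      ((G.leg k : {h // P h}) : H) = S.r (S.r ((nx S)^[i + 1] c)) := by
    intro k i hk
    have hi : i < n := by
      have := k.2
      omega
    have h1 : (nx S)^[i + 1] c ≠ c := by
      intro h2
      have h3 := nx_iter_inj hc (i := i + 1) (j := 0) (by omega) (by omega) h2
      omega
    show T.r (T.r ((nx T)^[(k : ℕ)] c)) = _
    rw [hk, wT i hi, (kT _ (nx_iter_mem hc _) h1).1, (kT _ (nx_iter_mem hc _) h1).2]
  -- the third diagram
  have eqU : gr U P honU c hcU (n + 2) hUn = s (0 : Fin (n + 1)) • G := by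
    refine Gr.ext (Equiv.ext fun v => Subtype.ext ?_) (Equiv.ext fun v => Subtype.ext ?_)
      (funext fun k => Subtype.ext ?_)
    · show U.e v = T.e v
      rw [eT, eU]
    · show rh U v = rh T v
      by_cases va : (v : H) = a
      · rw [va, rh_slot (by rw [u2]; exact hcU), rh_slot (by rw [t6]; exact hyT)]
      by_cases vb : (v : H) = b
      · rw [vb, rh_slot (by rw [u6]; exact hyU), rh_slot (by rw [t2]; exact hcT)]
      obtain ⟨h1, h2, h3⟩ := rest v v.2 va vb
      unfold rh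
      rw [h1, h2, hT, hU]
    · rw [Gr.s_smul_leg]
      by_cases k0 : k = 0
      · subst k0
        have h1 : s (0 : Fin (n + 1)) 0 = 1 := s_castSucc 0
        rw [h1, l1]
        show U.r (U.r c) = a
        rw [u3, u1]
      by_cases k1 : k = 1
      · subst k1
        have h1 : s (0 : Fin (n + 1)) 1 = 0 := s_succ 0
        rw [h1, l0]
        show U.r (U.r (U.e (U.r c))) = b
        rw [u3, eU, exy, u4, u5]
      have h1 : s (0 : Fin (n + 1)) k = k := Equiv.swap_apply_of_ne_of_ne k0 k1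
      rw [h1]
      have k0' : (k : ℕ) ≠ 0 := fun h => k0 (Fin.ext h)
      have k1' : (k : ℕ) ≠ 1 := fun h => k1 (Fin.ext h)
      obtain ⟨i, hi⟩ : ∃ i, (k : ℕ) = i + 2 := ⟨k - 2, by omega⟩
      have hi' : i < n := by
        have := k.2
        omega
      have h2 : (nx S)^[i + 1] c ≠ c := by
        intro h2
        have h3 := nx_iter_inj hc (i := i + 1) (j := 0) (by omega) (by omega) h2
        omega
      rw [lT k i hi]
      show U.r (U.r ((nx U)^[(k : ℕ)] c)) = _
      rw [hi, wU i hi', (kU _ (nx_iter_mem hc _) h2).1, (kU _ (nx_iter_mem hc _) h2).2]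
  -- the first diagram
  let f : {h // P h} ⊕ Bool → {h // ¬ S.onC h}
    | Sum.inl v => ⟨v, ((hon v).1 v.2).1⟩
    | Sum.inr false => ⟨x, inn.1⟩
    | Sum.inr true => ⟨y, hy⟩
  have hyx : y ≠ x := by
    rw [← exy]
    exact S.e1 x
  have hf : Function.Bijective f := by
    constructor
    · rintro (v | t) (w | t') h
      · have h1 : (f (Sum.inl v) : H) = f (Sum.inl w) := congrArg Subtype.val h
        exact congrArg Sum.inl (Subtype.ext h1)
      · exfalso
        have h1 := congrArg Subtype.val h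
        cases t'
        · exact ((hon v).1 v.2).2.1 h1
        · exact ((hon v).1 v.2).2.2 h1
      · exfalso
        have h1 := congrArg Subtype.val h
        cases t
        · exact ((hon w).1 w.2).2.1 h1.symm
        · exact ((hon w).1 w.2).2.2 h1.symm
      · have h1 := congrArg Subtype.val h
        cases t <;> cases t'
        · rfl
        · exact absurd h1.symm hyx
        · exact absurd h1 hyx
        · rfl
    · intro w
      by_cases h1 : (w : H) = x
      · exact ⟨Sum.inr false, Subtype.ext h1.symm⟩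
      by_cases h2 : (w : H) = y
      · exact ⟨Sum.inr true, Subtype.ext h2.symm⟩
      exact ⟨Sum.inl ⟨w, (hon w).2 ⟨w.2, h1, h2⟩⟩, rfl⟩
  have p0 : G.leg (0 : Fin (n + 1)).castSucc = G.leg 0 := rfl
  have p1 : G.leg (0 : Fin (n + 1)).succ = G.leg 1 := rfl
  have eqS : (G.mg 0).map (Equiv.ofBijective f hf) =
      gr S (fun h => ¬ S.onC h) (fun _ => Iff.rfl) c hc (n + 1) hn := by
    refine Gr.map_eq (fun v => Subtype.ext ?_) (fun v => Subtype.ext ?_)
      (fun k => Subtype.ext ?_)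
    · rcases v with v | t
      · show S.e v = T.e v
        rw [eT]
      · cases t
        · exact exy
        · exact eyx
    · rcases v with v | t
      · by_cases v0 : v = G.leg 0
        · have h1 : (G.mg 0).r (Sum.inl v) = Sum.inr false := by
            rw [v0]
            exact G.mg_r_p 0
          rw [h1]
          show rh S v = x
          rw [v0, l0, rh_inner ib, i3]
        by_cases v1 : v = G.leg 1
        · have h1 : (G.mg 0).r (Sum.inl v) = Sum.inl (G.leg 0) := by
            rw [v1]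
            exact G.mg_r_q 0
          rw [h1]
          show rh S v = G.leg 0
          rw [v1, l0, l1, rh_inner ia, i2]
        have h1 : (G.mg 0).r (Sum.inl v) = Sum.inl (G.r v) := G.mg_r_o 0 v0 v1
        rw [h1]
        show rh S v = rh T v
        have vb : (v : H) ≠ b := fun h => v0 (Subtype.ext (h.trans l0.symm))
        have va : (v : H) ≠ a := fun h => v1 (Subtype.ext (h.trans l1.symm))
        obtain ⟨h2, _, h3⟩ := rest v v.2 va vb
        unfold rh
        rw [h2, hT]
        have h4 : S.r (v : H) ∈ insert y S.K ↔ S.r (v : H) ∈ S.K := by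
          rw [Finset.mem_insert]
          exact ⟨fun h => h.resolve_left h3, Or.inr⟩
        simp only [h4]
      · cases t
        · show rh S x = G.leg 1
          rw [l1, rh_inner inn, i1]
        · show rh S y = y
          exact rh_slot (by rw [i4]; exact hc)
    · show S.r (S.r ((nx S)^[(k : ℕ)] c)) = f (G.mgL 0 k)
      by_cases k0 : k = 0
      · subst k0
        rw [G.mgL_self]
        show S.r (S.r c) = y
        rw [i5, i6]
      · have hk : (0 : Fin (n + 1)) < k := Fin.pos_of_ne_zero k0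
        have k0' : (k : ℕ) ≠ 0 := fun h => k0 (Fin.ext h)
        rw [G.mgL_gt hk]
        show S.r (S.r ((nx S)^[(k : ℕ)] c)) = G.leg k.succ
        rw [lT k.succ (k - 1) (by rw [Fin.val_succ]; omega)]
        congr 4
        omega
  have hST : Rel (F S.K.card) := by rw [hn]; exact hF'
  have hTT : Rel (F T.K.card) := by rw [hTn]; exact hF
  have hUU : Rel (F U.K.card) := by rw [hUn]; exact hF
  rw [val_eq hST (fun h => ¬ S.onC h) (fun _ => Iff.rfl) c hc (n + 1) hn,
    val_eq hTT P (fun _ => Iff.rfl) c hcT (n + 2) hTn, val_eq hUU P honU c hcU (n + 2) hUn,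
    eqU, ← eqS, ← hG, hS _ G 0]
  exact hF'.iso _ _ _ _

/-! ### The homomorphism -/

open Classical in
/-- The value on a diagram. -/
noncomputable def vl (F : (n : ℕ) → (V : Type) → Gr V n → M) (D : JD H) : M :=
  if h : D.K.Nonempty then val F D h.choose h.choose_spec else 0

/-- **A family of functionals on based graphs which satisfies AS, IHX, STU and is invariant under
the rotation of the legs gives a homomorphism on the space of Jacobi diagrams.** -/
theorem exists_hom [Fintype H] (F : (n : ℕ) → (V : Type) → Gr V n → M) (N : ℕ)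
    (hN : Fintype.card H ≤ 3 * N) (hF : ∀ n ≤ N, Rel (F n)) (hS : ∀ n < N, Stu (F (n + 1)) (F n))
    (hR : ∀ n < N, ∀ (V : Type) [Finite V] (G : Gr V (n + 1)),
      F (n + 1) V ((finRotate (n + 1) : Perm (Fin (n + 1))) • G) = F (n + 1) V G) :
    ∃ f : A H →+ M, ∀ (D : JD H) (u : H) (hu : u ∈ D.K),
      f D.cl = F D.K.card {h // ¬ D.onC h} (toGr D u hu) := by
  have hcard : ∀ D : JD H, D.K.card ≤ N := fun D => by
    have := card_le D
    omega
  have hrel : ∀ D : JD H, Rel (F D.K.card) := fun D => hF _ (hcard D)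
  have hval : ∀ (D : JD H) (u : H) (hu : u ∈ D.K), vl F D = val F D u hu := by
    intro D u hu
    have h : D.K.Nonempty := ⟨u, hu⟩
    obtain ⟨n, hn⟩ : ∃ n, D.K.card = n + 1 :=
      ⟨D.K.card - 1, by have := Finset.card_pos.2 h; omega⟩
    have hnN : n < N := by
      have := hcard D
      omega
    unfold vl
    rw [dif_pos h]
    exact val_const hn (hF _ hnN) (hR n hnN) hu _
  have hker : AddSubgroup.closure (rels H) ≤ (FreeAbelianGroup.lift (vl F)).ker := by
    rw [AddSubgroup.closure_le]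
    rintro z ((⟨D, D', ⟨g, he, hr, hK⟩, rfl⟩ | ⟨D, D', ⟨x, hx, he, hK, hr⟩, rfl⟩) |
      ⟨I, J, X, h | ⟨x, a, b, y, c, d, hL, hc, hT, hU⟩, rfl⟩)
    · rw [SetLike.mem_coe, AddMonoidHom.mem_ker, map_sub, FreeAbelianGroup.lift_apply_of,
        FreeAbelianGroup.lift_apply_of, sub_eq_zero]
      by_cases hne : D.K.Nonempty
      · obtain ⟨u, hu⟩ := hne
        rw [hval D u hu, hval D' (g u) ((hK u).2 hu)]
        exact (val_iso he hr hK (hrel D) hu).symm
      · have hne' : ¬ D'.K.Nonempty := by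
          rintro ⟨v, hv⟩
          apply hne
          refine ⟨g.symm v, ?_⟩
          rw [← hK, g.apply_symm_apply]
          exact hv
        unfold vl
        rw [dif_neg hne, dif_neg hne']
    · rw [SetLike.mem_coe, AddMonoidHom.mem_ker, map_add, FreeAbelianGroup.lift_apply_of,
        FreeAbelianGroup.lift_apply_of]
      obtain ⟨u, hu⟩ := D.ne x
      have hu' : u ∈ D'.K := by rw [hK]; exact hu
      rw [hval D u hu, hval D' u hu', val_AS hx he hK hr (hrel D) hu hu', add_neg_cancel]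
    · rw [SetLike.mem_coe, AddMonoidHom.mem_ker, map_add, map_sub, FreeAbelianGroup.lift_apply_of,
        FreeAbelianGroup.lift_apply_of, FreeAbelianGroup.lift_apply_of]
      obtain ⟨x, a, b, y, c, d, hL, hy, hJ, hX⟩ := id h
      obtain ⟨u, hu⟩ := I.ne x
      have huJ : u ∈ J.K := by rw [hJ]; exact hu
      have huX : u ∈ X.K := by rw [hX]; exact hu
      rw [hval I u hu, hval J u huJ, hval X u huX, val_IHX h (hrel I) hu huJ huX]
      abel
    · rw [SetLike.mem_coe, AddMonoidHom.mem_ker, map_add, map_sub, FreeAbelianGroup.lift_apply_of,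
        FreeAbelianGroup.lift_apply_of, FreeAbelianGroup.lift_apply_of]
      have hcJ : c ∈ J.K := by rw [hT]; exact Finset.mem_insert_of_mem hc
      have hcX : c ∈ X.K := by rw [hU]; exact Finset.mem_insert_of_mem hc
      obtain ⟨n, hn⟩ : ∃ n, I.K.card = n + 1 :=
        ⟨I.K.card - 1, by have := Finset.card_pos.2 ⟨c, hc⟩; omega⟩
      have hy : y ∉ I.K := fun h1 => by
        have h2 := I.leg c hc
        have h3 : I.r (I.r c) = y := by rw [hL.i1.2.2.2.2.1, hL.i1.2.2.2.2.2]
        rw [h3] at h2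
        exact h2.1 h1
      have hnN : n + 1 < N := by
        have h1 := hcard J
        rw [hT, Finset.card_insert_of_notMem hy, hn] at h1
        omega
      rw [hval I c hc, hval J c hcJ, hval X c hcX,
        val_STU hL hc hT hU hn (hF _ hnN) (hF _ hnN.le) (hS _ hnN) hcJ hcX]
      abel
  refine ⟨QuotientAddGroup.lift _ (FreeAbelianGroup.lift (vl F)) hker, fun D u hu => ?_⟩
  have h1 : QuotientAddGroup.lift _ (FreeAbelianGroup.lift (vl F)) hker D.cl = vl F D := by
    unfold JD.cl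
    rw [QuotientAddGroup.lift_mk, FreeAbelianGroup.lift_apply_of]
  rw [h1, hval D u hu]
  rfl

end

end Pool.Agent.SWT84
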