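import Pool.Agent.SWT49.Rim
import Pool.Agent.SWT93.Even

/-!
# The standard wheel
-/

set_option autoImplicit false

namespace Pool.Agent.SWT84

open Equiv Pool.Agent.SWT49 Pool.Agent.SWT80 Pool.Agent.SWT93

/-- The half-edges of the standard wheel: the three half-edges of the vertices, and the legs. -/
abbrev WT (m : ℕ) : Type := (Fin (m + 1) × Fin 3) ⊕ Fin (m + 1)

/-- The other half of the edge. -/
def we (m : ℕ) : WT m → WT m
  | Sum.inl (i, 0) => Sum.inr i
  | Sum.inl (i, 1) => Sum.inl (finRotate (m + 1) i, 2)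
  | Sum.inl (i, 2) => Sum.inl ((finRotate (m + 1)).symm i, 1)
  | Sum.inr i => Sum.inl (i, 0)

/-- The cyclic orders. -/
def wr (m : ℕ) : WT m → WT m
  | Sum.inl (i, 0) => Sum.inl (i, 1)
  | Sum.inl (i, 1) => Sum.inl (i, 2)
  | Sum.inl (i, 2) => Sum.inl (i, 0)
  | Sum.inr i => Sum.inr i

theorem we_we (m : ℕ) (v : WT m) : we m (we m v) = v := by
  rcases v with ⟨i, k⟩ | i
  · fin_cases k
    · rfl
    · show Sum.inl ((finRotate (m + 1)).symm (finRotate (m + 1) i), 1) = _
      rw [Equiv.symm_apply_apply]
      rfl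
    · show Sum.inl (finRotate (m + 1) ((finRotate (m + 1)).symm i), 2) = _
      rw [Equiv.apply_symm_apply]
      rfl
  · rfl

theorem wr3 (m : ℕ) (v : WT m) : wr m (wr m (wr m v)) = v := by
  rcases v with ⟨i, k⟩ | i
  · fin_cases k <;> rfl
  · rfl

/-- The standard wheel. -/
def W0 (m : ℕ) : Gr (WT m) (m + 1) where
  e := ⟨we m, we m, we_we m, we_we m⟩
  r := ⟨wr m, fun v => wr m (wr m v), wr3 m, wr3 m⟩
  leg := Sum.inr
  e2 := we_we m
  e1 := by
    rintro (⟨i, k⟩ | i) h
    · fin_cases k
      · exact absurd (show Sum.inr i = (Sum.inl (i, 0) : WT m) from h) (by simp)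
      · have h' : (Sum.inl (finRotate (m + 1) i, 2) : WT m) = Sum.inl (i, 1) := h
        simp at h'
      · have h' : (Sum.inl ((finRotate (m + 1)).symm i, 1) : WT m) = Sum.inl (i, 2) := h
        simp at h'
    · exact absurd (show (Sum.inl (i, 0) : WT m) = Sum.inr i from h) (by simp)
  r3 := wr3 m
  inj := Sum.inr_injective
  fix := by
    rintro (⟨i, k⟩ | i)
    · constructor
      · intro h
        exfalso
        fin_cases k
        · have h' : (Sum.inl (i, 1) : WT m) = Sum.inl (i, 0) := h
          simp at h'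
        · have h' : (Sum.inl (i, 2) : WT m) = Sum.inl (i, 1) := h
          simp at h'
        · have h' : (Sum.inl (i, 0) : WT m) = Sum.inl (i, 2) := h
          simp at h'
      · rintro ⟨j, hj⟩
        exact absurd hj (by simp)
    · exact ⟨fun _ => ⟨i, rfl⟩, fun _ => rfl⟩

theorem card_WT (m : ℕ) : Nat.card (WT m) = 4 * (m + 1) := by
  rw [Nat.card_sum, Nat.card_prod, Nat.card_fin, Nat.card_fin]
  omega

theorem noCherry_W0 (m : ℕ) (g : Perm (Fin (m + 1))) : NoCherry (g • W0 m) := by
  rintro i j ⟨_, h⟩
  have h' : (Sum.inl (g⁻¹ i, 1) : WT m) = Sum.inl (g⁻¹ j, 0) := h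
  simp at h'

theorem gconn_W0 (m : ℕ) (g : Perm (Fin (m + 1))) : GConn (g • W0 m) := by
  intro S hS hne
  have he : ∀ v, v ∈ S → we m v ∈ S := fun v hv => hS.e v hv
  have hr : ∀ v, v ∈ S → wr m v ∈ S := fun v hv => hS.r v hv
  have hv : ∀ i, (Sum.inl (i, 0) : WT m) ∈ S → ∀ k, (Sum.inl (i, k) : WT m) ∈ S := by
    intro i h k
    have h1 := hr _ h
    have h2 := hr _ h1
    fin_cases k
    · exact h
    · exact h1
    · exact h2
  have hstart : ∃ i, (Sum.inl (i, 0) : WT m) ∈ S := by
    obtain ⟨v, hv⟩ := hne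
    rcases v with ⟨i, k⟩ | i
    · refine ⟨i, ?_⟩
      have h1 := hr _ hv
      have h2 := hr _ h1
      fin_cases k
      · exact hv
      · exact h2
      · exact h1
    · exact ⟨i, he _ hv⟩
  obtain ⟨i0, hi0⟩ := hstart
  have hstep : ∀ i, (Sum.inl (i, 0) : WT m) ∈ S → (Sum.inl (finRotate (m + 1) i, 0) : WT m) ∈ S :=
    fun i h => hr _ (he _ (hv i h 1))
  have hpow : ∀ k : ℕ, (Sum.inl ((finRotate (m + 1) ^ k) i0, 0) : WT m) ∈ S := by
    intro k
    induction k with
    | zero => exact hi0
    | succ k ih =>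
      rw [pow_succ', Perm.mul_apply]
      exact hstep _ ih
  have hval : ∀ (k : ℕ) (i : Fin (m + 1)),
      ((finRotate (m + 1) ^ k) i).val = (i.val + k) % (m + 1) := by
    intro k
    induction k with
    | zero => intro i; simp [Nat.mod_eq_of_lt i.2]
    | succ k ih =>
      intro i
      rw [pow_succ', Perm.mul_apply, c_val, ih, Nat.mod_add_mod]
      congr 1
  have hall : ∀ i, (Sum.inl (i, 0) : WT m) ∈ S := by
    intro i
    have h1 : (finRotate (m + 1) ^ (i.val + (m + 1) - i0.val)) i0 = i := by
      apply Fin.ext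
      rw [hval]
      have h2 := i0.2
      have h3 : i0.val + (i.val + (m + 1) - i0.val) = i.val + (m + 1) := by omega
      rw [h3, Nat.add_mod_right, Nat.mod_eq_of_lt i.2]
    rw [← h1]
    exact hpow _
  ext v
  refine ⟨fun _ => trivial, fun _ => ?_⟩
  rcases v with ⟨i, k⟩ | i
  · exact hv i (hall i) k
  · exact he _ (hall i)

/-- A wheel all of whose vertices are well oriented is the standard wheel. -/
theorem eq_W0 {V : Type} {m : ℕ} {G : Gr V (m + 1)} (hp : Function.Bijective (psi G))
    (h : ∀ i, G.e (G.r (xe G i)) = G.r (G.r (xe G (finRotate (m + 1) i)))) :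
    (W0 m).map (Equiv.ofBijective _ hp) = G := by
  refine Gr.map_eq ?_ ?_ ?_
  · rintro (⟨i, k⟩ | i)
    · fin_cases k
      · exact e_xe G i
      · exact h i
      · show G.e (G.r (G.r (xe G i))) = G.r (xe G ((finRotate (m + 1)).symm i))
        have h1 := h ((finRotate (m + 1)).symm i)
        rw [Equiv.apply_symm_apply] at h1
        rw [← h1, G.e2]
    · rfl
  · rintro (⟨i, k⟩ | i)
    · fin_cases k
      · rfl
      · rfl
      · exact G.r3 _
    · exact G.r_leg i
  · intro i
    rfl

/-- **Induction on wheels.** -/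
theorem wheel_ind {m : ℕ} {P : (V : Type) → Gr V (m + 1) → Prop} (h3 : 3 ≤ m + 1)
    (hmap : ∀ (V W : Type) [Finite V] (f : V ≃ W) (G : Gr V (m + 1)), GConn G → NoCherry G →
      Nat.card V = 4 * (m + 1) → P V G → P W (G.map f))
    (hflip : ∀ (V : Type) [Finite V] (G : Gr V (m + 1)) (x : V), GConn G → NoCherry G →
      Nat.card V = 4 * (m + 1) → G.r x ≠ x → P V (G.flip x) → P V G)
    (h0 : ∀ g : Perm (Fin (m + 1)), P (WT m) (g • W0 m))
    {V : Type} [Finite V] {G : Gr V (m + 1)} (hG : GConn G) (hno : NoCherry G)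
    (hV : Nat.card V = 4 * (m + 1)) : P V G := by
  classical
  obtain ⟨g, hg⟩ := exists_rim G hG h3 hV hno
  have key : ∀ (S : Finset (Fin (m + 1))) (G : Gr V (m + 1)), GConn G → NoCherry G → Rim G →
      (∀ i ∉ S, G.e (G.r (xe G i)) = G.r (xe G (finRotate (m + 1) i)) ∨
        G.e (G.r (xe G i)) = G.r (G.r (xe G (finRotate (m + 1) i)))) → P V (g⁻¹ • G) := by
    intro S
    induction S using Finset.induction_on with
    | empty =>
      intro G hG hno _ hS
      have hp := psi_bij G hG h3 hV hno
      have h : ∀ i, G.e (G.r (xe G i)) = G.r (G.r (xe G (finRotate (m + 1) i))) := by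
        intro i
        rcases hS i (Finset.notMem_empty _) with h1 | h1
        · exfalso
          have h2 : G.e (G.r (xe G (finRotate (m + 1) i))) = G.r (xe G i) := by rw [← h1, G.e2]
          rcases hS (finRotate (m + 1) i) (Finset.notMem_empty _) with h4 | h4
          · rw [h2] at h4
            have h5 : (i : Fin (m + 1)) = finRotate (m + 1) (finRotate (m + 1) i) := by
              have := @hp.1 (Sum.inl (i, 1))
                (Sum.inl (finRotate (m + 1) (finRotate (m + 1) i), 1)) h4
              simpa using this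
            exact c_ne h3 i h5.symm
          · rw [h2] at h4
            have := @hp.1 (Sum.inl (i, 1))
                (Sum.inl (finRotate (m + 1) (finRotate (m + 1) i), 2)) h4
            simp at this
        · exact h1
      have h1 := eq_W0 hp h
      have h2 : g⁻¹ • G = (g⁻¹ • W0 m).map (Equiv.ofBijective _ hp) := by
        rw [← Gr.smul_map, h1]
      rw [h2]
      exact hmap _ _ _ _ (gconn_W0 m _) (noCherry_W0 m _) (card_WT m) (h0 _)
    | insert a S ha ih =>
      intro G hG hno hR hS
      have hin := leg_inner G hG h3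
      by_cases hok : G.e (G.r (xe G a)) = G.r (xe G (finRotate (m + 1) a)) ∨
        G.e (G.r (xe G a)) = G.r (G.r (xe G (finRotate (m + 1) a)))
      · refine ih G hG hno hR fun i hi => ?_
        by_cases hia : i = a
        · rw [hia]
          exact hok
        · exact hS i (by simp [hia, hi])
      · have hp := psi_bij G hG h3 hV hno
        have hy := hR a
        obtain ⟨y, hy1, hy2⟩ := hy
        have hy3 : y = G.r (G.r (xe G a)) := by
          rcases hy1 with h | h
          · rw [h] at hy2
            exact absurd hy2 hok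
          · exact h
        rw [hy3] at hy2
        have hnvt : ∀ j, j ≠ a → ¬ G.vt (xe G a) (xe G j) := by
          rintro j hj (h | h | h)
          · exact hj (xe_inj G h)
          · have := @hp.1 (Sum.inl (j, 0)) (Sum.inl (a, 1)) h
            simp at this
          · have := @hp.1 (Sum.inl (j, 0)) (Sum.inl (a, 2)) h
            simp at this
        have hr1 : ∀ j, j ≠ a → (G.flip (xe G a)).r (xe G j) = G.r (xe G j) := fun j hj =>
          Gr.fr_neg (hnvt j hj)
        have hr2 : ∀ j, j ≠ a → (G.flip (xe G a)).r (G.r (xe G j)) = G.r (G.r (xe G j)) :=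
          fun j hj => Gr.fr_neg fun h => hnvt j hj (G.vt_r.1 h)
        have hr3 : (G.flip (xe G a)).r (xe G a) = G.r (G.r (xe G a)) :=
          Gr.fr_pos (Or.inl rfl)
        have hr4 : (G.flip (xe G a)).r (G.r (G.r (xe G a))) = G.r (xe G a) := by
          have h : G.vt (xe G a) (G.r (G.r (xe G a))) := Or.inr (Or.inr rfl)
          rw [Gr.flip_r, Gr.fr_pos h, G.r3]
        have hpair : ∀ j, (G.flip (xe G a)).r (xe G j) = G.r (xe G j) ∧
            (G.flip (xe G a)).r ((G.flip (xe G a)).r (xe G j)) = G.r (G.r (xe G j)) ∨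
            (G.flip (xe G a)).r (xe G j) = G.r (G.r (xe G j)) ∧
            (G.flip (xe G a)).r ((G.flip (xe G a)).r (xe G j)) = G.r (xe G j) := by
          intro j
          by_cases hj : j = a
          · right
            rw [hj, hr3, hr4]
            exact ⟨rfl, rfl⟩
          · left
            rw [hr1 j hj, hr2 j hj]
            exact ⟨rfl, rfl⟩
        have hmem : ∀ (j : Fin (m + 1)) (z : V), (z = G.r (xe G j) ∨ z = G.r (G.r (xe G j))) →
            (z = (G.flip (xe G a)).r (xe G j) ∨
              z = (G.flip (xe G a)).r ((G.flip (xe G a)).r (xe G j))) := by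
          intro j z hz
          rcases hpair j with ⟨h1, h2⟩ | ⟨h1, h2⟩
          · rw [h2, h1]
            exact hz
          · rw [h2, h1]
            exact hz.symm
        have hfl := ih (G.flip (xe G a)) (gconn_flip.2 hG) (nocherry_flip hno)
          ((rim_flip G _).2 hR) (by
          intro i hi
          show G.e ((G.flip (xe G a)).r (xe G i)) =
            (G.flip (xe G a)).r (xe G (finRotate (m + 1) i)) ∨
            G.e ((G.flip (xe G a)).r (xe G i)) =
            (G.flip (xe G a)).r ((G.flip (xe G a)).r (xe G (finRotate (m + 1) i)))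
          apply hmem
          by_cases hia : i = a
          · rw [hia, hr3]
            exact hy2
          · rw [hr1 i hia]
            exact hS i (by simp [hia, hi]))
        exact hflip V (g⁻¹ • G) (xe G a) ((gconn_smul _).2 hG) ((nocherry_smul _).2 hno) hV
          (hin a) hfl
  have h1 := key Finset.univ (g • G) ((gconn_smul _).2 hG) ((nocherry_smul _).2 hno) hg
    (fun i hi => absurd (Finset.mem_univ _) hi)
  rw [← mul_smul, inv_mul_cancel, one_smul] at h1
  exact h1

end Pool.Agent.SWT84
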