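import Pool.Agent.SWT84.Gln
import Pool.Agent.SWT84.Whl
import Pool.Agent.SWT58.Rep

/-!
# The state sums of `gl(n)` on the standard wheel with `n` legs
-/

set_option autoImplicit false

namespace Pool.Agent.SWT84

open Equiv Pool.Agent.SWT49 Pool.Agent.SWT80 Pool.Agent.SWT45 Pool.Agent.SWT93
open scoped Classical

variable {V : Type} {n k m : ℕ}

/-! ### Permutations of the legs -/

theorem al_smul (w : Fin n → Fin k × Fin k) (g : Perm (Fin n)) (G : Gr V n) :
    AL w (g • G) = AL (fun j => w (g j)) G := by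
  funext v l
  apply propext
  constructor
  · intro h i
    have h1 := h (g i)
    have h2 : (g • G).leg (g i) = G.leg i := by
      show G.leg (g.symm (g i)) = _
      rw [Equiv.symm_apply_apply]
    have h3 : xe (g • G) (g i) = xe G i := by
      show G.e ((g • G).leg (g i)) = _
      rw [h2]
      rfl
    rw [h2, h3] at h1
    exact h1
  · intro h i
    have h1 := h (g.symm i)
    have h4 : (fun j => w (g j)) (g.symm i) = w i := congrArg w (g.apply_symm_apply i)
    rw [h4] at h1
    exact h1

theorem ZF_smul (w : Fin n → Fin k × Fin k) (g : Perm (Fin n)) (G : Gr V n) :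
    ZF w V (g • G) = ZF (fun j => w (g j)) V G := by
  unfold ZF
  rw [al_smul]
  rfl

/-! ### The states of the standard wheel -/

/-- The labels `(a i, a i + 1)`. -/
def wl (a : Fin (m + 1) → Fin (m + 1)) (i : Fin (m + 1)) : Fin (m + 1) × Fin (m + 1) :=
  (a i, finRotate (m + 1) (a i))

/-- The state with given labels on the rim. -/
def stw (a : Fin (m + 1) → Fin (m + 1)) (u : Fin (m + 1) → Fin (m + 1) × Fin (m + 1)) :
    WT m → Fin (m + 1) × Fin (m + 1)
  | Sum.inl (i, 0) => wl a i
  | Sum.inl (i, 1) => u i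
  | Sum.inl (i, 2) => ((u ((finRotate (m + 1)).symm i)).2, (u ((finRotate (m + 1)).symm i)).1)
  | Sum.inr i => ((wl a i).2, (wl a i).1)

theorem isSt_stw (a : Fin (m + 1) → Fin (m + 1)) (u : Fin (m + 1) → Fin (m + 1) × Fin (m + 1)) :
    IsSt (gln (m + 1)) (W0 m) (AL (wl a) (W0 m)) (stw a u) := by
  constructor
  · rintro (⟨i, k⟩ | i) j
    · constructor
      · intro h
        exact absurd (show (Sum.inl (i, k) : WT m) = Sum.inr j from h) (by simp)
      · intro h
        have h' : (Sum.inl (i, k) : WT m) = Sum.inl (j, 0) := h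
        have h1 : i = j ∧ k = 0 := by simpa using h'
        obtain ⟨rfl, rfl⟩ := h1
        rfl
    · constructor
      · intro h
        have h' : (Sum.inr i : WT m) = Sum.inr j := h
        have h1 : i = j := by simpa using h'
        rw [h1]
        rfl
      · intro h
        exact absurd (show (Sum.inr i : WT m) = Sum.inl (j, 0) from h) (by simp)
  · rintro (⟨i, k⟩ | i)
    · fin_cases k
      · rfl
      · show ((u ((finRotate (m + 1)).symm (finRotate (m + 1) i))).2,
          (u ((finRotate (m + 1)).symm (finRotate (m + 1) i))).1) = ((u i).2, (u i).1)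
        rw [Equiv.symm_apply_apply]
      · rfl
    · rfl

theorem eq_stw {a : Fin (m + 1) → Fin (m + 1)} {s : WT m → Fin (m + 1) × Fin (m + 1)}
    (h : IsSt (gln (m + 1)) (W0 m) (AL (wl a) (W0 m)) s) :
    s = stw a fun i => s (Sum.inl (i, 1)) := by
  obtain ⟨h1, h2⟩ := h
  funext v
  rcases v with ⟨i, k⟩ | i
  · fin_cases k
    · exact ((h1 (Sum.inl (i, 0)) i).2 rfl)
    · rfl
    · have h3 := h2 (Sum.inl ((finRotate (m + 1)).symm i, 1))
      have h4 : (W0 m).e (Sum.inl ((finRotate (m + 1)).symm i, 1)) = Sum.inl (i, 2) := by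
        show Sum.inl (finRotate (m + 1) ((finRotate (m + 1)).symm i), 2) = _
        rw [Equiv.apply_symm_apply]
      rw [h4] at h3
      exact h3
  · exact ((h1 (Sum.inr i) i).1 rfl)

theorem sg_zero [Fintype V] (e r : Perm V) : sg e r (fun _ => false) (fun _ => false) = 1 := by
  have h : ∃ κ, IsK e r (fun _ => false) (fun _ => false) κ :=
    ⟨1, fun _ _ => rfl, fun _ h => absurd h Bool.false_ne_true⟩
  unfold sg
  rw [dif_pos h]
  have h1 : h.choose = 1 := Equiv.ext fun v => h.choose_spec.fix v rfl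
  rw [h1, Perm.sign_one]
  rfl

theorem isRep_W0 : IsRep (W0 m).r
    (Finset.univ.image fun i : Fin (m + 1) => (Sum.inl (i, 0) : WT m)) := by
  have hm : ∀ v : WT m, v ∈ (Finset.univ.image fun i : Fin (m + 1) => (Sum.inl (i, 0) : WT m)) ↔
      ∃ i, (Sum.inl (i, 0) : WT m) = v := by
    intro v
    rw [Finset.mem_image]
    exact ⟨fun ⟨i, _, h⟩ => ⟨i, h⟩, fun ⟨i, h⟩ => ⟨i, Finset.mem_univ _, h⟩⟩
  refine ⟨?_, ?_, ?_⟩
  · intro v hv
    obtain ⟨i, rfl⟩ := (hm v).1 hv
    intro h
    have h' : (Sum.inl (i, 1) : WT m) = Sum.inl (i, 0) := h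
    simp at h'
  · rintro (⟨i, k⟩ | i) hv
    · fin_cases k
      · exact Or.inl ((hm _).2 ⟨i, rfl⟩)
      · exact Or.inr (Or.inr ((hm _).2 ⟨i, rfl⟩))
      · exact Or.inr (Or.inl ((hm _).2 ⟨i, rfl⟩))
    · exact absurd rfl hv
  · intro v hv
    obtain ⟨i, rfl⟩ := (hm v).1 hv
    constructor
    · intro h
      obtain ⟨j, hj⟩ := (hm _).1 h
      have h' : (Sum.inl (j, 0) : WT m) = Sum.inl (i, 1) := hj
      simp at h'
    · intro h
      obtain ⟨j, hj⟩ := (hm _).1 h
      have h' : (Sum.inl (j, 0) : WT m) = Sum.inl (i, 2) := hj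
      simp at h'

theorem wt_stw (a : Fin (m + 1) → Fin (m + 1)) (u : Fin (m + 1) → Fin (m + 1) × Fin (m + 1)) :
    wt (gln (m + 1)) (W0 m) (stw a u) =
      ∏ i, gT (wl a i) (u i)
        ((u ((finRotate (m + 1)).symm i)).2, (u ((finRotate (m + 1)).symm i)).1) := by
  unfold wt
  have h1 : sg (W0 m).e (W0 m).r (fun v => (gln (m + 1)).odd (stw a u v))
      (fun v => (gln (m + 1)).pos (stw a u v)) = 1 := sg_zero _ _
  rw [h1, one_mul, SWT58.vp_eq (W0 m).r3 isRep_W0 (fun v => T_inv (gln_ok _) (W0 m) (stw a u) v),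
    Finset.prod_image]
  · rfl
  · intro i _ j _ h
    have h' : (Sum.inl (i, 0) : WT m) = Sum.inl (j, 0) := h
    simpa using h'

theorem Z_sum {U L : Type} [Fintype V] [Fintype U] [Fintype L] (S : LS L) (G : Gr V n)
    (A : V → L → Prop) (st : U → V → L) (hi : Function.Injective st)
    (h1 : ∀ u, IsSt S G A (st u)) (h2 : ∀ s, IsSt S G A s → ∃ u, st u = s) :
    Z S G A = ∑ u, wt S G (st u) := by
  unfold Z
  symm
  refine Finset.sum_bij (fun u _ => st u) ?_ ?_ ?_ ?_
  · intro u _
    exact Finset.mem_filter.2 ⟨Finset.mem_univ _, h1 u⟩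
  · intro u _ u' _ h
    exact hi h
  · intro s hs
    obtain ⟨u, hu⟩ := h2 s (Finset.mem_filter.1 hs).2
    exact ⟨u, Finset.mem_univ _, hu⟩
  · intro u _
    rfl

theorem Z_W0 (a : Fin (m + 1) → Fin (m + 1)) : Z (gln (m + 1)) (W0 m) (AL (wl a) (W0 m)) =
    ∑ u : Fin (m + 1) → Fin (m + 1) × Fin (m + 1), ∏ i, gT (wl a i) (u i)
        ((u ((finRotate (m + 1)).symm i)).2, (u ((finRotate (m + 1)).symm i)).1) := by
  rw [Z_sum (gln (m + 1)) (W0 m) _ (stw a) ?_ (isSt_stw a) fun s hs => ⟨_, (eq_stw hs).symm⟩]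
  · exact Finset.sum_congr rfl fun u _ => wt_stw a u
  · intro u u' h
    funext i
    exact congrFun h (Sum.inl (i, 1))

/-! ### The sum over the labels of the rim -/

theorem const_of {A : Type} {f : Fin (m + 1) → A} (h : ∀ i, f (finRotate (m + 1) i) = f i)
    (i : Fin (m + 1)) : f i = f 0 := by
  refine Fin.induction (motive := fun i => f i = f 0) rfl (fun i ih => ?_) i
  have h1 : finRotate (m + 1) i.castSucc = i.succ := by
    apply Fin.ext
    rw [c_val]
    have h2 := i.2
    rw [Fin.val_castSucc, Fin.val_succ, Nat.mod_eq_of_lt (by omega)]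
  rw [← h1, h]
  exact ih

theorem mixed {t : Finset (Fin (m + 1))} {p : Fin (m + 1) → Fin (m + 1)}
    (h1 : ∀ i ∈ t, p (finRotate (m + 1) i) = finRotate (m + 1) (p i))
    (h2 : ∀ i ∉ t, p (finRotate (m + 1) i) = p i) : t = ∅ ∨ t = Finset.univ := by
  have h3 : ∀ i, ((p (finRotate (m + 1) i)).val : ZMod (m + 1)) =
      (p i).val + (if i ∈ t then 1 else 0) := by
    intro i
    by_cases hi : i ∈ t
    · rw [h1 i hi, if_pos hi, c_val, ZMod.natCast_mod]
      push_cast
      ring
    · rw [h2 i hi, if_neg hi, add_zero]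
  have h4 : ∑ i, ((p (finRotate (m + 1) i)).val : ZMod (m + 1)) =
      ∑ i, ((p i).val : ZMod (m + 1)) :=
    Equiv.sum_comp (finRotate (m + 1)) fun i => ((p i).val : ZMod (m + 1))
  rw [Finset.sum_congr rfl fun i _ => h3 i, Finset.sum_add_distrib] at h4
  have h5 : ∑ i : Fin (m + 1), (if i ∈ t then (1 : ZMod (m + 1)) else 0) = 0 := by
    simpa using h4
  rw [Finset.sum_ite_mem, Finset.univ_inter, Finset.sum_const, nsmul_eq_mul, mul_one,
    ZMod.natCast_eq_zero_iff] at h5
  have h6 : t.card ≤ m + 1 := by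
    have := Finset.card_le_univ t
    rwa [Fintype.card_fin] at this
  rcases Nat.eq_zero_or_pos t.card with h7 | h7
  · exact Or.inl (Finset.card_eq_zero.1 h7)
  · right
    have h8 := Nat.le_of_dvd h7 h5
    apply Finset.eq_univ_of_card
    rw [Fintype.card_fin]
    omega

/-- The factor `1` at the vertex `i`. -/
def Al1 (a : Fin (m + 1) → Fin (m + 1)) (u : Fin (m + 1) → Fin (m + 1) × Fin (m + 1))
    (i : Fin (m + 1)) : Prop :=
  finRotate (m + 1) (a i) = (u i).1 ∧ (u i).2 = (u ((finRotate (m + 1)).symm i)).2 ∧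
    (u ((finRotate (m + 1)).symm i)).1 = a i

/-- The factor `-1` at the vertex `i`. -/
def Be1 (a : Fin (m + 1) → Fin (m + 1)) (u : Fin (m + 1) → Fin (m + 1) × Fin (m + 1))
    (i : Fin (m + 1)) : Prop :=
  finRotate (m + 1) (a i) = (u ((finRotate (m + 1)).symm i)).2 ∧
    (u ((finRotate (m + 1)).symm i)).1 = (u i).1 ∧ (u i).2 = a i

theorem del3 (a b c d e f : Fin k) :
    del a b * del c d * del e f = if a = b ∧ c = d ∧ e = f then 1 else 0 := by
  unfold del
  split_ifs <;> simp_all

theorem gT_eq (a : Fin (m + 1) → Fin (m + 1)) (u : Fin (m + 1) → Fin (m + 1) × Fin (m + 1))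
    (i : Fin (m + 1)) : gT (wl a i) (u i)
        ((u ((finRotate (m + 1)).symm i)).2, (u ((finRotate (m + 1)).symm i)).1) =
      (if Al1 a u i then 1 else 0) + (if Be1 a u i then -1 else 0) := by
  unfold gT
  rw [del3, del3]
  unfold Al1 Be1 wl
  split_ifs <;> simp

theorem prod_eq (a : Fin (m + 1) → Fin (m + 1)) (u : Fin (m + 1) → Fin (m + 1) × Fin (m + 1)) :
    ∏ i, gT (wl a i) (u i)
        ((u ((finRotate (m + 1)).symm i)).2, (u ((finRotate (m + 1)).symm i)).1) =
      (if ∀ i, Al1 a u i then 1 else 0) + (-1) ^ (m + 1) * (if ∀ i, Be1 a u i then 1 else 0) := by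
  rw [Finset.prod_congr rfl fun i _ => gT_eq a u i, Finset.prod_add]
  rw [Finset.sum_eq_add_of_mem (Finset.univ : Finset (Fin (m + 1))) ∅
    (Finset.mem_powerset.2 (Finset.Subset.refl _)) (Finset.empty_mem_powerset _)
    (Finset.univ_nonempty.ne_empty)]
  · congr 1
    · rw [Finset.sdiff_self, Finset.prod_empty, mul_one, Finset.prod_ite_zero, Finset.prod_const_one]
      simp only [Finset.mem_univ, forall_true_left]
    · rw [Finset.prod_empty, one_mul, Finset.sdiff_empty, Finset.prod_ite_zero, Finset.prod_const,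
        Finset.card_univ, Fintype.card_fin]
      simp only [Finset.mem_univ, forall_true_left, mul_ite, mul_one, mul_zero]
  · rintro t _ ⟨ht1, ht2⟩
    by_contra hne
    have hA : ∀ i ∈ t, Al1 a u i := by
      intro i hi
      by_contra h
      apply hne
      rw [Finset.prod_eq_zero hi (if_neg h), zero_mul]
    have hB : ∀ i ∉ t, Be1 a u i := by
      intro i hi
      by_contra h
      apply hne
      rw [Finset.prod_eq_zero (Finset.mem_sdiff.2 ⟨Finset.mem_univ _, hi⟩) (if_neg h), mul_zero]
    -- the first labels along the rim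
    have h1 : ∀ i ∈ t, (u ((finRotate (m + 1)).symm (finRotate (m + 1) i))).1 =
        finRotate (m + 1) ((u ((finRotate (m + 1)).symm i)).1) := by
      intro i hi
      rw [Equiv.symm_apply_apply, (hA i hi).2.2, (hA i hi).1]
    have h2 : ∀ i ∉ t, (u ((finRotate (m + 1)).symm (finRotate (m + 1) i))).1 =
        (u ((finRotate (m + 1)).symm i)).1 := by
      intro i hi
      rw [Equiv.symm_apply_apply, (hB i hi).2.1]
    rcases mixed (p := fun i => (u ((finRotate (m + 1)).symm i)).1) h1 h2 with h | h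
    · exact ht2 h
    · exact ht1 h

theorem sum_Al (a : Fin (m + 1) → Fin (m + 1)) :
    ∑ u : Fin (m + 1) → Fin (m + 1) × Fin (m + 1), (if ∀ i, Al1 a u i then (1 : ℤ) else 0) =
      (m + 1) * (if ∀ i, a (finRotate (m + 1) i) = finRotate (m + 1) (a i) then 1 else 0) := by
  rw [Finset.sum_boole]
  by_cases h : ∀ i, a (finRotate (m + 1) i) = finRotate (m + 1) (a i)
  · rw [if_pos h, mul_one]
    have h1 : (Finset.univ : Finset (Fin (m + 1) → Fin (m + 1) × Fin (m + 1))).filter
        (fun u => ∀ i, Al1 a u i) =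
        Finset.univ.image fun (t : Fin (m + 1)) (i : Fin (m + 1)) => (finRotate (m + 1) (a i), t) := by
      ext u
      simp only [Finset.mem_filter, Finset.mem_univ, true_and, Finset.mem_image]
      constructor
      · intro hu
        refine ⟨(u 0).2, ?_⟩
        have h2 : ∀ i, (u (finRotate (m + 1) i)).2 = (u i).2 := by
          intro i
          have h3 := (hu (finRotate (m + 1) i)).2.1
          rwa [Equiv.symm_apply_apply] at h3
        funext i
        exact Prod.ext (hu i).1 (const_of (f := fun i => (u i).2) h2 i).symm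
      · rintro ⟨t, rfl⟩ i
        refine ⟨rfl, rfl, ?_⟩
        show finRotate (m + 1) (a ((finRotate (m + 1)).symm i)) = a i
        rw [← h, Equiv.apply_symm_apply]
    rw [h1, Finset.card_image_of_injective, Finset.card_univ, Fintype.card_fin]
    · push_cast
      ring
    · intro t t' htt
      exact congrArg Prod.snd (congrFun htt 0)
  · rw [if_neg h, mul_zero]
    have h1 : (Finset.univ : Finset (Fin (m + 1) → Fin (m + 1) × Fin (m + 1))).filter
        (fun u => ∀ i, Al1 a u i) = ∅ := by
      rw [Finset.filter_eq_empty_iff]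
      intro u _ hu
      apply h
      intro i
      have h2 := (hu (finRotate (m + 1) i)).2.2
      rw [Equiv.symm_apply_apply] at h2
      rw [← h2, (hu i).1]
    rw [h1, Finset.card_empty]
    rfl

theorem sum_Be (a : Fin (m + 1) → Fin (m + 1)) :
    ∑ u : Fin (m + 1) → Fin (m + 1) × Fin (m + 1), (if ∀ i, Be1 a u i then (1 : ℤ) else 0) =
      (m + 1) * (if ∀ i, finRotate (m + 1) (a (finRotate (m + 1) i)) = a i then 1 else 0) := by
  rw [Finset.sum_boole]
  by_cases h : ∀ i, finRotate (m + 1) (a (finRotate (m + 1) i)) = a i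
  · rw [if_pos h, mul_one]
    have h1 : (Finset.univ : Finset (Fin (m + 1) → Fin (m + 1) × Fin (m + 1))).filter
        (fun u => ∀ i, Be1 a u i) =
        Finset.univ.image fun (t : Fin (m + 1)) (i : Fin (m + 1)) => (t, a i) := by
      ext u
      simp only [Finset.mem_filter, Finset.mem_univ, true_and, Finset.mem_image]
      constructor
      · intro hu
        refine ⟨(u 0).1, ?_⟩
        have h2 : ∀ i, (u (finRotate (m + 1) i)).1 = (u i).1 := by
          intro i
          have h3 := (hu (finRotate (m + 1) i)).2.1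
          rw [Equiv.symm_apply_apply] at h3
          exact h3.symm
        funext i
        exact Prod.ext (const_of (f := fun i => (u i).1) h2 i).symm (hu i).2.2.symm
      · rintro ⟨t, rfl⟩ i
        refine ⟨?_, rfl, rfl⟩
        show finRotate (m + 1) (a i) = a ((finRotate (m + 1)).symm i)
        rw [← h ((finRotate (m + 1)).symm i), Equiv.apply_symm_apply]
    rw [h1, Finset.card_image_of_injective, Finset.card_univ, Fintype.card_fin]
    · push_cast
      ring
    · intro t t' htt
      exact congrArg Prod.fst (congrFun htt 0)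
  · rw [if_neg h, mul_zero]
    have h1 : (Finset.univ : Finset (Fin (m + 1) → Fin (m + 1) × Fin (m + 1))).filter
        (fun u => ∀ i, Be1 a u i) = ∅ := by
      rw [Finset.filter_eq_empty_iff]
      intro u _ hu
      apply h
      intro i
      have h2 := (hu (finRotate (m + 1) i)).1
      rw [Equiv.symm_apply_apply, (hu i).2.2] at h2
      exact h2
    rw [h1, Finset.card_empty]
    rfl

/-- **The value on the standard wheel.** -/
theorem ZF_W0 (a : Fin (m + 1) → Fin (m + 1)) : ZF (wl a) (WT m) (W0 m) = (m + 1) *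
    ((if ∀ i, a (finRotate (m + 1) i) = finRotate (m + 1) (a i) then 1 else 0) +
      (-1) ^ (m + 1) *
        (if ∀ i, finRotate (m + 1) (a (finRotate (m + 1) i)) = a i then 1 else 0)) := by
  rw [ZF_eq, Z_W0, Finset.sum_congr rfl fun u _ => prod_eq a u, Finset.sum_add_distrib,
    ← Finset.mul_sum, sum_Al, sum_Be]
  ring

end Pool.Agent.SWT84
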