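import Pool.Agent.SWT65.Stmts
import Pool.Agent.SWT84.Eva

/-!
# The one-loop theorem
-/

set_option autoImplicit false

namespace Pool.Agent.SWT84

open Equiv Pool.Agent.SWT49 Pool.Agent.SWT80 Pool.Agent.SWT45 Pool.Agent.SWT93 Pool.Agent.SWT65
open scoped Classical

variable {V W M : Type} [AddCommGroup M] {n m : ℕ}

/-! ### Uniqueness -/

/-- **M1, uniqueness.** -/
theorem uniq (M : Type) [AddCommGroup M] : S_uniq M := by
  intro n h3 V _ L hL h0 G hG
  obtain ⟨m, rfl⟩ : ∃ m, n = m + 1 := ⟨n - 1, by omega⟩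
  obtain ⟨R, hne, hR⟩ := exists_cy G (le_of_eq hG.card.symm)
  refine rim_induction (fun G _ => L G = 0) ?_ ?_ hG.conn hR hne
  · intro G R hG' hno _ _
    exact h0 G ⟨hG', hG.card⟩ hno
  · intro I J X x R hI _ hLoc _ _ _ hJ hX
    rw [hL I J X x hLoc ⟨hI, hG.card⟩, hJ, hX, sub_zero]

/-! ### The symmetries of the standard wheel -/

/-- The rotation by `ρ`. -/
def rotE (ρ : Perm (Fin (m + 1))) : WT m ≃ WT m :=
  Equiv.sumCongr (Equiv.prodCongr ρ (Equiv.refl (Fin 3))) ρ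

theorem W0_rot (ρ : Perm (Fin (m + 1)))
    (h : ∀ i, ρ (finRotate (m + 1) i) = finRotate (m + 1) (ρ i)) :
    (W0 m).map (rotE ρ) = ρ⁻¹ • W0 m := by
  have h' : ∀ i, ρ ((finRotate (m + 1)).symm i) = (finRotate (m + 1)).symm (ρ i) := by
    intro i
    rw [Equiv.eq_symm_apply, ← h, Equiv.apply_symm_apply]
  refine Gr.map_eq ?_ ?_ ?_
  · rintro (⟨i, k⟩ | i)
    · fin_cases k
      · rfl
      · show (Sum.inl (finRotate (m + 1) (ρ i), 2) : WT m) = Sum.inl (ρ (finRotate (m + 1) i), 2)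
        rw [h]
      · show (Sum.inl ((finRotate (m + 1)).symm (ρ i), 1) : WT m) =
          Sum.inl (ρ ((finRotate (m + 1)).symm i), 1)
        rw [h']
    · rfl
  · rintro (⟨i, k⟩ | i)
    · fin_cases k <;> rfl
    · rfl
  · intro i
    rfl

/-- The wheel with the vertices in `S` reversed. -/
def wrS (S : Finset (Fin (m + 1))) : WT m → WT m
  | Sum.inl (i, k) => if i ∈ S then wr m (wr m (Sum.inl (i, k))) else wr m (Sum.inl (i, k))
  | Sum.inr i => Sum.inr i

theorem wr_fst (i : Fin (m + 1)) (k : Fin 3) : ∃ k', wr m (Sum.inl (i, k)) = Sum.inl (i, k') := by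
  fin_cases k
  · exact ⟨1, rfl⟩
  · exact ⟨2, rfl⟩
  · exact ⟨0, rfl⟩

theorem wrS_pos {S : Finset (Fin (m + 1))} {i : Fin (m + 1)} (h : i ∈ S) (k : Fin 3) :
    wrS S (Sum.inl (i, k)) = wr m (wr m (Sum.inl (i, k))) := if_pos h

theorem wrS_neg {S : Finset (Fin (m + 1))} {i : Fin (m + 1)} (h : i ∉ S) (k : Fin 3) :
    wrS S (Sum.inl (i, k)) = wr m (Sum.inl (i, k)) := if_neg h

theorem wrS3 (S : Finset (Fin (m + 1))) (v : WT m) : wrS S (wrS S (wrS S v)) = v := by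
  rcases v with ⟨i, k⟩ | i
  · by_cases h : i ∈ S
    · fin_cases k
      · show wrS S (wrS S (wrS S (Sum.inl (i, 0)))) = _
        rw [wrS_pos h]
        show wrS S (wrS S (Sum.inl (i, 2))) = _
        rw [wrS_pos h]
        show wrS S (Sum.inl (i, 1)) = _
        rw [wrS_pos h]
        rfl
      · show wrS S (wrS S (wrS S (Sum.inl (i, 1)))) = _
        rw [wrS_pos h]
        show wrS S (wrS S (Sum.inl (i, 0))) = _
        rw [wrS_pos h]
        show wrS S (Sum.inl (i, 2)) = _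
        rw [wrS_pos h]
        rfl
      · show wrS S (wrS S (wrS S (Sum.inl (i, 2)))) = _
        rw [wrS_pos h]
        show wrS S (wrS S (Sum.inl (i, 1))) = _
        rw [wrS_pos h]
        show wrS S (Sum.inl (i, 0)) = _
        rw [wrS_pos h]
        rfl
    · obtain ⟨k1, h1⟩ := wr_fst i k
      obtain ⟨k2, h2⟩ := wr_fst i k1
      rw [wrS_neg h, h1, wrS_neg h, h2, wrS_neg h, ← h2, ← h1]
      exact wr3 m _
  · rfl

/-- The wheel with the vertices in `S` reversed. -/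
noncomputable def WS (S : Finset (Fin (m + 1))) : Gr (WT m) (m + 1) :=
  (W0 m).withR ⟨wrS S, fun v => wrS S (wrS S v), wrS3 S, wrS3 S⟩ (wrS3 S) (by
    rintro (⟨i, k⟩ | i)
    · show wrS S (Sum.inl (i, k)) = Sum.inl (i, k) ↔ wr m (Sum.inl (i, k)) = Sum.inl (i, k)
      by_cases h : i ∈ S
      · rw [wrS_pos h]
        constructor
        · exact (W0 m).r2
        · intro h1
          rw [h1, h1]
      · rw [wrS_neg h]
    · exact Iff.rfl)

theorem WS_r (S : Finset (Fin (m + 1))) (v : WT m) : (WS S).r v = wrS S v := rfl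

theorem WS_empty : WS (∅ : Finset (Fin (m + 1))) = W0 m := by
  refine Gr.ext rfl (Equiv.ext fun v => ?_) rfl
  rcases v with ⟨i, k⟩ | i
  · show wrS ∅ (Sum.inl (i, k)) = wr m (Sum.inl (i, k))
    exact wrS_neg (Finset.notMem_empty i) k
  · rfl

theorem WS_flip {S : Finset (Fin (m + 1))} {a : Fin (m + 1)} (ha : a ∉ S) :
    (WS S).flip (Sum.inl (a, 0)) = WS (insert a S) := by
  have h1 : (WS S).r (Sum.inl (a, 0)) = Sum.inl (a, 1) := by rw [WS_r, wrS_neg ha]; rfl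
  have h2 : (WS S).r (Sum.inl (a, 1)) = Sum.inl (a, 2) := by rw [WS_r, wrS_neg ha]; rfl
  have h3 : (WS S).r (Sum.inl (a, 2)) = Sum.inl (a, 0) := by rw [WS_r, wrS_neg ha]; rfl
  have hv : ∀ v, (WS S).vt (Sum.inl (a, 0)) v ↔ ∃ k, v = Sum.inl (a, k) := by
    intro v
    unfold Gr.vt
    rw [h1, h2]
    constructor
    · rintro (h | h | h)
      · exact ⟨0, h⟩
      · exact ⟨1, h⟩
      · exact ⟨2, h⟩
    · rintro ⟨k, h⟩
      fin_cases k
      · exact Or.inl h
      · exact Or.inr (Or.inl h)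
      · exact Or.inr (Or.inr h)
  refine Gr.ext rfl (Equiv.ext fun v => ?_) rfl
  rcases v with ⟨i, k⟩ | i
  · rw [Gr.flip_r, WS_r]
    by_cases hi : i = a
    · rw [hi, Gr.fr_pos ((hv _).2 ⟨k, rfl⟩), wrS_pos (Finset.mem_insert_self _ _)]
      fin_cases k
      · show (WS S).r ((WS S).r (Sum.inl (a, 0))) = _
        rw [h1, h2]
        rfl
      · show (WS S).r ((WS S).r (Sum.inl (a, 1))) = _
        rw [h2, h3]
        rfl
      · show (WS S).r ((WS S).r (Sum.inl (a, 2))) = _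
        rw [h3, h1]
        rfl
    · rw [Gr.fr_neg]
      · rw [WS_r]
        by_cases h : i ∈ S
        · rw [wrS_pos h, wrS_pos (Finset.mem_insert_of_mem h)]
        · rw [wrS_neg h, wrS_neg (by simp [hi, h])]
      · intro h
        obtain ⟨k', hk'⟩ := (hv _).1 h
        have h4 : i = a ∧ k = k' := by simpa using hk'
        exact hi h4.1
  · exact ((WS S).flip (Sum.inl (a, 0))).r_leg i

/-- The reflection by `ρ`. -/
def flE : Fin 3 ≃ Fin 3 := Equiv.swap 1 2

def refE (ρ : Perm (Fin (m + 1))) : WT m ≃ WT m :=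
  Equiv.sumCongr (Equiv.prodCongr ρ flE) ρ

theorem W0_ref (ρ : Perm (Fin (m + 1)))
    (h : ∀ i, finRotate (m + 1) (ρ (finRotate (m + 1) i)) = ρ i) :
    (WS (Finset.univ : Finset (Fin (m + 1)))).map (refE ρ) = ρ⁻¹ • W0 m := by
  have h' : ∀ i, ρ (finRotate (m + 1) i) = (finRotate (m + 1)).symm (ρ i) := by
    intro i
    rw [Equiv.eq_symm_apply, h]
  have h'' : ∀ i, ρ ((finRotate (m + 1)).symm i) = finRotate (m + 1) (ρ i) := by
    intro i
    rw [← h, Equiv.apply_symm_apply]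
  have f0 : flE 0 = 0 := by decide
  have f1 : flE 1 = 2 := by decide
  have f2 : flE 2 = 1 := by decide
  refine Gr.map_eq ?_ ?_ ?_
  · rintro (⟨i, k⟩ | i)
    · fin_cases k
      · show we m (Sum.inl (ρ i, flE 0)) = Sum.inr (ρ i)
        rw [f0]
        rfl
      · show we m (Sum.inl (ρ i, flE 1)) = Sum.inl (ρ (finRotate (m + 1) i), flE 2)
        rw [f1, f2, h']
        rfl
      · show we m (Sum.inl (ρ i, flE 2)) = Sum.inl (ρ ((finRotate (m + 1)).symm i), flE 1)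
        rw [f1, f2, h'']
        rfl
    · show (Sum.inl (ρ i, 0) : WT m) = Sum.inl (ρ i, flE 0)
      rw [f0]
  · rintro (⟨i, k⟩ | i)
    · fin_cases k
      · show wr m (Sum.inl (ρ i, flE 0)) = refE ρ (wrS Finset.univ (Sum.inl (i, 0)))
        rw [f0, wrS_pos (Finset.mem_univ _)]
        show (Sum.inl (ρ i, 1) : WT m) = Sum.inl (ρ i, flE 2)
        rw [f2]
      · show wr m (Sum.inl (ρ i, flE 1)) = refE ρ (wrS Finset.univ (Sum.inl (i, 1)))
        rw [f1, wrS_pos (Finset.mem_univ _)]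
        show (Sum.inl (ρ i, 0) : WT m) = Sum.inl (ρ i, flE 0)
        rw [f0]
      · show wr m (Sum.inl (ρ i, flE 2)) = refE ρ (wrS Finset.univ (Sum.inl (i, 2)))
        rw [f2, wrS_pos (Finset.mem_univ _)]
        show (Sum.inl (ρ i, 2) : WT m) = Sum.inl (ρ i, flE 1)
        rw [f1]
    · rfl
  · intro i
    rfl

/-! ### A function on the wheels -/

theorem one_WS (g : Perm (Fin (m + 1))) : One (g • W0 m) := ⟨gconn_W0 m g, card_WT m⟩

theorem onwh_rot {f : (V : Type) → Gr V (m + 1) → M} (hf : OnWh f) (σ ρ : Perm (Fin (m + 1)))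
    (h : ∀ i, ρ (finRotate (m + 1) i) = finRotate (m + 1) (ρ i)) :
    f (WT m) ((σ * ρ⁻¹) • W0 m) = f (WT m) (σ • W0 m) := by
  rw [mul_smul, ← W0_rot ρ h, Gr.smul_map]
  exact hf.iso _ _ (rotE ρ) _ (one_WS σ) (noCherry_W0 m σ)

theorem onwh_WS {f : (V : Type) → Gr V (m + 1) → M} (hf : OnWh f) (σ : Perm (Fin (m + 1)))
    (S : Finset (Fin (m + 1))) : One (σ • WS S) ∧ NoCherry (σ • WS S) ∧
    f (WT m) (σ • WS S) = (-1 : ℤ) ^ S.card • f (WT m) (σ • W0 m) := by
  induction S using Finset.induction_on with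
  | empty =>
    rw [WS_empty, Finset.card_empty, pow_zero, one_smul]
    exact ⟨one_WS σ, noCherry_W0 m σ, rfl⟩
  | insert a S ha ih =>
    obtain ⟨h1, h2, h3⟩ := ih
    have h4 : σ • WS (insert a S) = (σ • WS S).flip (Sum.inl (a, 0)) := by
      rw [← WS_flip ha, Gr.smul_flip]
    have h5 : (σ • WS S).r (Sum.inl (a, 0)) ≠ Sum.inl (a, 0) := by
      show wrS S (Sum.inl (a, 0)) ≠ Sum.inl (a, 0)
      rw [wrS_neg ha]
      show (Sum.inl (a, 1) : WT m) ≠ Sum.inl (a, 0)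
      simp
    rw [h4]
    refine ⟨⟨gconn_flip.2 h1.conn, h1.card⟩, nocherry_flip h2, ?_⟩
    rw [hf.as _ _ _ h1 h2 h5, h3, Finset.card_insert_of_notMem ha, pow_succ, mul_neg, mul_one,
      neg_smul]

theorem onwh_ref {f : (V : Type) → Gr V (m + 1) → M} (hf : OnWh f) (σ ρ : Perm (Fin (m + 1)))
    (h : ∀ i, finRotate (m + 1) (ρ (finRotate (m + 1) i)) = ρ i) :
    f (WT m) ((σ * ρ⁻¹) • W0 m) = (-1 : ℤ) ^ (m + 1) • f (WT m) (σ • W0 m) := by
  obtain ⟨h1, h2, h3⟩ := onwh_WS hf σ (Finset.univ : Finset (Fin (m + 1)))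
  rw [mul_smul, ← W0_ref ρ h, Gr.smul_map, hf.iso _ _ (refE ρ) _ h1 h2, h3, Finset.card_univ,
    Fintype.card_fin]

/-! ### The number of the symmetries -/

theorem pow_val (k : ℕ) (i : Fin (m + 1)) :
    ((finRotate (m + 1) ^ k) i).val = (i.val + k) % (m + 1) := by
  induction k with
  | zero => simp [Nat.mod_eq_of_lt i.2]
  | succ k ih =>
    rw [pow_succ', Perm.mul_apply, c_val, ih, Nat.mod_add_mod]
    congr 1

theorem card_rot : (Finset.univ.filter fun ρ : Perm (Fin (m + 1)) =>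
    ∀ i, ρ (finRotate (m + 1) i) = finRotate (m + 1) (ρ i)).card = m + 1 := by
  have h : (Finset.univ.filter fun ρ : Perm (Fin (m + 1)) =>
      ∀ i, ρ (finRotate (m + 1) i) = finRotate (m + 1) (ρ i)) =
      Finset.univ.image fun k : Fin (m + 1) => finRotate (m + 1) ^ k.val := by
    ext ρ
    simp only [Finset.mem_filter, Finset.mem_univ, true_and, Finset.mem_image]
    constructor
    · intro hρ
      obtain ⟨k, hk⟩ := eq_pow ρ hρ
      refine ⟨⟨k % (m + 1), Nat.mod_lt _ (Nat.succ_pos _)⟩, ?_⟩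
      rw [hk]
      ext i
      rw [pow_val, pow_val, Nat.add_mod_mod]
    · rintro ⟨k, rfl⟩ i
      rw [← Perm.mul_apply, ← Perm.mul_apply, ← pow_succ, ← pow_succ']
  rw [h, Finset.card_image_of_injective, Finset.card_univ, Fintype.card_fin]
  intro k l hkl
  have h1 : ((finRotate (m + 1) ^ k.val) 0).val = ((finRotate (m + 1) ^ l.val) 0).val := by
    have h2 : finRotate (m + 1) ^ k.val = finRotate (m + 1) ^ l.val := hkl
    rw [h2]
  rw [pow_val, pow_val] at h1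
  apply Fin.ext
  simpa [Nat.mod_eq_of_lt k.2, Nat.mod_eq_of_lt l.2] using h1

theorem card_ref : (Finset.univ.filter fun ρ : Perm (Fin (m + 1)) =>
    ∀ i, finRotate (m + 1) (ρ (finRotate (m + 1) i)) = ρ i).card = m + 1 := by
  have hc : ∀ i, w0 m (finRotate (m + 1) i) = (finRotate (m + 1)).symm (w0 m i) := by
    intro i
    rw [Equiv.eq_symm_apply, w0_c]
  refine (Finset.card_bij' (fun ρ _ => w0 m * ρ) (fun ρ _ => w0 m * ρ) ?_ ?_ ?_ ?_).trans
    (card_rot (m := m))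
  · intro ρ hρ
    have hρ' := (Finset.mem_filter.1 hρ).2
    refine Finset.mem_filter.2 ⟨Finset.mem_univ _, fun i => ?_⟩
    rw [Perm.mul_apply, Perm.mul_apply, ← hρ' i, hc, Equiv.apply_symm_apply]
  · intro ρ hρ
    have hρ' := (Finset.mem_filter.1 hρ).2
    refine Finset.mem_filter.2 ⟨Finset.mem_univ _, fun i => ?_⟩
    rw [Perm.mul_apply, Perm.mul_apply, hρ' i, w0_c]
  · intro ρ _
    rw [← mul_assoc, w0_mul_w0, one_mul]
  · intro ρ _
    rw [← mul_assoc, w0_mul_w0, one_mul]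

/-! ### Existence -/

/-- The extension of a function on the wheels. -/
noncomputable def ext0 (f : (V : Type) → Gr V (m + 1) → M) (V : Type) (G : Gr V (m + 1)) : M :=
  - ∑ τ : Perm (Fin (m + 1)), ZF (wl fun i => τ⁻¹ i) V G • f (WT m) (τ • W0 m)

theorem rel_ext0 (f : (V : Type) → Gr V (m + 1) → M) : Rel (ext0 f) where
  iso V W _ φ G := by
    unfold ext0
    congr 1
    exact Finset.sum_congr rfl fun τ _ => by rw [(rel_ZF _).iso V W φ G]
  as V _ G x hx := by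
    have h : ∑ τ : Perm (Fin (m + 1)), ZF (wl fun i => τ⁻¹ i) V (G.flip x) •
        f (WT m) (τ • W0 m) =
        - ∑ τ : Perm (Fin (m + 1)), ZF (wl fun i => τ⁻¹ i) V G • f (WT m) (τ • W0 m) := by
      rw [← Finset.sum_neg_distrib]
      exact Finset.sum_congr rfl fun τ _ => by rw [(rel_ZF _).as V G x hx, neg_smul]
    unfold ext0
    rw [h]
  ihx V _ I J X x h := by
    unfold ext0
    rw [sub_neg_eq_add, neg_add_eq_sub, ← neg_sub, ← Finset.sum_sub_distrib]
    congr 1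
    exact Finset.sum_congr rfl fun τ _ => by rw [(rel_ZF _).ihx V I J X x h, sub_smul]

theorem ext0_W0 (h3 : ¬ 3 ∣ m + 1) (hM : ∀ x : M, x + x + x = 0)
    {f : (V : Type) → Gr V (m + 1) → M} (hf : OnWh f) (σ : Perm (Fin (m + 1))) :
    ext0 f (WT m) (σ • W0 m) = f (WT m) (σ • W0 m) := by
  have h1 : ∀ ρ : Perm (Fin (m + 1)),
      ZF (wl fun i => (σ * ρ⁻¹)⁻¹ i) (WT m) (σ • W0 m) • f (WT m) ((σ * ρ⁻¹) • W0 m) =
      (((m + 1 : ℤ)) * ((if ∀ i, ρ (finRotate (m + 1) i) = finRotate (m + 1) (ρ i) then 1 else 0) +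
        (if ∀ i, finRotate (m + 1) (ρ (finRotate (m + 1) i)) = ρ i then 1 else 0))) •
          f (WT m) (σ • W0 m) := by
    intro ρ
    have h2 : (fun j => wl (fun i => (σ * ρ⁻¹)⁻¹ i) (σ j)) = wl (fun i => ρ i) := by
      funext j
      have h4 : (σ * ρ⁻¹)⁻¹ (σ j) = ρ j := by
        rw [mul_inv_rev, inv_inv, Perm.mul_apply]
        show ρ (σ.symm (σ j)) = _
        rw [Equiv.symm_apply_apply]
      show ((σ * ρ⁻¹)⁻¹ (σ j), finRotate (m + 1) ((σ * ρ⁻¹)⁻¹ (σ j))) =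
        (ρ j, finRotate (m + 1) (ρ j))
      rw [h4]
    have hA : (if ∀ i, ρ (finRotate (m + 1) i) = finRotate (m + 1) (ρ i) then (1 : ℤ) else 0) •
        f (WT m) ((σ * ρ⁻¹) • W0 m) =
        (if ∀ i, ρ (finRotate (m + 1) i) = finRotate (m + 1) (ρ i) then (1 : ℤ) else 0) •
        f (WT m) (σ • W0 m) := by
      by_cases h : ∀ i, ρ (finRotate (m + 1) i) = finRotate (m + 1) (ρ i)
      · rw [if_pos h, onwh_rot hf σ ρ h]
      · rw [if_neg h, zero_smul, zero_smul]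
    have hB : ((-1 : ℤ) ^ (m + 1) *
        (if ∀ i, finRotate (m + 1) (ρ (finRotate (m + 1) i)) = ρ i then (1 : ℤ) else 0)) •
        f (WT m) ((σ * ρ⁻¹) • W0 m) =
        (if ∀ i, finRotate (m + 1) (ρ (finRotate (m + 1) i)) = ρ i then (1 : ℤ) else 0) •
        f (WT m) (σ • W0 m) := by
      by_cases h : ∀ i, finRotate (m + 1) (ρ (finRotate (m + 1) i)) = ρ i
      · have e1 : (-1 : ℤ) ^ (m + 1) * (-1 : ℤ) ^ (m + 1) = 1 := by
          rw [← mul_pow]
          norm_num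
        rw [if_pos h, onwh_ref hf σ ρ h, mul_one, ← mul_smul, e1]
      · rw [if_neg h, mul_zero, zero_smul, zero_smul]
    rw [ZF_smul, h2, ZF_W0]
    generalize f (WT m) ((σ * ρ⁻¹) • W0 m) = x at hA hB ⊢
    generalize ((m : ℤ) + 1) = q
    rw [mul_smul, add_smul, hA, hB, ← add_smul, ← mul_smul]
  have h5 : ∑ τ : Perm (Fin (m + 1)), ZF (wl fun i => τ⁻¹ i) (WT m) (σ • W0 m) •
      f (WT m) (τ • W0 m) = (2 * (m + 1 : ℤ) ^ 2) • f (WT m) (σ • W0 m) := by
    rw [← Equiv.sum_comp ((Equiv.inv (Perm (Fin (m + 1)))).trans (Equiv.mulLeft σ))]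
    have h6 : ∀ ρ : Perm (Fin (m + 1)),
        ((Equiv.inv (Perm (Fin (m + 1)))).trans (Equiv.mulLeft σ)) ρ = σ * ρ⁻¹ := fun ρ => rfl
    simp only [h6]
    rw [Finset.sum_congr rfl fun ρ _ => h1 ρ, ← Finset.sum_smul, ← Finset.mul_sum,
      Finset.sum_add_distrib, Finset.sum_boole, Finset.sum_boole, card_rot, card_ref]
    congr 1
    push_cast
    ring
  unfold ext0
  rw [h5]
  have h7 : (3 : ℤ) ∣ 2 * (m + 1 : ℤ) ^ 2 + 1 := by
    have h8 : (m + 1) % 3 = 1 ∨ (m + 1) % 3 = 2 := by omega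
    have h9 : ((m + 1 : ℕ) : ℤ) = (m + 1 : ℤ) := by push_cast; ring
    rw [← h9]
    rcases h8 with h8 | h8
    · obtain ⟨q, hq⟩ : ∃ q, m + 1 = 3 * q + 1 := ⟨(m + 1) / 3, by omega⟩
      rw [hq]
      push_cast
      exact ⟨6 * q ^ 2 + 4 * q + 1, by ring⟩
    · obtain ⟨q, hq⟩ : ∃ q, m + 1 = 3 * q + 2 := ⟨(m + 1) / 3, by omega⟩
      rw [hq]
      push_cast
      exact ⟨6 * q ^ 2 + 8 * q + 3, by ring⟩
  obtain ⟨q, hq⟩ := h7
  have h10 : (2 * (m + 1 : ℤ) ^ 2 + 1) • f (WT m) (σ • W0 m) = 0 := by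
    rw [hq, mul_comm, mul_smul]
    have h11 : (3 : ℤ) • f (WT m) (σ • W0 m) = 0 := by
      rw [show (3 : ℤ) = 1 + 1 + 1 by norm_num, add_smul, add_smul, one_smul]
      exact hM _
    rw [h11, smul_zero]
  rw [add_smul, one_smul] at h10
  exact neg_eq_of_add_eq_zero_right h10

/-! ### The graphs with one loop -/

theorem one_map {G : Gr V n} (f : V ≃ W) : One (G.map f) ↔ One G := by
  have hc : Nat.card W = Nat.card V := (Nat.card_congr f).symm
  exact ⟨fun h => ⟨(SWT93.gconn_map f).1 h.conn, by rw [← hc]; exact h.card⟩,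
    fun h => ⟨(SWT93.gconn_map f).2 h.conn, by rw [hc]; exact h.card⟩⟩

theorem one_flip {G : Gr V n} {x : V} : One (G.flip x) ↔ One G :=
  ⟨fun h => ⟨SWT93.gconn_flip.1 h.conn, h.card⟩, fun h => ⟨SWT93.gconn_flip.2 h.conn, h.card⟩⟩

theorem one_loc {I J X : Gr V n} {x : V} (h : Gr.Loc I J X x) :
    (One J ↔ One I) ∧ (One X ↔ One I) := by
  obtain ⟨h1, h2⟩ := gconn_loc h
  exact ⟨⟨fun h' => ⟨h1.1 h'.conn, h'.card⟩, fun h' => ⟨h1.2 h'.conn, h'.card⟩⟩,
    ⟨fun h' => ⟨h2.1 h'.conn, h'.card⟩, fun h' => ⟨h2.2 h'.conn, h'.card⟩⟩⟩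

/-- Restriction to the graphs with one loop. -/
noncomputable def cut1 (F : (V : Type) → Gr V n → M) (V : Type) (G : Gr V n) : M :=
  if One G then F V G else 0

theorem rel_cut1 {F : (V : Type) → Gr V n → M} (hF : Rel F) : Rel (cut1 F) where
  iso V W _ φ G := by
    unfold cut1
    by_cases h : One G
    · rw [if_pos h, if_pos ((one_map φ).2 h), hF.iso]
    · rw [if_neg h, if_neg fun h' => h ((one_map φ).1 h')]
  as V _ G x hx := by
    unfold cut1
    by_cases h : One G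
    · rw [if_pos h, if_pos (one_flip.2 h), hF.as V G x hx]
    · rw [if_neg h, if_neg fun h' => h (one_flip.1 h'), neg_zero]
  ihx V _ I J X x hL := by
    unfold cut1
    obtain ⟨h1, h2⟩ := one_loc hL
    by_cases h : One I
    · rw [if_pos h, if_pos (h1.2 h), if_pos (h2.2 h)]
      exact hF.ihx V I J X x hL
    · rw [if_neg h, if_neg fun h' => h (h1.1 h'), if_neg fun h' => h (h2.1 h'), sub_zero]

/-- **M1, existence.** -/
theorem ext (M : Type) [AddCommGroup M] (hM : ∀ x : M, x + x + x = 0) : S_ext M := by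
  intro n h3 hn f hf
  obtain ⟨m, rfl⟩ : ∃ m, n = m + 1 := ⟨n - 1, by omega⟩
  refine ⟨cut1 (ext0 f), rel_cut1 (rel_ext0 f), ?_, ?_⟩
  · intro V _ G hG hno
    have h1 : ext0 f V G = f V G := by
      refine wheel_ind (P := fun V G => ext0 f V G = f V G) h3 ?_ ?_ ?_ hG.conn hno hG.card
      · intro V W _ φ G hG hno hV h
        rw [(rel_ext0 f).iso V W φ G, hf.iso V W φ G ⟨hG, hV⟩ hno]
        exact h
      · intro V _ G x hG hno hV hx h
        rw [(rel_ext0 f).as V G x hx, hf.as V G x ⟨hG, hV⟩ hno hx] at h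
        exact neg_injective h
      · intro g
        exact ext0_W0 hn hM hf g
    unfold cut1
    rw [if_pos hG]
    exact h1
  · intro V _ G hG
    unfold cut1
    rw [if_neg hG]

end Pool.Agent.SWT84
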