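import Mathlib
import Pool.Agent.SWT36.LocShape
import Pool.Agent.SWT49.Wheel
import Pool.Agent.SWT58.Rep
import Pool.Agent.SWT93.Even

/-!
# Cycles of a graph, the induction on the length of the rim, existence of a cycle

A cycle set `R` is a set of edges which meets every vertex in no or in exactly two half-edges (a
cycle modulo 2).
-/

set_option autoImplicit false

namespace Pool.Agent.SWT84

open Equiv Pool.Agent.SWT49 Pool.Agent.SWT80 Pool.Agent.SWT93

variable {V W : Type} {n : ℕ}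

/-- A set of edges which meets every vertex in no or in exactly two half-edges. -/
structure Cy (G : Gr V n) (R : Set V) : Prop where
  e : ∀ v ∈ R, G.e v ∈ R
  two : ∀ v ∈ R, (G.r v ∈ R ∧ G.r (G.r v) ∉ R) ∨ (G.r v ∉ R ∧ G.r (G.r v) ∈ R)

namespace Cy

variable {G : Gr V n} {R : Set V}

theorem e_iff (h : Cy G R) {v : V} : G.e v ∈ R ↔ v ∈ R :=
  ⟨fun h1 => by rw [← G.e2 v]; exact h.e _ h1, h.e v⟩

theorem ne_leg (h : Cy G R) {v : V} (hv : v ∈ R) : G.r v ≠ v := by
  intro h1
  rcases h.two v hv with ⟨h2, h3⟩ | ⟨h2, h3⟩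
  · rw [h1, h1] at h3
    exact h3 hv
  · rw [h1] at h2
    exact h2 hv

theorem rr_of (h : Cy G R) {v : V} (hv : v ∉ R) (h1 : G.r v ∈ R) : G.r (G.r v) ∈ R := by
  rcases h.two _ h1 with ⟨h2, _⟩ | ⟨_, h2⟩
  · exact h2
  · rw [G.r3] at h2
    exact absurd h2 hv

theorem r_of (h : Cy G R) {v : V} (hv : v ∉ R) (h1 : G.r (G.r v) ∈ R) : G.r v ∈ R := by
  rcases h.two _ h1 with ⟨h2, _⟩ | ⟨_, h2⟩
  · rw [G.r3] at h2
    exact absurd h2 hv
  · rw [G.r3] at h2
    exact h2

/-- The vertex of the half-edge lies on the cycle. -/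
def On (G : Gr V n) (R : Set V) (v : V) : Prop := v ∈ R ∨ G.r v ∈ R

theorem on_r (h : Cy G R) {v : V} : On G R (G.r v) ↔ On G R v := by
  unfold On
  constructor
  · rintro (h1 | h1)
    · exact Or.inr h1
    · by_cases hv : v ∈ R
      · exact Or.inl hv
      · exact Or.inr (h.r_of hv h1)
  · rintro (h1 | h1)
    · rcases h.two _ h1 with ⟨h2, _⟩ | ⟨_, h2⟩
      · exact Or.inl h2
      · exact Or.inr h2
    · exact Or.inl h1

/-- The three half-edges of a vertex of the cycle outside the cycle. -/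
theorem not_on (h : Cy G R) {v : V} (hv : ¬ On G R v) : v ∉ R ∧ G.r v ∉ R ∧ G.r (G.r v) ∉ R := by
  have h1 : ¬ On G R (G.r v) := fun h' => hv (h.on_r.1 h')
  exact ⟨fun h' => hv (Or.inl h'), fun h' => hv (Or.inr h'), fun h' => h1 (Or.inr h')⟩

theorem smul (h : Cy G R) (g : Perm (Fin n)) : Cy (g • G) R := ⟨h.e, h.two⟩

theorem map (h : Cy G R) (f : V ≃ W) : Cy (G.map f) (f '' R) := by
  have hm : ∀ v, f v ∈ f '' R ↔ v ∈ R := fun v => f.injective.mem_set_image
  refine ⟨?_, ?_⟩
  · rintro _ ⟨v, hv, rfl⟩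
    rw [Gr.map_e, hm]
    exact h.e v hv
  · rintro _ ⟨v, hv, rfl⟩
    rw [Gr.map_r, Gr.map_r, hm, hm]
    exact h.two v hv

theorem flip (h : Cy G R) (x : V) : Cy (G.flip x) R := by
  refine ⟨h.e, fun v hv => ?_⟩
  rw [Gr.flip_r, Gr.flip_r]
  by_cases hx : G.vt x v
  · have h2 : G.vt x (G.r (G.r v)) := G.vt_r.2 (G.vt_r.2 hx)
    rw [Gr.fr_pos hx, Gr.fr_pos h2, G.r3]
    rcases h.two v hv with h1 | h1
    · exact Or.inr ⟨h1.2, h1.1⟩
    · exact Or.inl ⟨h1.2, h1.1⟩
  · have h2 : ¬ G.vt x (G.r v) := fun h' => hx (G.vt_r.1 h')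
    rw [Gr.fr_neg hx, Gr.fr_neg h2]
    exact h.two v hv

end Cy

open Cy

/-- The third edge of a vertex of the cycle is opened: the cycle of the other two diagrams. -/
theorem Cy.loc {I J X : Gr V n} {x : V} {R : Set V} (h : Cy I R) (hL : Gr.Loc I J X x)
    (hx : x ∉ R) (ha : I.r x ∈ R) (hy : ¬ On I R (I.e x)) :
    Cy J (R ∪ {x, I.e x}) ∧ Cy X (R ∪ {x, I.e x}) := by
  have hb : I.r (I.r x) ∈ R := h.rr_of hx ha
  obtain ⟨ny, nc, nd⟩ := h.not_on hy
  have hnd := SWT36.loc_nodup hL.ok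
  have hrb : I.r (I.r (I.r x)) = x := I.r3 x
  have hrd : I.r (I.r (I.r (I.e x))) = I.e x := I.r3 _
  have j1 := hL.j1
  have j2 := hL.j2
  have j3 := hL.j3
  have j4 := hL.j4
  have j5 := hL.j5
  have j6 := hL.j6
  have x1 := hL.x1
  have x2 := hL.x2
  have x3 := hL.x3
  have x4 := hL.x4
  have x5 := hL.x5
  have x6 := hL.x6
  have hmem : ∀ v, v ≠ x → v ≠ I.e x → (v ∈ R ∪ {x, I.e x} ↔ v ∈ R) := by
    intro v h1 h2
    constructor
    · rintro (h3 | h3 | h3)
      · exact h3
      · exact absurd h3 h1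
      · exact absurd h3 h2
    · exact Or.inl
  have mx : x ∈ R ∪ {x, I.e x} := Or.inr (Or.inl rfl)
  have my : I.e x ∈ R ∪ {x, I.e x} := Or.inr (Or.inr rfl)
  -- the half-edges outside the two vertices
  have hout : ∀ v ∈ R, ¬ I.vt x v → ¬ I.vt (I.e x) v →
      ((J.r v ∈ R ∪ {x, I.e x} ∧ J.r (J.r v) ∉ R ∪ {x, I.e x}) ∨
        (J.r v ∉ R ∪ {x, I.e x} ∧ J.r (J.r v) ∈ R ∪ {x, I.e x})) ∧
      ((X.r v ∈ R ∪ {x, I.e x} ∧ X.r (X.r v) ∉ R ∪ {x, I.e x}) ∨
        (X.r v ∉ R ∪ {x, I.e x} ∧ X.r (X.r v) ∈ R ∪ {x, I.e x})) := by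
    intro v hv h1 h2
    have h1' : ¬ I.vt x (I.r v) := fun h' => h1 (I.vt_r.1 h')
    have h2' : ¬ I.vt (I.e x) (I.r v) := fun h' => h2 (I.vt_r.1 h')
    have h1'' : ¬ I.vt x (I.r (I.r v)) := fun h' => h1' (I.vt_r.1 h')
    have h2'' : ¬ I.vt (I.e x) (I.r (I.r v)) := fun h' => h2' (I.vt_r.1 h')
    have m1 : I.r v ∈ R ∪ {x, I.e x} ↔ I.r v ∈ R :=
      hmem _ (fun h' => h1' (Or.inl h')) (fun h' => h2' (Or.inl h'))
    have m2 : I.r (I.r v) ∈ R ∪ {x, I.e x} ↔ I.r (I.r v) ∈ R :=
      hmem _ (fun h' => h1'' (Or.inl h')) (fun h' => h2'' (Or.inl h'))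
    rw [(hL.oth v h1 h2).1, (hL.oth v h1 h2).2, (hL.oth _ h1' h2').1, (hL.oth _ h1' h2').2, m1, m2]
    exact ⟨h.two v hv, h.two v hv⟩
  have hcase : ∀ v ∈ R ∪ {x, I.e x}, v = x ∨ v = I.e x ∨ v = I.r x ∨ v = I.r (I.r x) ∨
      (v ∈ R ∧ ¬ I.vt x v ∧ ¬ I.vt (I.e x) v) := by
    rintro v (hv | hv | hv)
    · by_cases h1 : I.vt x v
      · rcases h1 with h1 | h1 | h1
        · exact Or.inl h1
        · exact Or.inr (Or.inr (Or.inl h1))
        · exact Or.inr (Or.inr (Or.inr (Or.inl h1)))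
      · by_cases h2 : I.vt (I.e x) v
        · rcases h2 with h2 | h2 | h2
          · exact absurd (h2 ▸ hv) ny
          · exact absurd (h2 ▸ hv) nc
          · exact absurd (h2 ▸ hv) nd
        · exact Or.inr (Or.inr (Or.inr (Or.inr ⟨hv, h1, h2⟩)))
    · exact Or.inl hv
    · exact Or.inr (Or.inl hv)
  have he : ∀ v ∈ R ∪ {x, I.e x}, I.e v ∈ R ∪ {x, I.e x} := by
    rintro v (hv | hv | hv)
    · exact Or.inl (h.e v hv)
    · rw [hv]
      exact my
    · have hv' : v = I.e x := hv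
      rw [hv', I.e2]
      exact mx
  simp only [List.nodup_cons, List.mem_cons, List.not_mem_nil, or_false, not_or,
    not_false_eq_true, and_true, List.nodup_nil] at hnd
  obtain ⟨⟨n1, n2, n3, n4, n5⟩, ⟨n6, n7, n8, n9⟩, ⟨n10, n11, n12⟩, ⟨n13, n14⟩, n15⟩ := hnd
  have ma : I.r x ∈ R ∪ {x, I.e x} := Or.inl ha
  have mb : I.r (I.r x) ∈ R ∪ {x, I.e x} := Or.inl hb
  have mc : I.r (I.e x) ∉ R ∪ {x, I.e x} := fun h' => nc ((hmem _ (Ne.symm n4) (Ne.symm n8)).1 h')
  have md : I.r (I.r (I.e x)) ∉ R ∪ {x, I.e x} := fun h' =>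
    nd ((hmem _ (Ne.symm n5) (Ne.symm n9)).1 h')
  constructor
  · refine ⟨fun v hv => by rw [hL.eJ]; exact he v hv, fun v hv => ?_⟩
    rcases hcase v hv with h1 | h1 | h1 | h1 | ⟨h1, h2, h3⟩
    · rw [h1, j1, j2]
      exact Or.inl ⟨mb, mc⟩
    · rw [h1, j4, j5]
      exact Or.inr ⟨md, ma⟩
    · rw [h1, j6, j4]
      exact Or.inl ⟨my, md⟩
    · rw [h1, j2, j3]
      exact Or.inr ⟨mc, mx⟩
    · exact (hout v h1 h2 h3).1
  · refine ⟨fun v hv => by rw [hL.eX]; exact he v hv, fun v hv => ?_⟩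
    rcases hcase v hv with h1 | h1 | h1 | h1 | ⟨h1, h2, h3⟩
    · rw [h1, x1, x2]
      exact Or.inl ⟨ma, mc⟩
    · rw [h1, x4, x5]
      exact Or.inr ⟨md, mb⟩
    · rw [h1, x2, x3]
      exact Or.inr ⟨mc, mx⟩
    · rw [h1, x6, x4]
      exact Or.inl ⟨my, md⟩
    · exact (hout v h1 h2 h3).2

/-- If the third edge of every vertex of the cycle leads to a leg or to another vertex of the cycle
then there is no cherry. -/
theorem nocherry_of_cy {G : Gr V n} {R : Set V} (hG : GConn G) (h : Cy G R) (hne : R.Nonempty)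
    (ht : ∀ v, v ∉ R → G.r v ∈ R → On G R (G.e v) ∨ G.r (G.e v) = G.e v) : NoCherry G := by
  have huniv : {v | On G R v ∨ (G.r v = v ∧ On G R (G.e v))} = Set.univ := by
    refine hG _ ⟨?_, ?_⟩ ?_
    · rintro v (hv | ⟨h1, h2⟩)
      · by_cases hR : v ∈ R
        · exact Or.inl (Or.inl (h.e v hR))
        · have h1 : G.r v ∈ R := hv.resolve_left hR
          rcases ht v hR h1 with h2 | h2
          · exact Or.inl h2
          · refine Or.inr ⟨h2, ?_⟩
            rw [G.e2]
            exact hv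
      · exact Or.inl h2
    · rintro v (hv | ⟨h1, h2⟩)
      · exact Or.inl (h.on_r.2 hv)
      · rw [h1]
        exact Or.inr ⟨h1, h2⟩
    · obtain ⟨v, hv⟩ := hne
      exact ⟨v, Or.inl (Or.inl hv)⟩
  have hxe : ∀ i, xe G i ∉ R := by
    intro i hi
    have h1 := h.e _ hi
    rw [e_xe] at h1
    exact h.ne_leg h1 (G.r_leg i)
  rintro i j ⟨hij, hc⟩
  have hc' : G.r (xe G i) = xe G j := hc
  have h1 : xe G i ∈ {v | On G R v ∨ (G.r v = v ∧ On G R (G.e v))} := by rw [huniv]; trivial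
  rcases h1 with h1 | ⟨h1, _⟩
  · have h2 := h1.resolve_left (hxe i)
    rw [hc'] at h2
    exact hxe j h2
  · rw [h1] at hc'
    exact hij (xe_inj G hc')

/-- **Induction on the length of the rim.** -/
theorem rim_induction [Finite V] (P : Gr V n → Set V → Prop)
    (base : ∀ G R, GConn G → NoCherry G → Cy G R → R.Nonempty → P G R)
    (step : ∀ I J X x R, GConn I → Cy I R → Gr.Loc I J X x → x ∉ R → I.r x ∈ R →
      ¬ On I R (I.e x) → P J (R ∪ {x, I.e x}) → P X (R ∪ {x, I.e x}) → P I R)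
    {G : Gr V n} {R : Set V} (hG : GConn G) (hR : Cy G R) (hne : R.Nonempty) : P G R := by
  have key : ∀ m : ℕ, ∀ (G : Gr V n) (R : Set V), (Rᶜ).ncard = m → GConn G → Cy G R →
      R.Nonempty → P G R := by
    intro m
    induction m using Nat.strong_induction_on with
    | _ m ih =>
      intro G R hm hG hR hne
      by_cases ht : ∀ v, v ∉ R → G.r v ∈ R → On G R (G.e v) ∨ G.r (G.e v) = G.e v
      · exact base G R hG (nocherry_of_cy hG hR hne ht) hR hne
      · push Not at ht
        obtain ⟨x, hx, ha, hy, hy2⟩ := ht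
        have hb := hR.rr_of hx ha
        have hok : Gr.Ok G x := by
          refine ⟨fun h1 => hx (h1 ▸ ha), hy2, fun h1 => ?_, fun h1 => ?_⟩
          · apply hx
            rw [← hR.e_iff, h1]
            exact ha
          · apply hx
            rw [← hR.e_iff, h1]
            exact hb
        obtain ⟨J, X, hL⟩ := SWT36.exists_loc hok
        obtain ⟨hJ, hX⟩ := hR.loc hL hx ha hy
        have hlt : ((R ∪ {x, G.e x})ᶜ).ncard < m := by
          rw [← hm]
          apply Set.ncard_lt_ncard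
          · refine ⟨?_, fun h1 => ?_⟩
            · exact Set.compl_subset_compl.2 Set.subset_union_left
            · have h2 : x ∈ (R ∪ {x, G.e x})ᶜ := h1 hx
              exact h2 (Or.inr (Or.inl rfl))
          · exact Set.toFinite _
        have hne' : (R ∪ {x, G.e x}).Nonempty := ⟨x, Or.inr (Or.inl rfl)⟩
        exact step G J X x R hG hR hL hx ha hy
          (ih _ hlt J _ rfl ((gconn_loc hL).1.2 hG) hJ hne')
          (ih _ hlt X _ rfl ((gconn_loc hL).2.2 hG) hX hne')
  exact key _ G R rfl hG hR hne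

/-! ### Existence of a cycle -/

/-- One half-edge of every edge. -/
theorem exists_half [Fintype V] [DecidableEq V] (e : Perm V) (e2 : ∀ v, e (e v) = v)
    (e1 : ∀ v, e v ≠ v) : ∃ P : Finset V, (∀ v, v ∈ P ↔ e v ∉ P) ∧ 2 * P.card = Fintype.card V := by
  classical
  let f := Fintype.equivFin V
  refine ⟨Finset.univ.filter fun v => f v < f (e v), ?_, ?_⟩
  · intro v
    simp only [Finset.mem_filter, Finset.mem_univ, true_and, e2, not_lt]
    constructor
    · exact fun h => h.le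
    · intro h
      exact lt_of_le_of_ne h fun h1 => e1 v (f.injective h1).symm
  · have h1 : (Finset.univ.filter fun v => f v < f (e v)).card =
        (Finset.univ.filter fun v => ¬ f v < f (e v)).card := by
      apply Finset.card_bij (fun v _ => e v)
      · intro v hv
        simp only [Finset.mem_filter, Finset.mem_univ, true_and, e2, not_lt] at hv ⊢
        exact hv.le
      · intro v _ w _ h
        exact e.injective h
      · intro v hv
        simp only [Finset.mem_filter, Finset.mem_univ, true_and, not_lt] at hv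
        refine ⟨e v, ?_, e2 v⟩
        simp only [Finset.mem_filter, Finset.mem_univ, true_and, e2]
        exact lt_of_le_of_ne hv fun h1 => e1 v (f.injective h1)
    have h2 := Finset.card_filter_add_card_filter_not (s := (Finset.univ : Finset V))
      (fun v => f v < f (e v))
    rw [Finset.card_univ] at h2
    omega

theorem sum_vertices [Fintype V] [DecidableEq V] (G : Gr V n) {Q : Finset V}
    (hQ : SWT45.IsRep G.r Q) {A : Type} [AddCommMonoid A] (F : V → A) :
    ∑ v, F v = ∑ v ∈ Q, (F v + F (G.r v) + F (G.r (G.r v))) + ∑ i, F (G.leg i) := by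
  classical
  have hrne : ∀ v ∈ Q, G.r v ≠ v := hQ.nf
  let ψ : (Q × Fin 3) ⊕ Fin n → V
    | Sum.inl (v, 0) => v
    | Sum.inl (v, 1) => G.r v
    | Sum.inl (v, 2) => G.r (G.r v)
    | Sum.inr i => G.leg i
  have hnl : ∀ (v : Q) (k : Fin 3) (i : Fin n), ψ (Sum.inl (v, k)) ≠ G.leg i := by
    intro v k i h
    have h0 := hrne v v.2
    fin_cases k
    · have h' : (v : V) = G.leg i := h
      rw [h'] at h0
      exact h0 (G.r_leg i)
    · have h' : G.r (v : V) = G.leg i := h
      have h1 : G.r (G.r (v : V)) = G.r v := by rw [h', G.r_leg]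
      exact h0 (G.r_inj h1)
    · have h' : G.r (G.r (v : V)) = G.leg i := h
      have h1 : G.r (G.r (G.r (v : V))) = G.r (G.r v) := by rw [h', G.r_leg]
      exact h0 (G.r_inj (G.r_inj h1))
  have hQ1 : ∀ v w : Q, G.r (v : V) ≠ w := fun v w h => (hQ.un v v.2).1 (h ▸ w.2)
  have hQ2 : ∀ v w : Q, G.r (G.r (v : V)) ≠ w := fun v w h => (hQ.un v v.2).2 (h ▸ w.2)
  have hb : Function.Bijective ψ := by
    constructor
    · rintro (⟨v, k⟩ | i) (⟨w, l⟩ | j) h
      · fin_cases k <;> fin_cases l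
        · have h' : (v : V) = w := h
          rw [Subtype.ext h']
        · exact absurd (show G.r (w : V) = v from h.symm) (hQ1 w v)
        · exact absurd (show G.r (G.r (w : V)) = v from h.symm) (hQ2 w v)
        · exact absurd (show G.r (v : V) = w from h) (hQ1 v w)
        · have h' : G.r (v : V) = G.r w := h
          rw [Subtype.ext (G.r_inj h')]
        · have h' : G.r (v : V) = G.r (G.r w) := h
          exact absurd (G.r_inj h').symm (hQ1 w v)
        · exact absurd (show G.r (G.r (v : V)) = w from h) (hQ2 v w)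
        · have h' : G.r (G.r (v : V)) = G.r w := h
          exact absurd (G.r_inj h') (hQ1 v w)
        · have h' : G.r (G.r (v : V)) = G.r (G.r w) := h
          rw [Subtype.ext (G.r_inj (G.r_inj h'))]
      · exact absurd h (hnl v k j)
      · exact absurd h.symm (hnl w l i)
      · exact congrArg Sum.inr (G.inj h)
    · intro v
      by_cases hv : G.r v = v
      · obtain ⟨i, hi⟩ := (G.fix v).1 hv
        exact ⟨Sum.inr i, hi⟩
      · rcases hQ.ex v hv with h | h | h
        · exact ⟨Sum.inl (⟨v, h⟩, 0), rfl⟩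
        · exact ⟨Sum.inl (⟨G.r v, h⟩, 2), G.r3 v⟩
        · exact ⟨Sum.inl (⟨G.r (G.r v), h⟩, 1), G.r3 v⟩
  have h1 : ∑ v, F v = ∑ t, F (ψ t) := (Function.Bijective.sum_comp hb F).symm
  rw [h1, Fintype.sum_sum_type, Fintype.sum_prod_type]
  congr 1
  rw [← Finset.sum_coe_sort Q fun v => F v + F (G.r v) + F (G.r (G.r v))]
  refine Finset.sum_congr rfl fun v _ => ?_
  rw [Fin.sum_univ_three]

theorem card_vertices [Fintype V] [DecidableEq V] (G : Gr V n) {Q : Finset V}
    (hQ : SWT45.IsRep G.r Q) : Fintype.card V = 3 * Q.card + n := by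
  have h := sum_vertices G hQ (fun _ => (1 : ℕ))
  simp only [Finset.sum_const, Finset.card_univ, smul_eq_mul, mul_one, Fintype.card_fin] at h
  rw [h]
  ring

/-- **A graph with at least `4 n` half-edges (`n` the number of legs) has a cycle.** -/
theorem exists_cy [Finite V] (G : Gr V (n + 1)) (hV : 4 * (n + 1) ≤ Nat.card V) :
    ∃ R : Set V, R.Nonempty ∧ Cy G R := by
  classical
  have : Fintype V := Fintype.ofFinite V
  rw [Nat.card_eq_fintype_card] at hV
  obtain ⟨P, hP, hPc⟩ := exists_half G.e G.e2 G.e1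
  obtain ⟨Q, hQ⟩ := SWT58.exists_rep G.r G.r3
  have hQc := card_vertices G hQ
  -- extension of a function on `P`
  let ex : (P → ZMod 2) → V → ZMod 2 := fun f v =>
    if h : v ∈ P then f ⟨v, h⟩ else if h : G.e v ∈ P then f ⟨G.e v, h⟩ else 0
  have hexe : ∀ f v, ex f (G.e v) = ex f v := by
    intro f v
    by_cases h : v ∈ P
    · have h2 : G.e v ∉ P := (hP v).1 h
      have h3 : G.e (G.e v) ∈ P := by rw [G.e2]; exact h
      show (if h : G.e v ∈ P then f ⟨G.e v, h⟩ else
        if h : G.e (G.e v) ∈ P then f ⟨G.e (G.e v), h⟩ else 0) = _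
      rw [dif_neg h2, dif_pos h3]
      show _ = (if h : v ∈ P then f ⟨v, h⟩ else if h : G.e v ∈ P then f ⟨G.e v, h⟩ else 0)
      rw [dif_pos h]
      congr 1
      exact Subtype.ext (G.e2 v)
    · have h2 : G.e v ∈ P := by
        by_contra h3
        exact h ((hP v).2 h3)
      show (if h : G.e v ∈ P then f ⟨G.e v, h⟩ else
        if h : G.e (G.e v) ∈ P then f ⟨G.e (G.e v), h⟩ else 0) =
        (if h : v ∈ P then f ⟨v, h⟩ else if h : G.e v ∈ P then f ⟨G.e v, h⟩ else 0)
      rw [dif_pos h2, dif_neg h, dif_pos h2]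
  have hadd : ∀ f g v, ex (f + g) v = ex f v + ex g v := by
    intro f g v
    show (if h : v ∈ P then (f + g) ⟨v, h⟩ else if h : G.e v ∈ P then (f + g) ⟨G.e v, h⟩ else 0) =
      (if h : v ∈ P then f ⟨v, h⟩ else if h : G.e v ∈ P then f ⟨G.e v, h⟩ else 0) +
      (if h : v ∈ P then g ⟨v, h⟩ else if h : G.e v ∈ P then g ⟨G.e v, h⟩ else 0)
    split_ifs
    · rfl
    · rfl
    · rw [add_zero]
  have hsmul : ∀ (c : ZMod 2) f v, ex (c • f) v = c * ex f v := by
    intro c f v
    show (if h : v ∈ P then (c • f) ⟨v, h⟩ else if h : G.e v ∈ P then (c • f) ⟨G.e v, h⟩ else 0) =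
      c * (if h : v ∈ P then f ⟨v, h⟩ else if h : G.e v ∈ P then f ⟨G.e v, h⟩ else 0)
    split_ifs
    · rfl
    · rfl
    · rw [mul_zero]
  let D : (P → ZMod 2) →ₗ[ZMod 2] (Q ⊕ Fin n → ZMod 2) :=
    { toFun := fun f t => match t with
        | Sum.inl v => ex f v + ex f (G.r v) + ex f (G.r (G.r v))
        | Sum.inr i => ex f (G.leg i.succ)
      map_add' := fun f g => by
        funext t
        rcases t with v | i
        · show ex (f + g) v + ex (f + g) (G.r v) + ex (f + g) (G.r (G.r v)) =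
            (ex f v + ex f (G.r v) + ex f (G.r (G.r v))) +
              (ex g v + ex g (G.r v) + ex g (G.r (G.r v)))
          rw [hadd, hadd, hadd]
          ring
        · exact hadd f g _
      map_smul' := fun c f => by
        funext t
        rcases t with v | i
        · show ex (c • f) v + ex (c • f) (G.r v) + ex (c • f) (G.r (G.r v)) =
            c * (ex f v + ex f (G.r v) + ex f (G.r (G.r v)))
          rw [hsmul, hsmul, hsmul]
          ring
        · exact hsmul c f _ }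
  have hker : LinearMap.ker D ≠ ⊥ := by
    apply LinearMap.ker_ne_bot_of_finrank_lt
    rw [Module.finrank_pi, Module.finrank_pi, Fintype.card_sum, Fintype.card_coe,
      Fintype.card_coe, Fintype.card_fin]
    omega
  obtain ⟨f, hf, hf0⟩ := (Submodule.ne_bot_iff _).1 hker
  rw [LinearMap.mem_ker] at hf
  have hq : ∀ v ∈ Q, ex f v + ex f (G.r v) + ex f (G.r (G.r v)) = 0 := fun v hv =>
    congrFun hf (Sum.inl ⟨v, hv⟩)
  have hl' : ∀ i : Fin n, ex f (G.leg i.succ) = 0 := fun i => congrFun hf (Sum.inr i)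
  have htot : ∑ v, ex f v = 0 := by
    have h1 : ∑ v, ex f v = ∑ v ∈ P, ex f v + ∑ v ∈ P, ex f v := by
      have h2 : ∑ v, ex f v = ∑ v ∈ P, ex f v + ∑ v ∈ Pᶜ, ex f v :=
        (Finset.sum_add_sum_compl P _).symm
      rw [h2]
      congr 1
      apply Finset.sum_bij (fun v _ => G.e v)
      · intro v hv
        rw [Finset.mem_compl] at hv
        by_contra h3
        exact hv ((hP v).2 h3)
      · intro v _ w _ h
        exact G.e_inj h
      · intro v hv
        refine ⟨G.e v, ?_, G.e2 v⟩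
        rw [Finset.mem_compl]
        exact (hP v).1 hv
      · intro v _
        exact (hexe f v).symm
    rw [h1]
    exact CharTwo.add_self_eq_zero _
  have hl0 : ex f (G.leg 0) = 0 := by
    have h1 := sum_vertices G hQ (ex f)
    rw [htot, Fin.sum_univ_succ] at h1
    have h2 : ∑ v ∈ Q, (ex f v + ex f (G.r v) + ex f (G.r (G.r v))) = 0 :=
      Finset.sum_eq_zero hq
    have h3 : ∑ i : Fin n, ex f (G.leg i.succ) = 0 := Finset.sum_eq_zero fun i _ => hl' i
    rw [h2, h3, zero_add, add_zero] at h1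
    exact h1.symm
  have hleg : ∀ v, G.r v = v → ex f v = 0 := by
    intro v hv
    obtain ⟨i, rfl⟩ := (G.fix v).1 hv
    refine Fin.cases ?_ (fun i => ?_) i
    · exact hl0
    · exact hl' i
  have hv3 : ∀ v, G.r v ≠ v → ex f v + ex f (G.r v) + ex f (G.r (G.r v)) = 0 := by
    intro v hv
    rcases hQ.ex v hv with h | h | h
    · exact hq v h
    · have h1 := hq _ h
      rw [G.r3] at h1
      rw [← h1]
      ring
    · have h1 := hq _ h
      rw [G.r3] at h1
      rw [← h1]
      ring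
  have hdec : ∀ a b : ZMod 2, 1 + a + b = 0 → (a = 1 ∧ ¬ b = 1) ∨ (¬ a = 1 ∧ b = 1) := by decide
  refine ⟨{v | ex f v = 1}, ?_, ?_, ?_⟩
  · by_contra hno
    rw [Set.not_nonempty_iff_eq_empty] at hno
    apply hf0
    funext v
    have h1 : ex f v ≠ 1 := fun h2 => by
      have h3 : (v : V) ∈ {v | ex f v = 1} := h2
      rw [hno] at h3
      exact h3
    have h2 : ex f v = f v := dif_pos v.2
    rw [h2] at h1
    have h4 : ∀ a : ZMod 2, a ≠ 1 → a = 0 := by decide
    exact h4 _ h1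
  · intro v hv
    show ex f (G.e v) = 1
    rw [hexe]
    exact hv
  · intro v hv
    have hv' : ex f v = 1 := hv
    have hne : G.r v ≠ v := fun h => by
      rw [hleg v h] at hv'
      exact absurd hv' (by decide)
    have h1 := hv3 v hne
    rw [hv'] at h1
    exact hdec _ _ h1

end Pool.Agent.SWT84
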