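import Pool.Agent.SWT84.Loop

/-!
# Insertion of a leg into the standard wheel
-/

set_option autoImplicit false

namespace Pool.Agent.SWT84

open Equiv Pool.Agent.SWT49 Pool.Agent.SWT80 Pool.Agent.SWT93 Pool.Agent.SWT65

variable {V W M : Type} {n m : ℕ} [AddCommGroup M]

theorem rot_castSucc (i : Fin (m + 1)) : finRotate (m + 2) i.castSucc = i.succ := by
  apply Fin.ext
  have h2 := i.2
  rw [c_val, Fin.val_castSucc, Fin.val_succ, Nat.mod_eq_of_lt (by omega)]

theorem rot_last : finRotate (m + 1) (Fin.last m) = 0 := by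
  apply Fin.ext
  rw [c_val]
  simp

theorem rot_symm_zero : (finRotate (m + 1)).symm 0 = Fin.last m := by
  rw [Equiv.symm_apply_eq, rot_last]

/-- The word with the new letter `0` at the end. -/
def kp (k : Perm (Fin (m + 1))) : Perm (Fin (m + 2)) :=
  (Equiv.Perm.decomposeFin.symm (0, k)) * finRotate (m + 2)

theorem kp_last (k : Perm (Fin (m + 1))) : kp k (Fin.last (m + 1)) = 0 := by
  unfold kp
  rw [Perm.mul_apply, rot_last]
  simp

theorem kp_castSucc (k : Perm (Fin (m + 1))) (i : Fin (m + 1)) :
    kp k i.castSucc = (k i).succ := by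
  unfold kp
  rw [Perm.mul_apply, rot_castSucc]
  simp

/-- The half-edges of the wheel with one more leg. -/
def insF (m : ℕ) : WT m ⊕ Fin 4 → WT (m + 1)
  | Sum.inl (Sum.inl (i, t)) => Sum.inl (i.castSucc, t)
  | Sum.inl (Sum.inr i) => Sum.inr i.castSucc
  | Sum.inr 0 => Sum.inl (Fin.last (m + 1), 1)
  | Sum.inr 1 => Sum.inl (Fin.last (m + 1), 2)
  | Sum.inr 2 => Sum.inl (Fin.last (m + 1), 0)
  | Sum.inr 3 => Sum.inr (Fin.last (m + 1))

theorem insF_inj : Function.Injective (insF m) := by
  have hl : ∀ i : Fin (m + 1), i.castSucc ≠ Fin.last (m + 1) := fun i => Fin.castSucc_ne_last i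
  have hl' : ∀ i : Fin (m + 1), Fin.last (m + 1) ≠ i.castSucc := fun i => (hl i).symm
  rintro ((⟨i, t⟩ | i) | a) ((⟨j, s⟩ | j) | b) h
  · have h' : (Sum.inl (i.castSucc, t) : WT (m + 1)) = Sum.inl (j.castSucc, s) := h
    have h1 : i = j ∧ t = s := by simpa using h'
    rw [h1.1, h1.2]
  · have h' : (Sum.inl (i.castSucc, t) : WT (m + 1)) = Sum.inr j.castSucc := h
    simp at h'
  · fin_cases b
    · have h' : (Sum.inl (i.castSucc, t) : WT (m + 1)) = Sum.inl (Fin.last (m + 1), 1) := h
      simp [hl] at h'
    · have h' : (Sum.inl (i.castSucc, t) : WT (m + 1)) = Sum.inl (Fin.last (m + 1), 2) := h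
      simp [hl] at h'
    · have h' : (Sum.inl (i.castSucc, t) : WT (m + 1)) = Sum.inl (Fin.last (m + 1), 0) := h
      simp [hl] at h'
    · have h' : (Sum.inl (i.castSucc, t) : WT (m + 1)) = Sum.inr (Fin.last (m + 1)) := h
      simp at h'
  · have h' : (Sum.inr i.castSucc : WT (m + 1)) = Sum.inl (j.castSucc, s) := h
    simp at h'
  · have h' : (Sum.inr i.castSucc : WT (m + 1)) = Sum.inr j.castSucc := h
    have h1 : i = j := by simpa using h'
    rw [h1]
  · fin_cases b
    · have h' : (Sum.inr i.castSucc : WT (m + 1)) = Sum.inl (Fin.last (m + 1), 1) := h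
      simp at h'
    · have h' : (Sum.inr i.castSucc : WT (m + 1)) = Sum.inl (Fin.last (m + 1), 2) := h
      simp at h'
    · have h' : (Sum.inr i.castSucc : WT (m + 1)) = Sum.inl (Fin.last (m + 1), 0) := h
      simp at h'
    · have h' : (Sum.inr i.castSucc : WT (m + 1)) = Sum.inr (Fin.last (m + 1)) := h
      simp [hl] at h'
  · fin_cases a
    · have h' : (Sum.inl (Fin.last (m + 1), 1) : WT (m + 1)) = Sum.inl (j.castSucc, s) := h
      simp [hl'] at h'
    · have h' : (Sum.inl (Fin.last (m + 1), 2) : WT (m + 1)) = Sum.inl (j.castSucc, s) := h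
      simp [hl'] at h'
    · have h' : (Sum.inl (Fin.last (m + 1), 0) : WT (m + 1)) = Sum.inl (j.castSucc, s) := h
      simp [hl'] at h'
    · have h' : (Sum.inr (Fin.last (m + 1)) : WT (m + 1)) = Sum.inl (j.castSucc, s) := h
      simp at h'
  · fin_cases a
    · have h' : (Sum.inl (Fin.last (m + 1), 1) : WT (m + 1)) = Sum.inr j.castSucc := h
      simp at h'
    · have h' : (Sum.inl (Fin.last (m + 1), 2) : WT (m + 1)) = Sum.inr j.castSucc := h
      simp at h'
    · have h' : (Sum.inl (Fin.last (m + 1), 0) : WT (m + 1)) = Sum.inr j.castSucc := h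
      simp at h'
    · have h' : (Sum.inr (Fin.last (m + 1)) : WT (m + 1)) = Sum.inr j.castSucc := h
      simp [hl'] at h'
  · congr 1
    fin_cases a <;> fin_cases b <;> first | rfl | (simp [insF] at h)

/-- The half-edges of the wheel with one more leg. -/
noncomputable def insE (m : ℕ) : WT m ⊕ Fin 4 ≃ WT (m + 1) :=
  Equiv.ofBijective (insF m) ((Fintype.bijective_iff_injective_and_card _).2
    ⟨insF_inj, by
      simp only [Fintype.card_sum, Fintype.card_prod, Fintype.card_fin]
      omega⟩)

theorem insE_apply (v : WT m ⊕ Fin 4) : insE m v = insF m v := rfl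

/-- **Insertion at the end.** -/
theorem ins_eq (k : Perm (Fin (m + 1))) :
    (add (k • W0 m) 0 (Sum.inl (0, 2))).map (insE m) = kp k • W0 (m + 1) := by
  have h2 : (Sum.inl ((finRotate (m + 1)).symm 0, 1) : WT m) = Sum.inl (Fin.last m, 1) := by
    rw [rot_symm_zero]
  have heh : (k • W0 m).e (Sum.inl (0, 2)) = Sum.inl (Fin.last m, 1) := h2
  refine Gr.map_eq ?_ ?_ ?_
  · rintro ((⟨i, t⟩ | i) | a)
    · fin_cases t
      · show we (m + 1) (insF m (Sum.inl (Sum.inl (i, 0)))) = insF m (addE _ _ (Sum.inl (Sum.inl (i, 0))))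
        rw [addE_o (k • W0 m) (h := Sum.inl (0, 2)) (v := Sum.inl (i, 0)) (by simp)
          (by rw [heh]; simp)]
        rfl
      · show we (m + 1) (insF m (Sum.inl (Sum.inl (i, 1)))) = insF m (addE _ _ (Sum.inl (Sum.inl (i, 1))))
        by_cases hi : i = Fin.last m
        · have e1 := addE_eh (k • W0 m) (Sum.inl (0, 2))
          rw [heh] at e1
          rw [hi, e1]
          show (Sum.inl (finRotate (m + 2) (Fin.last m).castSucc, 2) : WT (m + 1)) =
            Sum.inl (Fin.last (m + 1), 2)
          rw [rot_castSucc]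
          rfl
        · rw [addE_o (k • W0 m) (h := Sum.inl (0, 2)) (v := Sum.inl (i, 1)) (by simp)
            (by rw [heh]; simpa using hi)]
          show (Sum.inl (finRotate (m + 2) i.castSucc, 2) : WT (m + 1)) =
            Sum.inl ((finRotate (m + 1) i).castSucc, 2)
          rw [rot_castSucc]
          have e2 : i.succ = (finRotate (m + 1) i).castSucc := by
            apply Fin.ext
            have h3 := i.2
            have h4 : i.val ≠ m := fun h => hi (Fin.ext h)
            rw [Fin.val_succ, Fin.val_castSucc, c_val, Nat.mod_eq_of_lt (by omega)]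
          rw [e2]
      · show we (m + 1) (insF m (Sum.inl (Sum.inl (i, 2)))) = insF m (addE _ _ (Sum.inl (Sum.inl (i, 2))))
        by_cases hi : i = 0
        · rw [hi, addE_h]
          show (Sum.inl ((finRotate (m + 2)).symm (0 : Fin (m + 1)).castSucc, 1) : WT (m + 1)) =
            Sum.inl (Fin.last (m + 1), 1)
          rw [Fin.castSucc_zero, rot_symm_zero]
        · rw [addE_o (k • W0 m) (h := Sum.inl (0, 2)) (v := Sum.inl (i, 2))
            (by simpa using hi) (by rw [heh]; simp)]
          show (Sum.inl ((finRotate (m + 2)).symm i.castSucc, 1) : WT (m + 1)) =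
            Sum.inl (((finRotate (m + 1)).symm i).castSucc, 1)
          have e2 : (finRotate (m + 2)).symm i.castSucc = ((finRotate (m + 1)).symm i).castSucc := by
            rw [Equiv.symm_apply_eq, rot_castSucc]
            obtain ⟨j, hj⟩ := (finRotate (m + 1)).surjective i
            rw [← hj, Equiv.symm_apply_apply]
            apply Fin.ext
            rw [Fin.val_castSucc, Fin.val_succ, c_val]
            have h3 := j.2
            have h4 : j.val ≠ m := by
              intro h
              apply hi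
              have h5 : j = Fin.last m := Fin.ext h
              rw [← hj, h5, rot_last]
            rw [Nat.mod_eq_of_lt (by omega)]
          rw [e2]
    · show we (m + 1) (insF m (Sum.inl (Sum.inr i))) = insF m (addE _ _ (Sum.inl (Sum.inr i)))
      rw [addE_o (k • W0 m) (h := Sum.inl (0, 2)) (v := Sum.inr i) (by simp)
          (by rw [heh]; simp)]
      rfl
    · fin_cases a
      · show (Sum.inl (finRotate (m + 2) (Fin.last (m + 1)), 2) : WT (m + 1)) =
          Sum.inl ((0 : Fin (m + 1)).castSucc, 2)
        rw [rot_last]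
        rfl
      · show (Sum.inl ((finRotate (m + 2)).symm (Fin.last (m + 1)), 1) : WT (m + 1)) =
          insF m (Sum.inl ((k • W0 m).e (Sum.inl (0, 2))))
        rw [heh]
        show _ = (Sum.inl ((Fin.last m).castSucc, 1) : WT (m + 1))
        have e2 : (finRotate (m + 2)).symm (Fin.last (m + 1)) = (Fin.last m).castSucc := by
          rw [Equiv.symm_apply_eq, rot_castSucc]
          rfl
        rw [e2]
      · rfl
      · rfl
  · rintro ((⟨i, t⟩ | i) | a)
    · fin_cases t <;> rfl
    · rfl
    · fin_cases a <;> rfl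
  · intro j
    show (Sum.inr ((kp k).symm j) : WT (m + 1)) = insF m (addL (k • W0 m) 0 j)
    refine Fin.cases ?_ (fun i => ?_) j
    · rw [addL_new]
      show (Sum.inr ((kp k).symm 0) : WT (m + 1)) = Sum.inr (Fin.last (m + 1))
      have e1 : (kp k).symm 0 = Fin.last (m + 1) := by rw [Equiv.symm_apply_eq, kp_last]
      rw [e1]
    · have e0 : i.succ = (0 : Fin (m + 2)).succAbove i := rfl
      rw [e0, addL_old, ← e0]
      show (Sum.inr ((kp k).symm i.succ) : WT (m + 1)) = Sum.inr (k.symm i).castSucc
      have e1 : (kp k).symm i.succ = (k.symm i).castSucc := by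
        rw [Equiv.symm_apply_eq, kp_castSucc, Equiv.apply_symm_apply]
      rw [e1]

/-! ### Calculus of `add` -/

theorem add_map (f : V ≃ W) (G : Gr V n) (j : Fin (n + 1)) (h : V) :
    (add G j h).map (Equiv.sumCongr f (Equiv.refl (Fin 4))) = add (G.map f) j (f h) := by
  refine Gr.map_eq ?_ ?_ ?_
  · rintro (v | a)
    · show addE (G.map f) (f h) (Sum.inl (f v)) = Equiv.sumCongr f (Equiv.refl (Fin 4)) (addE G h (Sum.inl v))
      by_cases h1 : v = h
      · rw [h1, addE_h, addE_h]
        rfl
      by_cases h2 : v = G.e h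
      · have e1 := addE_eh (G.map f) (f h)
        rw [Gr.map_e] at e1
        rw [h2, addE_eh, e1]
        rfl
      rw [addE_o G h1 h2, addE_o (G.map f) (fun h3 => h1 (f.injective h3))
        (fun h3 => h2 (f.injective (by rw [h3, Gr.map_e]))), Gr.map_e]
      rfl
    · fin_cases a
      · rfl
      · show (Sum.inl ((G.map f).e (f h)) : W ⊕ Fin 4) = Sum.inl (f (G.e h))
        rw [Gr.map_e]
      · rfl
      · rfl
  · rintro (v | a)
    · show (Sum.inl ((G.map f).r (f v)) : W ⊕ Fin 4) = Sum.inl (f (G.r v))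
      rw [Gr.map_r]
    · fin_cases a <;> rfl
  · intro i
    show addL (G.map f) j i = Equiv.sumCongr f (Equiv.refl (Fin 4)) (addL G j i)
    rcases Fin.eq_self_or_eq_succAbove j i with rfl | ⟨i, rfl⟩
    · rw [addL_new, addL_new]
      rfl
    · rw [addL_old, addL_old]
      rfl

end Pool.Agent.SWT84
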