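import Pool.Agent.SWT36.Cherry
import Pool.Agent.SWT84.Ins

/-!
# The rim as a flow: moving a leg around a wheel
-/

set_option autoImplicit false

namespace Pool.Agent.SWT84

open Equiv Pool.Agent.SWT49 Pool.Agent.SWT80 Pool.Agent.SWT93 Pool.Agent.SWT65
open scoped Classical

variable {V W M : Type} {n m : ℕ} [AddCommGroup M]

/-- A functional of the wheels with four special labels `q j` (in the wheels with one leg less). -/
structure FlowD (D : (V : Type) → Gr V (m + 2) → M) (q : Fin 4 → Fin (m + 1)) : Prop where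
  rel : Rel D
  inv : ∀ (V : Type) [Finite V] (T : Gr V (m + 2)) (g : Perm (Fin (m + 2))),
    (∀ j, g (q j).succ = (q j).succ) → D V (g • T) = D V T
  ade : ∀ (K : Gr (WT m) (m + 1)) (h : WT m), D _ (add K 0 (K.e h)) = - D _ (add K 0 h)
  adv : ∀ (K : Gr (WT m) (m + 1)) (h : WT m), K.r h ≠ h →
    D _ (add K 0 h) + D _ (add K 0 (K.r h)) + D _ (add K 0 (K.r (K.r h))) = 0
  tv : ∀ k : Perm (Fin (m + 1)), D _ (add (k • W0 m) 0 (Sum.inl (k.symm (q 2), 0))) +
    D _ (add (k • W0 m) 0 (Sum.inl (k.symm (q 3), 0))) = 0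
  tf : ∀ x : M, x + x = 0 → x = 0

variable {D : (V : Type) → Gr V (m + 2) → M} {q : Fin 4 → Fin (m + 1)}

/-- The value with the new leg before the position `i`. -/
noncomputable def psi0 (D : (V : Type) → Gr V (m + 2) → M) (k : Perm (Fin (m + 1)))
    (i : Fin (m + 1)) : M := D _ (add (k • W0 m) 0 (Sum.inl (i, 2)))

/-- The value with the new leg at the leg at the position `i`. -/
noncomputable def fx0 (D : (V : Type) → Gr V (m + 2) → M) (k : Perm (Fin (m + 1)))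
    (i : Fin (m + 1)) : M := D _ (add (k • W0 m) 0 (Sum.inl (i, 0)))

/-- The value on the wheel with the word `g`. -/
noncomputable def dw (D : (V : Type) → Gr V (m + 2) → M) (g : Perm (Fin (m + 2))) : M :=
  D (WT (m + 1)) (g • W0 (m + 1))

theorem FlowD.step (hD : FlowD D q) (k : Perm (Fin (m + 1))) (i : Fin (m + 1)) :
    psi0 D k (finRotate (m + 1) i) = psi0 D k i + fx0 D k i := by
  have h1 := hD.adv (k • W0 m) (Sum.inl (i, 0)) (by
    intro h
    have h' : (Sum.inl (i, 1) : WT m) = Sum.inl (i, 0) := h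
    simp at h')
  have h2 := hD.ade (k • W0 m) (Sum.inl (i, 1))
  have e1 : (k • W0 m).r (Sum.inl (i, 0)) = Sum.inl (i, 1) := rfl
  have e2 : (k • W0 m).r (Sum.inl (i, 1)) = Sum.inl (i, 2) := rfl
  have e3 : (k • W0 m).e (Sum.inl (i, 1)) = Sum.inl (finRotate (m + 1) i, 2) := rfl
  rw [e1, e2] at h1
  rw [e3] at h2
  unfold psi0 fx0
  rw [h2]
  have h3 := eq_neg_of_add_eq_zero_left h1
  rw [add_right_comm] at h1
  rw [add_comm (D _ (add (k • W0 m) 0 (Sum.inl (i, 2))))]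
  exact (eq_neg_of_add_eq_zero_left h1).symm

/-- At an ordinary leg the new leg gives zero. -/
theorem FlowD.ord (hD : FlowD D q) (k : Perm (Fin (m + 1))) {i : Fin (m + 1)}
    (hi : ∀ j, k i ≠ q j) : fx0 D k i = 0 := by
  have hch : SWT93.Cherry (add (k • W0 m) 0 (Sum.inl (i, 0))) (k i).succ 0 := by
    refine ⟨Fin.succ_ne_zero _, ?_⟩
    show (add (k • W0 m) 0 (Sum.inl (i, 0))).r (addE (k • W0 m) (Sum.inl (i, 0))
      (addL (k • W0 m) 0 (k i).succ)) = addE (k • W0 m) (Sum.inl (i, 0)) (addL (k • W0 m) 0 0)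
    have e0 : (k i).succ = (0 : Fin (m + 2)).succAbove (k i) := rfl
    rw [e0, addL_old, addL_new]
    have e1 : (k • W0 m).leg (k i) = (k • W0 m).e (Sum.inl (i, 0)) := by
      show (Sum.inr (k.symm (k i)) : WT m) = Sum.inr i
      rw [Equiv.symm_apply_apply]
    rw [e1, addE_eh]
    rfl
  have h1 := SWT36.cherry hD.rel.iso hD.rel.as hch
  have h2 : ∀ j, swap (k i).succ 0 (q j).succ = (q j).succ := by
    intro j
    apply swap_apply_of_ne_of_ne
    · intro h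
      exact hi j (Fin.succ_injective _ h).symm
    · exact Fin.succ_ne_zero _
  have h3 := hD.inv _ (add (k • W0 m) 0 (Sum.inl (i, 0))) (swap (k i).succ 0) h2
  unfold fx0
  apply hD.tf
  have h4 := h3.symm.trans h1
  rw [eq_neg_iff_add_eq_zero] at h4
  exact h4

/-- Rotation of the word. -/
theorem FlowD.rot (hD : FlowD D q) (g ρ : Perm (Fin (m + 2)))
    (h : ∀ i, ρ (finRotate (m + 2) i) = finRotate (m + 2) (ρ i)) : dw D (g * ρ⁻¹) = dw D g := by
  unfold dw
  rw [mul_smul, ← W0_rot ρ h, Gr.smul_map]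
  exact hD.rel.iso _ _ (rotE ρ) _

theorem pow_comm' (e : ℕ) (i : Fin (m + 1)) : (finRotate (m + 1) ^ e) (finRotate (m + 1) i) =
    finRotate (m + 1) ((finRotate (m + 1) ^ e) i) := by
  rw [← Perm.mul_apply, ← Perm.mul_apply, ← pow_succ, ← pow_succ']

theorem inv_comm' {ρ : Perm (Fin (m + 1))}
    (h : ∀ i, ρ (finRotate (m + 1) i) = finRotate (m + 1) (ρ i)) (i : Fin (m + 1)) :
    ρ⁻¹ (finRotate (m + 1) i) = finRotate (m + 1) (ρ⁻¹ i) := by
  show ρ.symm _ = _
  rw [Equiv.symm_apply_eq, h]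
  congr 1
  exact (ρ.apply_symm_apply i).symm

theorem FlowD.rot' (hD : FlowD D q) (g ρ : Perm (Fin (m + 2)))
    (h : ∀ i, ρ (finRotate (m + 2) i) = finRotate (m + 2) (ρ i)) : dw D (g * ρ) = dw D g := by
  have h1 := hD.rot g ρ⁻¹ (inv_comm' h)
  rwa [inv_inv] at h1

/-- The value depends only on the positions of the special labels. -/
theorem FlowD.word (hD : FlowD D q) {g g' : Perm (Fin (m + 2))}
    (h : ∀ j, ∃ P, g P = (q j).succ ∧ g' P = (q j).succ) : dw D g = dw D g' := by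
  unfold dw
  have h1 : g' = (g' * g⁻¹) * g := by rw [inv_mul_cancel_right]
  rw [h1, mul_smul]
  symm
  apply hD.inv
  intro j
  obtain ⟨P, h2, h3⟩ := h j
  rw [Perm.mul_apply]
  have h4 : g⁻¹ (q j).succ = P := by
    show g.symm _ = P
    rw [Equiv.symm_apply_eq, h2]
  rw [h4, h3]

theorem FlowD.psi_rot (hD : FlowD D q) (k ρ : Perm (Fin (m + 1)))
    (h : ∀ i, ρ (finRotate (m + 1) i) = finRotate (m + 1) (ρ i)) :
    psi0 D (k * ρ⁻¹) 0 = psi0 D k (ρ.symm 0) := by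
  unfold psi0
  have e1 : (k * ρ⁻¹) • W0 m = (k • W0 m).map (rotE ρ) := by
    rw [mul_smul, ← W0_rot ρ h, Gr.smul_map]
  have e2 : (Sum.inl (0, 2) : WT m) = rotE ρ (Sum.inl (ρ.symm 0, 2)) := by
    show _ = (Sum.inl (ρ (ρ.symm 0), 2) : WT m)
    rw [Equiv.apply_symm_apply]
  rw [e1, e2, ← add_map]
  exact hD.rel.iso _ _ _ _

/-- **The value with the new leg before the position `i` as the value of a word.** -/
theorem FlowD.psi_eq (hD : FlowD D q) (k : Perm (Fin (m + 1))) (i : Fin (m + 1))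
    (g : Perm (Fin (m + 2)))
    (hg : ∀ j, g (i.castSucc.succAbove (k.symm (q j))) = (q j).succ) : psi0 D k i = dw D g := by
  -- the rotation which brings `i` to the position `0`
  set c := finRotate (m + 1) with hc
  have hc0 : ∀ (e : ℕ) (t : Fin (m + 1)), ((c ^ e) t).val = (t.val + e) % (m + 1) := fun e t =>
    pow_val e t
  have h1 : psi0 D k i = psi0 D (k * c ^ i.val) 0 := by
    have h2 := hD.psi_rot k (c ^ i.val)⁻¹ (inv_comm' (pow_comm' i.val))
    rw [inv_inv] at h2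
    rw [h2]
    congr 1
    show i = (c ^ i.val) 0
    apply Fin.ext
    rw [hc0]
    simp [Nat.mod_eq_of_lt i.2]
  have h3 : psi0 D (k * c ^ i.val) 0 = dw D (kp (k * c ^ i.val)) := by
    unfold psi0 dw
    rw [← ins_eq]
    exact (hD.rel.iso _ _ _ _).symm
  have h4 : dw D (kp (k * c ^ i.val) * finRotate (m + 2) ^ (m + 1 - i.val)) =
      dw D (kp (k * c ^ i.val)) := hD.rot' _ _ (pow_comm' _)
  rw [h1, h3, ← h4]
  apply hD.word
  intro j
  refine ⟨i.castSucc.succAbove (k.symm (q j)), ?_, hg j⟩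
  obtain ⟨t, ht⟩ := (c ^ i.val).surjective (k.symm (q j))
  have h5 : (finRotate (m + 2) ^ (m + 1 - i.val)) (i.castSucc.succAbove (k.symm (q j))) =
      t.castSucc := by
    apply Fin.ext
    rw [pow_val, Fin.val_castSucc, ← ht]
    have ht2 := t.2
    have hi2 := i.2
    have h6 := hc0 i.val t
    rcases Nat.lt_or_ge (t.val + i.val) (m + 1) with h7 | h7
    · rw [Nat.mod_eq_of_lt h7] at h6
      have h8 : i.castSucc.succAbove ((c ^ i.val) t) = ((c ^ i.val) t).succ := by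
        apply Fin.succAbove_of_le_castSucc
        rw [Fin.le_def, Fin.val_castSucc, Fin.val_castSucc, h6]
        omega
      rw [h8, Fin.val_succ, h6]
      have h9 : t.val + i.val + 1 + (m + 1 - i.val) = t.val + (m + 2) := by omega
      rw [h9, Nat.add_mod_right, Nat.mod_eq_of_lt (by omega)]
    · have h10 : (t.val + i.val) % (m + 1) = t.val + i.val - (m + 1) := by
        rw [Nat.mod_eq_sub_mod h7, Nat.mod_eq_of_lt (by omega)]
      rw [h10] at h6
      have h8 : i.castSucc.succAbove ((c ^ i.val) t) = ((c ^ i.val) t).castSucc := by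
        apply Fin.succAbove_of_castSucc_lt
        rw [Fin.lt_def, Fin.val_castSucc, Fin.val_castSucc, h6]
        omega
      rw [h8, Fin.val_castSucc, h6]
      have h9 : t.val + i.val - (m + 1) + (m + 1 - i.val) = t.val := by omega
      rw [h9, Nat.mod_eq_of_lt (by omega)]
  rw [Perm.mul_apply, h5, kp_castSucc, Perm.mul_apply, ht, Equiv.apply_symm_apply]

/-! ### Arcs of ordinary legs -/

theorem rot_mk {a : ℕ} (h : a + 1 < m + 1) :
    finRotate (m + 1) ⟨a, by omega⟩ = ⟨a + 1, h⟩ := by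
  apply Fin.ext
  rw [c_val]
  exact Nat.mod_eq_of_lt h

/-- The value does not change along ordinary legs. -/
theorem FlowD.arc (hD : FlowD D q) (k : Perm (Fin (m + 1))) (a : ℕ) :
    ∀ (b : ℕ) (hab : a ≤ b) (hb : b < m + 1),
      (∀ (s : ℕ) (hs : s < m + 1), a ≤ s → s < b → ∀ j, k ⟨s, hs⟩ ≠ q j) →
      psi0 D k ⟨b, hb⟩ = psi0 D k ⟨a, lt_of_le_of_lt hab hb⟩ := by
  intro b
  induction b with
  | zero =>
    intro hab hb _
    have h0 : a = 0 := by omega
    subst h0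
    rfl
  | succ b ih =>
    intro hab hb ho
    rcases Nat.eq_or_lt_of_le hab with h | h
    · subst h
      rfl
    · have h1 := ih (by omega) (by omega) fun s hs h2 h3 => ho s hs h2 (by omega)
      rw [← h1, ← rot_mk hb, hD.step, hD.ord k (ho b (by omega) (by omega) (by omega)), add_zero]

/-- The value does not change along ordinary legs, up to the end. -/
theorem FlowD.arc_end (hD : FlowD D q) (k : Perm (Fin (m + 1))) (a : ℕ) (ha : a < m + 1)
    (ho : ∀ (s : ℕ) (hs : s < m + 1), a ≤ s → ∀ j, k ⟨s, hs⟩ ≠ q j) :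
    psi0 D k 0 = psi0 D k ⟨a, ha⟩ := by
  have h1 := hD.arc k a m (by omega) (by omega) fun s hs h2 _ => ho s hs h2
  have h2 : finRotate (m + 1) ⟨m, by omega⟩ = 0 := rot_last
  rw [← h2, hD.step, hD.ord k (ho m (by omega) (by omega)), add_zero, h1]

/-! ### Words with given positions of the special labels -/

/-- Permutations with prescribed values. -/
theorem exists_perm {N r : ℕ} {y z : Fin r → Fin N} (hy : Function.Injective y)
    (hz : Function.Injective z) : ∃ k : Perm (Fin N), ∀ j, k (y j) = z j := by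
  let e : {x // x ∈ Set.range y} ≃ {x // x ∈ Set.range z} :=
    (Equiv.ofInjective y hy).symm.trans (Equiv.ofInjective z hz)
  refine ⟨e.extendSubtype, fun j => ?_⟩
  rw [Equiv.extendSubtype_apply_of_mem e (y j) ⟨j, rfl⟩]
  have h1 : (Equiv.ofInjective y hy).symm ⟨y j, ⟨j, rfl⟩⟩ = j := by
    rw [Equiv.symm_apply_eq]
    rfl
  show ((Equiv.ofInjective z hz) ((Equiv.ofInjective y hy).symm ⟨y j, _⟩)).val = z j
  rw [h1]
  rfl

/-- The special labels are at the positions `0 < x₁ < x₂ < x₃`. -/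
structure At4 (q : Fin 4 → Fin (m + 1)) (g : Perm (Fin (m + 2))) (x₁ x₂ x₃ : ℕ) : Prop where
  l1 : 0 < x₁
  l2 : x₁ < x₂
  l3 : x₂ < x₃
  l4 : x₃ < m + 2
  p0 : g 0 = (q 0).succ
  p1 : g ⟨x₁, by omega⟩ = (q 1).succ
  p2 : g ⟨x₂, by omega⟩ = (q 2).succ
  p3 : g ⟨x₃, l4⟩ = (q 3).succ

theorem exists_at4 (hq : Function.Injective q) {x₁ x₂ x₃ : ℕ} (l1 : 0 < x₁) (l2 : x₁ < x₂)
    (l3 : x₂ < x₃) (l4 : x₃ < m + 2) : ∃ g, At4 q g x₁ x₂ x₃ := by
  have hy : Function.Injective (![0, ⟨x₁, by omega⟩, ⟨x₂, by omega⟩, ⟨x₃, l4⟩] :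
      Fin 4 → Fin (m + 2)) := by
    intro a b h
    fin_cases a <;> fin_cases b <;>
      simp [Fin.ext_iff] at h ⊢ <;> omega
  obtain ⟨g, hg⟩ := exists_perm (z := fun j => (q j).succ) hy
    (fun a b h => hq (Fin.succ_injective _ h))
  exact ⟨g, l1, l2, l3, l4, hg 0, hg 1, hg 2, hg 3⟩

theorem FlowD.at4_eq (hD : FlowD D q) {g g' : Perm (Fin (m + 2))} {x₁ x₂ x₃ : ℕ}
    (h : At4 q g x₁ x₂ x₃) (h' : At4 q g' x₁ x₂ x₃) : dw D g = dw D g' := by
  apply hD.word
  intro j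
  fin_cases j
  · exact ⟨_, h.p0, h'.p0⟩
  · exact ⟨_, h.p1, h'.p1⟩
  · exact ⟨_, h.p2, h'.p2⟩
  · exact ⟨_, h.p3, h'.p3⟩

/-- **A letter moves from the arc before the second pair to the arc after it.** -/
theorem FlowD.shift (hD : FlowD D q) (hq : Function.Injective q) {g g' : Perm (Fin (m + 2))}
    {x₁ x₂ x₃ : ℕ} (h : At4 q g x₁ (x₂ + 1) (x₃ + 1)) (h' : At4 q g' x₁ x₂ x₃) :
    dw D g = dw D g' := by
  have l1 := h'.l1
  have l2 := h'.l2
  have l3 := h'.l3
  have l4 := h.l4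
  have b1 : x₁ < m + 1 := by omega
  have b2 : x₂ < m + 1 := by omega
  have b3 : x₃ < m + 1 := by omega
  have hy : Function.Injective (![0, ⟨x₁, b1⟩, ⟨x₂, b2⟩, ⟨x₃, b3⟩] :
      Fin 4 → Fin (m + 1)) := by
    intro a b h
    fin_cases a <;> fin_cases b <;>
      simp [Fin.ext_iff] at h ⊢ <;> omega
  obtain ⟨k, hk⟩ := exists_perm hy hq
  have k0 : k 0 = q 0 := hk 0
  have k1 : k ⟨x₁, b1⟩ = q 1 := hk 1
  have k2 : k ⟨x₂, b2⟩ = q 2 := hk 2
  have k3 : k ⟨x₃, b3⟩ = q 3 := hk 3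
  have s0 : k.symm (q 0) = 0 := by rw [Equiv.symm_apply_eq, k0]
  have s1 : k.symm (q 1) = ⟨x₁, b1⟩ := by rw [Equiv.symm_apply_eq, k1]
  have s2 : k.symm (q 2) = ⟨x₂, b2⟩ := by rw [Equiv.symm_apply_eq, k2]
  have s3 : k.symm (q 3) = ⟨x₃, b3⟩ := by rw [Equiv.symm_apply_eq, k3]
  have ord : ∀ (s : ℕ) (hs : s < m + 1), s ≠ 0 → s ≠ x₁ → s ≠ x₂ → s ≠ x₃ →
      ∀ j, k ⟨s, hs⟩ ≠ q j := by
    intro s hs e0 e1 e2 e3 j hj
    fin_cases j
    · have := k.injective (hj.trans k0.symm)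
      exact e0 (congrArg Fin.val this)
    · have := k.injective (hj.trans k1.symm)
      exact e1 (congrArg Fin.val this)
    · have := k.injective (hj.trans k2.symm)
      exact e2 (congrArg Fin.val this)
    · have := k.injective (hj.trans k3.symm)
      exact e3 (congrArg Fin.val this)
  -- the two ends
  have hA : psi0 D k ⟨x₁ + 1, by omega⟩ = dw D g := by
    apply hD.psi_eq
    intro j
    fin_cases j
    · show g (Fin.succAbove _ (k.symm (q 0))) = (q 0).succ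
      rw [s0, ← h.p0]
      congr 1
    · show g (Fin.succAbove _ (k.symm (q 1))) = (q 1).succ
      rw [s1, ← h.p1]
      congr 1
      rw [Fin.succAbove_of_castSucc_lt _ _ (by rw [Fin.lt_def]; simp)]
      rfl
    · show g (Fin.succAbove _ (k.symm (q 2))) = (q 2).succ
      rw [s2, ← h.p2]
      congr 1
      rw [Fin.succAbove_of_le_castSucc _ _ (by rw [Fin.le_def]; simp; omega)]
      rfl
    · show g (Fin.succAbove _ (k.symm (q 3))) = (q 3).succ
      rw [s3, ← h.p3]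
      congr 1
      rw [Fin.succAbove_of_le_castSucc _ _ (by rw [Fin.le_def]; simp; omega)]
      rfl
  have hB : psi0 D k 0 = dw D g' := by
    have h1 : psi0 D k 0 = dw D (kp k) := by
      unfold psi0 dw
      rw [← ins_eq]
      exact (hD.rel.iso _ _ _ _).symm
    rw [h1]
    apply hD.word
    intro j
    fin_cases j
    · refine ⟨0, ?_, h'.p0⟩
      have e := kp_castSucc k 0
      rw [k0] at e
      exact e
    · refine ⟨⟨x₁, by omega⟩, ?_, h'.p1⟩
      have e := kp_castSucc k ⟨x₁, b1⟩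
      rw [k1] at e
      exact e
    · refine ⟨⟨x₂, by omega⟩, ?_, h'.p2⟩
      have e := kp_castSucc k ⟨x₂, b2⟩
      rw [k2] at e
      exact e
    · refine ⟨⟨x₃, by omega⟩, ?_, h'.p3⟩
      have e := kp_castSucc k ⟨x₃, b3⟩
      rw [k3] at e
      exact e
  -- the flow
  have f1 : psi0 D k ⟨x₂, b2⟩ = psi0 D k ⟨x₁ + 1, by omega⟩ :=
    hD.arc k (x₁ + 1) x₂ (by omega) b2 fun s hs h1 h2 =>
      ord s hs (by omega) (by omega) (by omega) (by omega)
  have f2 : psi0 D k ⟨x₂ + 1, by omega⟩ = psi0 D k ⟨x₂, b2⟩ + fx0 D k ⟨x₂, b2⟩ := by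
    rw [← rot_mk (by omega : x₂ + 1 < m + 1), hD.step]
  have f3 : psi0 D k ⟨x₃, b3⟩ = psi0 D k ⟨x₂ + 1, by omega⟩ :=
    hD.arc k (x₂ + 1) x₃ (by omega) b3 fun s hs h1 h2 =>
      ord s hs (by omega) (by omega) (by omega) (by omega)
  have f4 : psi0 D k (finRotate (m + 1) ⟨x₃, b3⟩) = psi0 D k ⟨x₃, b3⟩ + fx0 D k ⟨x₃, b3⟩ :=
    hD.step k _
  have f5 : fx0 D k ⟨x₂, b2⟩ + fx0 D k ⟨x₃, b3⟩ = 0 := by
    have h1 := hD.tv k
    rw [s2, s3] at h1
    exact h1
  have f6 : psi0 D k 0 = psi0 D k (finRotate (m + 1) ⟨x₃, b3⟩) := by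
    rcases Nat.lt_or_ge (x₃ + 1) (m + 1) with h1 | h1
    · rw [rot_mk h1]
      exact hD.arc_end k (x₃ + 1) h1 fun s hs h2 =>
        ord s hs (by omega) (by omega) (by omega) (by omega)
    · have h2 : x₃ = m := by omega
      subst h2
      have h3 : finRotate (x₃ + 1) ⟨x₃, b3⟩ = 0 := rot_last
      rw [h3]
  rw [← hA, ← hB, f6, f4, f3, f2, f1, add_assoc, f5, add_zero]

theorem FlowD.shifts (hD : FlowD D q) (hq : Function.Injective q) {x₁ b : ℕ} :
    ∀ (d : ℕ) (g g' : Perm (Fin (m + 2))), At4 q g x₁ (x₁ + 1 + d) (x₁ + 1 + d + b) →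
      At4 q g' x₁ (x₁ + 1) (x₁ + 1 + b) → dw D g = dw D g' := by
  intro d
  induction d with
  | zero => intro g g' h h'; exact hD.at4_eq h h'
  | succ d ih =>
    intro g g' h h'
    have l1 := h.l1
    have l3 := h.l3
    have l4 := h.l4
    obtain ⟨g₁, h₁⟩ := exists_at4 (m := m) hq (x₁ := x₁) (x₂ := x₁ + 1 + d)
      (x₃ := x₁ + 1 + d + b) l1 (by omega) (by omega) (by omega)
    rw [← ih g₁ g' h₁ h']
    have h2 : At4 q g x₁ (x₁ + 1 + d + 1) (x₁ + 1 + d + b + 1) := by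
      have e1 : x₁ + 1 + (d + 1) = x₁ + 1 + d + 1 := by omega
      have e2 : x₁ + 1 + (d + 1) + b = x₁ + 1 + d + b + 1 := by omega
      rw [← e1, ← e2]
      exact h
    exact hD.shift hq h2 h₁

/-- **The reflection.** -/
theorem FlowD.refl (hD : FlowD D q) (hm : Even (m + 2))
    (hsw : ∀ T : Gr (WT (m + 1)) (m + 2), D _ ((swap (q 0).succ (q 1).succ *
      swap (q 2).succ (q 3).succ) • T) = - D _ T) (hq : Function.Injective q)
    {g g' : Perm (Fin (m + 2))} {x₁ x₂ x₃ : ℕ} (h : At4 q g x₁ x₂ x₃)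
    (h' : At4 q g' x₁ (x₁ + (m + 2) - x₃) (x₁ + (m + 2) - x₂)) : dw D g' = - dw D g := by
  have l1 := h.l1
  have l2 := h.l2
  have l3 := h.l3
  have l4 := h.l4
  let ρ : Perm (Fin (m + 2)) := Equiv.subLeft ⟨x₁, by omega⟩
  have hρ : ∀ i, finRotate (m + 2) (ρ (finRotate (m + 2) i)) = ρ i := by
    intro i
    show finRotate (m + 2) ((⟨x₁, by omega⟩ : Fin (m + 2)) - finRotate (m + 2) i) =
      (⟨x₁, by omega⟩ : Fin (m + 2)) - i
    rw [finRotate_apply, finRotate_apply]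
    abel
  have hon : OnWh D := ⟨fun V W _ f G _ _ => hD.rel.iso V W f G,
    fun V _ G x _ _ hx => hD.rel.as V G x hx⟩
  have h1 : dw D (g * ρ⁻¹) = dw D g := by
    have h2 := onwh_ref (m := m + 1) hon g ρ hρ
    rw [hm.neg_one_pow, one_smul] at h2
    exact h2
  have h3 := hsw ((g * ρ⁻¹) • W0 (m + 1))
  rw [← mul_smul] at h3
  have h4 : dw D (swap (q 0).succ (q 1).succ * swap (q 2).succ (q 3).succ * (g * ρ⁻¹)) =
      - dw D (g * ρ⁻¹) := h3
  rw [← h1, ← h4]
  have hs : ∀ {i j : Fin 4}, i ≠ j → (q i).succ ≠ (q j).succ := fun hij h5 =>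
    hij (hq (Fin.succ_injective _ h5))
  have hval : ∀ (p : Fin (m + 2)) (y : ℕ) (hy : y < m + 2), (y + p.val) % (m + 2) = x₁ →
      (g * ρ⁻¹) p = g ⟨y, hy⟩ := by
    intro p y hy h5
    rw [Perm.mul_apply]
    congr 1
    show ρ.symm p = _
    rw [Equiv.symm_apply_eq]
    show p = (⟨x₁, by omega⟩ : Fin (m + 2)) - (⟨y, hy⟩ : Fin (m + 2))
    rw [eq_sub_iff_add_eq]
    apply Fin.ext
    rw [Fin.val_add, add_comm]
    exact h5
  apply hD.word
  intro j
  fin_cases j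
  · refine ⟨0, h'.p0, ?_⟩
    rw [Perm.mul_apply, hval 0 x₁ (by omega) (by simp [Nat.mod_eq_of_lt (show x₁ < m + 2 by omega)]),
      h.p1, Perm.mul_apply, swap_apply_of_ne_of_ne (hs (by decide)) (hs (by decide)),
      swap_apply_right]
    rfl
  · refine ⟨⟨x₁, by omega⟩, h'.p1, ?_⟩
    rw [Perm.mul_apply, hval ⟨x₁, by omega⟩ 0 (by omega)
      (by simp [Nat.mod_eq_of_lt (show x₁ < m + 2 by omega)])]
    have e0 : (⟨0, by omega⟩ : Fin (m + 2)) = 0 := rfl
    rw [e0, h.p0, Perm.mul_apply, swap_apply_of_ne_of_ne (hs (by decide)) (hs (by decide)),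
      swap_apply_left]
    rfl
  · refine ⟨⟨x₁ + (m + 2) - x₃, by omega⟩, h'.p2, ?_⟩
    rw [Perm.mul_apply, hval _ x₃ l4 (by
      show (x₃ + (x₁ + (m + 2) - x₃)) % (m + 2) = x₁
      have e : x₃ + (x₁ + (m + 2) - x₃) = x₁ + (m + 2) := by omega
      rw [e, Nat.add_mod_right, Nat.mod_eq_of_lt (by omega)]), h.p3, Perm.mul_apply,
      swap_apply_right, swap_apply_of_ne_of_ne (hs (by decide)) (hs (by decide))]
    rfl
  · refine ⟨⟨x₁ + (m + 2) - x₂, by omega⟩, h'.p3, ?_⟩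
    rw [Perm.mul_apply, hval _ x₂ (by omega) (by
      show (x₂ + (x₁ + (m + 2) - x₂)) % (m + 2) = x₁
      have e : x₂ + (x₁ + (m + 2) - x₂) = x₁ + (m + 2) := by omega
      rw [e, Nat.add_mod_right, Nat.mod_eq_of_lt (by omega)]), h.p2, Perm.mul_apply,
      swap_apply_left, swap_apply_of_ne_of_ne (hs (by decide)) (hs (by decide))]
    rfl

/-- **The non crossing case: the difference vanishes.** -/
theorem FlowD.zero (hD : FlowD D q) (hm : Even (m + 2))
    (hsw : ∀ T : Gr (WT (m + 1)) (m + 2), D _ ((swap (q 0).succ (q 1).succ *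
      swap (q 2).succ (q 3).succ) • T) = - D _ T) (hq : Function.Injective q)
    {g : Perm (Fin (m + 2))} {x₁ x₂ x₃ : ℕ} (h : At4 q g x₁ x₂ x₃) : dw D g = 0 := by
  have l1 := h.l1
  have l2 := h.l2
  have l3 := h.l3
  have l4 := h.l4
  obtain ⟨b, hb⟩ : ∃ b, x₃ = x₂ + b := ⟨x₃ - x₂, by omega⟩
  obtain ⟨g₁, h₁⟩ := exists_at4 (m := m) hq (x₁ := x₁) (x₂ := x₁ + 1) (x₃ := x₁ + 1 + b) l1
    (by omega) (by omega) (by omega)
  obtain ⟨g₂, h₂⟩ := exists_at4 (m := m) hq (x₁ := x₁) (x₂ := x₁ + (m + 2) - x₃)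
    (x₃ := x₁ + (m + 2) - x₂) l1 (by omega) (by omega) (by omega)
  have e1 : dw D g = dw D g₁ := by
    obtain ⟨d, hd⟩ : ∃ d, x₂ = x₁ + 1 + d := ⟨x₂ - x₁ - 1, by omega⟩
    apply hD.shifts hq d g g₁ ?_ h₁
    rw [← hd, ← hb]
    exact h
  have e2 : dw D g₂ = dw D g₁ := by
    obtain ⟨d, hd⟩ : ∃ d, x₁ + (m + 2) - x₃ = x₁ + 1 + d := ⟨m + 1 - x₃, by omega⟩
    apply hD.shifts hq d g₂ g₁ ?_ h₁
    have e3 : x₁ + 1 + d + b = x₁ + (m + 2) - x₂ := by omega
    rw [e3, ← hd]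
    exact h₂
  have e4 := hD.refl hm hsw hq h h₂
  apply hD.tf
  rw [e2, ← e1] at e4
  nth_rewrite 1 [e4]
  exact neg_add_cancel _

end Pool.Agent.SWT84
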