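import Pool.Agent.SWT84.Cy
import Pool.Agent.SWT49.Rim
import Pool.Agent.SWT45.Zero
import Pool.Agent.SWT58.Flip
import Pool.Agent.SWT67.Loc

/-!
# The state sums of `gl(k)` with prescribed labels on the legs
-/

set_option autoImplicit false

namespace Pool.Agent.SWT84

open Equiv Pool.Agent.SWT49 Pool.Agent.SWT80 Pool.Agent.SWT45 Pool.Agent.SWT93
open scoped Classical

variable {V W : Type} {n k : ℕ}

/-- The Kronecker symbol. -/
def del (a b : Fin k) : ℤ := if a = b then 1 else 0

theorem del_sum (s t : Fin k) (f : Fin k × Fin k → ℤ) :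
    ∑ l : Fin k × Fin k, del l.2 s * del t l.1 * f l = f (t, s) := by
  rw [Finset.sum_eq_single (t, s)]
  · simp [del]
  · rintro ⟨p, q⟩ _ h
    by_cases h1 : q = s
    · by_cases h2 : t = p
      · exact absurd (Prod.ext h2.symm h1) h
      · simp [del, h2]
    · simp [del, h1]
  · intro h
    exact absurd (Finset.mem_univ _) h

/-- The trace of `[x, y] z` for matrix units. -/
def gT (x y z : Fin k × Fin k) : ℤ :=
  del x.2 y.1 * del y.2 z.1 * del z.2 x.1 - del x.2 z.1 * del z.2 y.1 * del y.2 x.1

/-- `gl(k)`. -/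
def gln (k : ℕ) : LS (Fin k × Fin k) where
  du x := (x.2, x.1)
  odd _ := false
  pos _ := false
  T := gT

theorem gln_ok (k : ℕ) : (gln k).Ok where
  du_du _ := rfl
  odd_du _ := rfl
  pos_du _ h := absurd h Bool.false_ne_true
  cyc a b c := by
    show gT a b c = gT b c a
    unfold gT
    ring
  par _ _ _ _ := rfl

theorem gT_sum (a b c d : Fin k × Fin k) :
    ∑ l : Fin k × Fin k, gT l a b * gT (l.2, l.1) c d =
      del a.2 b.1 * gT (a.1, b.2) c d - del b.2 a.1 * gT (b.1, a.2) c d := by
  have h1 : ∀ l : Fin k × Fin k, gT l a b * gT (l.2, l.1) c d =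
      del l.2 a.1 * del b.2 l.1 * (del a.2 b.1 * gT (l.2, l.1) c d) -
      del l.2 b.1 * del a.2 l.1 * (del b.2 a.1 * gT (l.2, l.1) c d) := by
    intro l
    unfold gT
    ring
  rw [Finset.sum_congr rfl fun l _ => h1 l, Finset.sum_sub_distrib,
    del_sum a.1 b.2 (fun l => del a.2 b.1 * gT (l.2, l.1) c d),
    del_sum b.1 a.2 (fun l => del b.2 a.1 * gT (l.2, l.1) c d)]

theorem gT_ihx (a b c d : Fin k × Fin k) :
    (∑ l : Fin k × Fin k, gT l a b * gT (l.2, l.1) c d) -
      (∑ l : Fin k × Fin k, gT l b c * gT (l.2, l.1) d a) +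
      (∑ l : Fin k × Fin k, gT l a c * gT (l.2, l.1) d b) = 0 := by
  rw [gT_sum, gT_sum, gT_sum]
  unfold gT
  ring

/-- The labels of the legs are prescribed. -/
def AL (w : Fin n → Fin k × Fin k) (G : Gr V n) (v : V) (l : Fin k × Fin k) : Prop :=
  ∀ i, (v = G.leg i → l = ((w i).2, (w i).1)) ∧ (v = xe G i → l = w i)

theorem al_adm (w : Fin n → Fin k × Fin k) (G : Gr V n) : Adm (gln k) G (AL w G) := by
  intro v l h i
  constructor
  · intro h1
    have h2 : v = xe G i := by
      show v = G.e (G.leg i)
      rw [← h1, G.e2]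
    have h3 := (h i).2 h2
    show (l.2, l.1) = _
    rw [h3]
  · intro h1
    have h2 : v = G.leg i := G.e_inj h1
    have h3 := (h i).1 h2
    show (l.2, l.1) = _
    rw [h3]

theorem al_map (w : Fin n → Fin k × Fin k) (G : Gr V n) (f : V ≃ W) (v : V) (l : Fin k × Fin k) :
    AL w (G.map f) (f v) l ↔ AL w G v l := by
  unfold AL
  simp only [xe_map, Gr.map_leg, f.injective.eq_iff]

/-- The state sum. -/
noncomputable def ZF (w : Fin n → Fin k × Fin k) (V : Type) (G : Gr V n) : ℤ :=
  if h : Finite V then @Z (Fin k × Fin k) V n (@Fintype.ofFinite V h) _ (gln k) G (AL w G) else 0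

theorem ZF_eq [Fintype V] (w : Fin n → Fin k × Fin k) (G : Gr V n) :
    ZF w V G = Z (gln k) G (AL w G) := by
  unfold ZF
  rw [dif_pos (inferInstance : Finite V)]
  have h : ∀ i j : Fintype V, @Z (Fin k × Fin k) V n i _ (gln k) G (AL w G) =
      @Z (Fin k × Fin k) V n j _ (gln k) G (AL w G) := by
    intro i j
    have h' : i = j := Subsingleton.elim i j
    subst h'
    rfl
  exact h _ _

theorem rel_ZF (w : Fin n → Fin k × Fin k) : Rel (ZF w) where
  iso V W _ f G := by
    have : Finite W := Finite.of_equiv V f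
    have : Fintype V := Fintype.ofFinite V
    have : Fintype W := Fintype.ofFinite W
    rw [ZF_eq, ZF_eq]
    exact SWT58.s_map _ (gln k) (gln_ok k) V W n f G _ _ fun v l => al_map w G f v l
  as V _ G x hx := by
    have : Fintype V := Fintype.ofFinite V
    rw [ZF_eq, ZF_eq]
    refine SWT58.s_flip _ (gln k) (gln_ok k) V n G x _ hx (al_adm w G) (fun _ _ _ _ => rfl) ?_
    intro a b c _ _ _
    show gT a c b = if false || (false || false) then gT a b c else - gT a b c
    rw [if_neg (by decide)]
    unfold gT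
    ring
  ihx V _ I J X x h := by
    have : Fintype V := Fintype.ofFinite V
    rw [ZF_eq, ZF_eq, ZF_eq]
    have hall : ∀ (G : Gr V n), G.e = I.e → G.leg = I.leg → ∀ l, AL w G x l := by
      intro G he hl l i
      constructor
      · intro h1
        exfalso
        apply h.ok.ix
        rw [h1, hl]
        exact I.r_leg i
      · intro h1
        exfalso
        apply h.ok.iy
        have h2 : I.e x = I.leg i := by
          rw [h1]
          show I.e (G.e (G.leg i)) = _
          rw [he, hl, I.e2]
        rw [h2]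
        exact I.r_leg i
    have hal : ∀ (G : Gr V n), G.e = I.e → G.leg = I.leg → AL w G = AL w I := by
      intro G he hl
      unfold AL xe
      rw [he, hl]
    have hJ := hal J h.eJ h.lJ
    have hX := hal X h.eX h.lX
    have key := SWT67.loc _ (gln k) (gln_ok k) V n I J X x h (AL w I) (AL w J) (AL w X)
      (al_adm w I) (al_adm w J) (al_adm w X) (fun _ _ _ _ => rfl)
      (fun v _ _ l => by rw [hJ, hX]; exact ⟨Iff.rfl, Iff.rfl⟩) 1 (-1) 1 (by
        intro a b c d _ _ _ _
        rw [hJ, hX]
        have hf : (Finset.univ : Finset (Fin k × Fin k)).filter (AL w I x) = Finset.univ :=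
          Finset.filter_true_of_mem fun l _ => hall I rfl rfl l
        unfold tI tJ tX
        rw [hf]
        have e1 : ∀ l : Fin k × Fin k, sI ((gln k).odd a) ((gln k).odd b) ((gln k).odd c)
            ((gln k).odd d) ((gln k).pos l) * ((gln k).T l a b * (gln k).T ((gln k).du l) c d) =
            gT l a b * gT (l.2, l.1) c d := fun l => one_mul _
        have e2 : ∀ l : Fin k × Fin k, sJ ((gln k).odd a) ((gln k).odd b) ((gln k).odd c)
            ((gln k).odd d) ((gln k).pos l) * ((gln k).T l b c * (gln k).T ((gln k).du l) d a) =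
            gT l b c * gT (l.2, l.1) d a := fun l => one_mul _
        have e3 : ∀ l : Fin k × Fin k, sX ((gln k).odd a) ((gln k).odd b) ((gln k).odd c)
            ((gln k).odd d) ((gln k).pos l) * ((gln k).T l a c * (gln k).T ((gln k).du l) d b) =
            gT l a c * gT (l.2, l.1) d b := fun l => one_mul _
        rw [Finset.sum_congr rfl fun l _ => e1 l, Finset.sum_congr rfl fun l _ => e2 l,
          Finset.sum_congr rfl fun l _ => e3 l]
        linarith [gT_ihx a b c d])
    linarith

end Pool.Agent.SWT84
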